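import Mathlib

/-!
General lemmas: a Noshiro–Warschawski type injectivity criterion, continuity of inverses of proper
injective maps, surjectivity by an open-closed argument.
-/

set_option autoImplicit false

namespace Pool.Agent.Hhelper25.Biuni

open Set Filter Topology

lemma hasDerivAt_comp_real {f : ℂ → ℂ} {γ : ℝ → ℂ} {d d' : ℂ} {t : ℝ}
    (h1 : HasDerivAt f d (γ t)) (h2 : HasDerivAt γ d' t) :
    HasDerivAt (fun s => f (γ s)) (d * d') t := by
  have := h1.scomp t h2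
  rw [smul_eq_mul, mul_comm] at this
  exact this

lemma hasDerivAt_re {γ : ℝ → ℂ} {d : ℂ} {t : ℝ} (h : HasDerivAt γ d t) :
    HasDerivAt (fun s => (γ s).re) d.re t :=
  Complex.reCLM.hasFDerivAt.comp_hasDerivAt t h

lemma hasDerivAt_im {γ : ℝ → ℂ} {d : ℂ} {t : ℝ} (h : HasDerivAt γ d t) :
    HasDerivAt (fun s => (γ s).im) d.im t :=
  Complex.imCLM.hasFDerivAt.comp_hasDerivAt t h

/-- If the derivative of `f` lies in an open half-plane along the open segment then the end points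
have different images. -/
lemma ne_of_deriv_halfplane (f : ℂ → ℂ) (a b u : ℂ) (hab : a ≠ b)
    (hc : ContinuousOn f (segment ℝ a b))
    (hd : ∀ z ∈ openSegment ℝ a b, ∃ d, HasDerivAt f d z ∧ 0 < (u * d).re) : f a ≠ f b := by
  intro heq
  have hba : b - a ≠ 0 := sub_ne_zero.2 hab.symm
  let γ : ℝ → ℂ := fun t => a + t * (b - a)
  let φ : ℝ → ℝ := fun t => (u * f (γ t) / (b - a)).re
  have hγseg : ∀ t ∈ Icc (0 : ℝ) 1, γ t ∈ segment ℝ a b := by
    intro t ht
    rw [segment_eq_image']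
    exact ⟨t, ht, by simp [γ]⟩
  have hγo : ∀ t ∈ Ioo (0 : ℝ) 1, γ t ∈ openSegment ℝ a b := by
    intro t ht
    rw [openSegment_eq_image']
    exact ⟨t, ht, by simp [γ]⟩
  have hγd : ∀ t : ℝ, HasDerivAt γ (b - a) t := by
    intro t
    have h1 : HasDerivAt (fun t : ℝ => (t : ℂ)) 1 t := Complex.ofRealCLM.hasDerivAt
    have h2 := (h1.mul_const (b - a)).const_add a
    rw [one_mul] at h2
    exact h2
  have hcont : ContinuousOn φ (Icc 0 1) := by
    have h1 : ContinuousOn (fun t => f (γ t)) (Icc 0 1) :=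
      hc.comp (fun t _ => (hγd t).continuousAt.continuousWithinAt) hγseg
    exact Complex.continuous_re.comp_continuousOn ((continuousOn_const.mul h1).div_const _)
  have hmono : StrictMonoOn φ (Icc 0 1) := by
    apply strictMonoOn_of_deriv_pos (convex_Icc 0 1) hcont
    intro t ht
    rw [interior_Icc] at ht
    obtain ⟨d, h1, h2⟩ := hd (γ t) (hγo t ht)
    have h3 : HasDerivAt (fun t => f (γ t)) (d * (b - a)) t := hasDerivAt_comp_real h1 (hγd t)
    have h4 : HasDerivAt (fun t => u * f (γ t) / (b - a)) (u * (d * (b - a)) / (b - a)) t :=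
      (h3.const_mul u).div_const _
    have h5 : HasDerivAt φ ((u * (d * (b - a)) / (b - a)).re) t := hasDerivAt_re h4
    rw [h5.deriv]
    have h6 : u * (d * (b - a)) / (b - a) = u * d := by field_simp
    rw [h6]; exact h2
  have h7 := hmono (left_mem_Icc.2 zero_le_one) (right_mem_Icc.2 zero_le_one) zero_lt_one
  have h8 : φ 0 = φ 1 := by simp [φ, γ, heq]
  exact absurd h8 h7.ne

/-- The inverse of a proper continuous injective map is continuous. -/
lemma continuousOn_invFunOn {Q T : Set ℂ} {f : ℂ → ℂ} (hf : ContinuousOn f Q)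
    (inj : InjOn f Q) (hT : T ⊆ f '' Q)
    (hp : ∀ K : Set ℂ, IsCompact K → IsCompact {ζ ∈ Q | f ζ ∈ K}) :
    ContinuousOn (Function.invFunOn f Q) T := by
  intro t ht
  have hmem : ∀ s ∈ T, Function.invFunOn f Q s ∈ Q := fun s hs => Function.invFunOn_mem (hT hs)
  have heq : ∀ s ∈ T, f (Function.invFunOn f Q s) = s := fun s hs => Function.invFunOn_eq (hT hs)
  set K := Metric.closedBall t 1 with hK
  set C := {ζ ∈ Q | f ζ ∈ K} with hC
  have hCc : IsCompact C := hp K (isCompact_closedBall t 1)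
  have : Tendsto (Function.invFunOn f Q) (𝓝[T ∩ K] t) (𝓝 (Function.invFunOn f Q t)) := by
    apply hCc.tendsto_nhds_of_unique_mapClusterPt
    · filter_upwards [self_mem_nhdsWithin] with s hs
      exact ⟨hmem s hs.1, by rw [heq s hs.1]; exact hs.2⟩
    · intro y hy hcl
      apply inj hy.1 (hmem t ht)
      rw [heq t ht]
      -- `f y` is a cluster point of the identity
      by_contra hne
      obtain ⟨U, V, hU, hV, hyU, htV, hdis⟩ := t2_separation hne
      have h1 : f ⁻¹' U ∈ 𝓝[Q] y := (hf y hy.1).preimage_mem_nhdsWithin (hU.mem_nhds hyU)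
      obtain ⟨W, hW, hWQ⟩ := mem_nhdsWithin_iff_exists_mem_nhds_inter.1 h1
      have h2 : ∃ᶠ s in 𝓝[T ∩ K] t, Function.invFunOn f Q s ∈ W :=
        (mapClusterPt_iff_frequently.1 hcl) W hW
      have h3 : ∀ᶠ s in 𝓝[T ∩ K] t, s ∈ V := mem_nhdsWithin_of_mem_nhds (hV.mem_nhds htV)
      obtain ⟨s, ⟨hs1, hs2⟩, hs3⟩ := ((h2.and_eventually h3).and_eventually self_mem_nhdsWithin).exists
      have h4 : Function.invFunOn f Q s ∈ f ⁻¹' U := hWQ ⟨hs1, hmem s hs3.1⟩
      have h5 : s ∈ U := by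
        have : f (Function.invFunOn f Q s) ∈ U := h4
        rwa [heq s hs3.1] at this
      exact disjoint_left.1 hdis h5 hs2
  have hn : 𝓝[T ∩ K] t = 𝓝[T] t := by
    rw [nhdsWithin_inter_of_mem']
    exact mem_nhdsWithin_of_mem_nhds (Metric.closedBall_mem_nhds t one_pos)
  rw [hn] at this
  exact this

/-- The image of a proper continuous map is closed. -/
lemma isClosed_image_of_proper {Q : Set ℂ} {f : ℂ → ℂ} (hf : ContinuousOn f Q)
    (hp : ∀ K : Set ℂ, IsCompact K → IsCompact {ζ ∈ Q | f ζ ∈ K}) : IsClosed (f '' Q) := by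
  rw [← isSeqClosed_iff_isClosed]
  intro x p hx hxp
  let K : Set ℂ := insert p (range x)
  have hK : IsCompact K := hxp.isCompact_insert_range
  have h1 : IsCompact (f '' {ζ ∈ Q | f ζ ∈ K}) := (hp K hK).image_of_continuousOn (hf.mono fun _ h => h.1)
  have h2 : p ∈ f '' {ζ ∈ Q | f ζ ∈ K} := by
    apply h1.isClosed.mem_of_tendsto hxp
    filter_upwards with n
    obtain ⟨ζ, h3, h4⟩ := hx n
    exact ⟨ζ, ⟨h3, by rw [h4]; exact Or.inr ⟨n, rfl⟩⟩, h4⟩
  obtain ⟨ζ, h3, h4⟩ := h2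
  exact ⟨ζ, h3.1, h4⟩

/-- Surjectivity by an open-closed argument: `f` maps the part `S` of `Q` over the preconnected
open set `T` onto `T`. -/
lemma subset_image_of_clopen {Q S T : Set ℂ} {f : ℂ → ℂ} (hf : ContinuousOn f Q)
    (hp : ∀ K : Set ℂ, IsCompact K → IsCompact {ζ ∈ Q | f ζ ∈ K})
    (hSQ : S ⊆ Q) (hS : IsOpen S) (hST : ∀ ζ ∈ Q, f ζ ∈ T → ζ ∈ S) (hSne : S.Nonempty)
    (hmap : ∀ ζ ∈ S, f ζ ∈ T) (hT : IsPreconnected T)
    (hopen : ∀ ζ ∈ S, ∀ U ∈ 𝓝 ζ, f '' U ∈ 𝓝 (f ζ)) : T ⊆ f '' S := by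
  have hcl : IsClosed (f '' Q) := isClosed_image_of_proper hf hp
  have h1 : T ∩ f '' Q = f '' S := by
    ext w
    constructor
    · rintro ⟨hw, ζ, hζ, rfl⟩
      exact ⟨ζ, hST ζ hζ hw, rfl⟩
    · rintro ⟨ζ, hζ, rfl⟩
      exact ⟨hmap ζ hζ, ζ, hSQ hζ, rfl⟩
  have h2 : IsOpen (f '' S) := by
    rw [isOpen_iff_mem_nhds]
    rintro _ ⟨ζ, hζ, rfl⟩
    exact hopen ζ hζ S (hS.mem_nhds hζ)
  have h3 : T ⊆ f '' S ∪ (f '' Q)ᶜ := by
    intro w hw
    by_cases h : w ∈ f '' Q
    · left; rw [← h1]; exact ⟨hw, h⟩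
    · right; exact h
  have h4 := hT.subset_left_of_subset_union h2 hcl.isOpen_compl
    (by
      rw [disjoint_compl_right_iff_subset]
      exact image_mono hSQ) h3
    (by
      obtain ⟨ζ, hζ⟩ := hSne
      exact ⟨f ζ, hmap ζ hζ, ζ, hζ, rfl⟩)
  exact h4

end Pool.Agent.Hhelper25.Biuni
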