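import Mathlib

/-!
Sections of a polynomial over star-shaped sets free of critical values.
-/

set_option autoImplicit false

namespace Pool.Agent.Hhelper25.Biuni

open Set Filter Topology

noncomputable section

/-- critical values -/
def CV (p : Polynomial ℂ) : Set ℂ := p.eval '' {k | p.derivative.eval k = 0}

lemma lift_exists {p : Polynomial ℂ} {W : Set ℂ} (hW : IsOpen W) (hst : StarConvex ℝ 0 W)
    (h0 : (0 : ℂ) ∈ W) (hcv : ∀ w ∈ W, w ∉ CV p) (z : ℂ) (hz : p.eval z ∈ W) :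
    ∃ s : ℂ → ℂ, ContinuousOn s W ∧ (∀ w ∈ W, p.eval (s w) = w) ∧ s (p.eval z) = z := by
  classical
  have : ContractibleSpace W := hst.contractibleSpace ⟨0, h0⟩
  have : LocallyPathConnectedSpace W := hW.locallyPathConnectedSpace
  obtain ⟨F, ⟨hF1, hF2⟩, _⟩ := (p.isCoveringMapOn_eval).existsUnique_continuousMap_lifts
    (A := W) (⟨Subtype.val, by fun_prop⟩ : C(W, ℂ)) (a₀ := ⟨p.eval z, hz⟩) (e₀ := z) rfl
    (fun a => hcv a a.2)
  refine ⟨fun w => if h : w ∈ W then F ⟨w, h⟩ else 0, ?_, ?_, ?_⟩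
  · rw [continuousOn_iff_continuous_domRestrict]
    convert F.continuous using 1
    funext w
    simp [Set.domRestrict]
  · intro w hw
    simp only [dif_pos hw]
    exact congrFun hF2 ⟨w, hw⟩
  · simp only [dif_pos hz]
    exact hF1

lemma lift_unique {p : Polynomial ℂ} {W : Set ℂ} (hW : IsOpen W) (hst : StarConvex ℝ 0 W)
    (h0 : (0 : ℂ) ∈ W) (hcv : ∀ w ∈ W, w ∉ CV p) {s₁ s₂ : ℂ → ℂ} (h1 : ContinuousOn s₁ W)
    (h2 : ContinuousOn s₂ W) (e1 : ∀ w ∈ W, p.eval (s₁ w) = w) (e2 : ∀ w ∈ W, p.eval (s₂ w) = w)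
    {w₀ : ℂ} (hw₀ : w₀ ∈ W) (heq : s₁ w₀ = s₂ w₀) : ∀ w ∈ W, s₁ w = s₂ w := by
  classical
  have : ContractibleSpace W := hst.contractibleSpace ⟨0, h0⟩
  have : LocallyPathConnectedSpace W := hW.locallyPathConnectedSpace
  obtain ⟨F, _, huniq⟩ := (p.isCoveringMapOn_eval).existsUnique_continuousMap_lifts
    (A := W) (⟨Subtype.val, by fun_prop⟩ : C(W, ℂ)) (a₀ := ⟨w₀, hw₀⟩) (e₀ := s₁ w₀) (e1 w₀ hw₀)
    (fun a => hcv a a.2)
  have g1 := huniq ⟨fun w => s₁ w, h1.domRestrict⟩ ⟨rfl, by funext w; exact e1 w w.2⟩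
  have g2 := huniq ⟨fun w => s₂ w, h2.domRestrict⟩ ⟨heq.symm, by funext w; exact e2 w w.2⟩
  intro w hw
  have := DFunLike.congr_fun (g1.trans g2.symm) ⟨w, hw⟩
  exact this

/-- lifting of nonvanishing continuous functions on the plane through `exp` -/
lemma exists_log {f : ℂ → ℂ} (hf : Continuous f) (h0 : ∀ z, f z ≠ 0) (z₀ c : ℂ)
    (hc : Complex.exp c = f z₀) :
    ∃ γ : ℂ → ℂ, Continuous γ ∧ γ z₀ = c ∧ ∀ z, Complex.exp (γ z) = f z := by
  obtain ⟨F, ⟨hF1, hF2⟩, _⟩ := Complex.isCoveringMapOn_exp.existsUnique_continuousMap_lifts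
    (A := ℂ) (⟨f, hf⟩ : C(ℂ, ℂ)) (a₀ := z₀) (e₀ := c) hc (fun a => h0 a)
  exact ⟨F, F.continuous, hF1, fun z => congrFun hF2 z⟩

end

end Pool.Agent.Hhelper25.Biuni
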