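import Mathlib
import Pool.Agent.Hhelper25.Biuni.Sheets

/-!
The main sheet of a polynomial whose inverse germ extends to the unit disc, and the labels of the
other sheets.
-/

set_option autoImplicit false

namespace Pool.Agent.Hhelper25.Biuni

open Set Filter Topology

noncomputable section

/-- the ray `[r e, ∞ e)` -/
def Ray (e : ℂ) (r : ℝ) : Set ℂ := {w | ∃ t : ℝ, r ≤ t ∧ w = t * e}

lemma isClosed_Ray {e : ℂ} (he : ‖e‖ = 1) (r : ℝ) : IsClosed (Ray e r) := by
  have h1 : Isometry (fun t : ℝ => (t : ℂ) * e) := by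
    apply Isometry.of_dist_eq
    intro t s
    rw [dist_eq_norm, ← sub_mul, norm_mul, he, mul_one, ← Complex.ofReal_sub, Complex.norm_real, ← dist_eq_norm]
  have h2 : Ray e r = (fun t : ℝ => (t : ℂ) * e) '' Ici r := by
    ext w
    constructor
    · rintro ⟨t, ht, rfl⟩; exact ⟨t, ht, rfl⟩
    · rintro ⟨t, ht, rfl⟩; exact ⟨t, ht, rfl⟩
  rw [h2]
  exact h1.isClosedEmbedding.isClosedMap _ isClosed_Ici

lemma Ray_mono {e : ℂ} {r s : ℝ} (h : r ≤ s) : Ray e s ⊆ Ray e r := by
  rintro w ⟨t, ht, rfl⟩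
  exact ⟨t, h.trans ht, rfl⟩

lemma Ray_disjoint {e e' : ℂ} (he : ‖e‖ = 1) (he' : ‖e'‖ = 1) (hne : e ≠ e') {r : ℝ} (hr : 0 < r) {w : ℂ}
    (h1 : w ∈ Ray e r) (h2 : w ∈ Ray e' r) : False := by
  obtain ⟨t, ht, rfl⟩ := h1
  obtain ⟨t', ht', h3⟩ := h2
  have h4 : t = t' := by
    have := congrArg norm h3
    rw [norm_mul, norm_mul, he, he', mul_one, mul_one, Complex.norm_real, Complex.norm_real,
      Real.norm_eq_abs, Real.norm_eq_abs, abs_of_pos (by linarith), abs_of_pos (by linarith)] at this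
    exact this
  rw [h4] at h3
  have h5 : (t' : ℂ) ≠ 0 := by
    have : t' ≠ 0 := by linarith
    exact_mod_cast this
  exact hne (mul_left_cancel₀ h5 h3)

/-- the combinatorial/topological data of the main sheet -/
structure MainData (p : Polynomial ℂ) (m : ℕ) where
  E : Finset ℂ
  norm_E : ∀ e ∈ E, ‖e‖ = 1
  card_E : E.card ≤ m
  ne_E : E.Nonempty
  U : Set ℂ
  isOpen_U : IsOpen U
  zero_mem : (0 : ℂ) ∈ U
  inj : InjOn p.eval U
  lab : ℂ → ℂ
  lab_mem : ∀ z, z ∉ U → lab z ∈ E
  lab_closed : ∀ e ∈ E, IsClosed {z | z ∉ U ∧ lab z = e}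
  lab_bd : ∀ z ∈ closure U, z ∉ U → p.eval z ∈ Ray (lab z) 1
  S : Finset ℂ
  card_S : S.card ≤ m
  Q : ℂ → Set ℂ
  Q_meas : ∀ r ∈ S, MeasurableSet (Q r)
  Q_inj : ∀ r ∈ S, InjOn p.eval (Q r)
  Q_lab : ∀ r ∈ S, ∃ e ∈ E, ∀ z ∈ Q r, z ∉ U ∧ lab z = e
  cover : ∀ z, (∀ e ∈ E, p.eval z ∉ Ray e 0) → z ∈ U ∨ ∃ r ∈ S, z ∈ Q r
  small : ∀ η : ℝ, 0 < η → ∃ δ : ℝ, 0 < δ ∧ ∀ z ∈ U, ‖p.eval z‖ < δ → ‖z‖ ≤ (1 + η) * ‖p.eval z‖

lemma open_of_section {p : Polynomial ℂ} {M : Set ℂ} (hM : IsOpen M) {G : ℂ → ℂ}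
    (hG : ∀ w ∈ M, ContinuousAt G w) (hp : ∀ w ∈ M, p.eval (G w) = w)
    (hd : ∀ w ∈ M, p.derivative.eval (G w) ≠ 0) : IsOpen (G '' M) := by
  rw [isOpen_iff_mem_nhds]
  rintro _ ⟨w, hw, rfl⟩
  set z₀ := G w with hz₀
  let Φ := ((p.hasStrictDerivAt z₀).hasStrictFDerivAt_equiv (hd w hw)).toOpenPartialHomeomorph p.eval
  have hsrc : Φ.source ∈ 𝓝 z₀ := Φ.open_source.mem_nhds
    ((p.hasStrictDerivAt z₀).hasStrictFDerivAt_equiv (hd w hw)).mem_toOpenPartialHomeomorph_source
  have hcont : ContinuousAt (fun z => G (p.eval z)) z₀ := by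
    have h1 : p.eval z₀ = w := hp w hw
    have h2 : ContinuousAt G (p.eval z₀) := by rw [h1]; exact hG w hw
    exact ContinuousAt.comp' h2 p.continuous.continuousAt
  have h1 : ∀ᶠ z in 𝓝 z₀, G (p.eval z) ∈ Φ.source := by
    apply hcont.eventually_mem
    rw [hp w hw, ← hz₀]
    exact hsrc
  have h2 : ∀ᶠ z in 𝓝 z₀, p.eval z ∈ M := by
    apply p.continuous.continuousAt.eventually_mem
    rw [hp w hw]
    exact hM.mem_nhds hw
  filter_upwards [h1, h2, hsrc] with z h3 h4 h5
  have h6 : p.eval (G (p.eval z)) = p.eval z := hp _ h4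
  have h7 : G (p.eval z) = z := Φ.injOn h3 h5 h6
  exact ⟨p.eval z, h4, h7⟩

lemma exists_mainData (p : Polynomial ℂ) (m : ℕ) (hm : 1 ≤ m) (hdeg : p.natDegree = m + 1)
    (h0 : p.eval 0 = 0) (h1 : p.derivative.eval 0 = 1)
    (hcv : (0 : ℂ) ∉ CV p) (g : ℂ → ℂ) (hg : DifferentiableOn ℂ g (Metric.ball 0 1))
    (hg0 : g 0 = 0) (hpg : ∀ w ∈ Metric.ball (0 : ℂ) 1, p.eval (g w) = w) :
    Nonempty (MainData p m) := by
  classical
  have hp0 : p ≠ 0 := by rintro rfl; simp at hdeg
  have hddeg : p.derivative.natDegree = m := by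
    rw [Polynomial.natDegree_derivative]; omega
  have hd0 : p.derivative ≠ 0 := by
    intro h; rw [h] at hddeg; simp at hddeg; omega
  -- directions
  set E : Finset ℂ := (p.derivative.roots.toFinset).image (fun k => p.eval k / ‖p.eval k‖) with hE
  have hcrit : ∀ k, p.derivative.eval k = 0 → p.eval k ≠ 0 := by
    intro k hk h
    exact hcv ⟨k, hk, h⟩
  have norm_E : ∀ e ∈ E, ‖e‖ = 1 := by
    intro e he
    rw [hE, Finset.mem_image] at he
    obtain ⟨k, hk, rfl⟩ := he
    have h2 : p.eval k ≠ 0 := hcrit k (by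
      have := (Multiset.mem_toFinset.1 hk)
      exact (Polynomial.mem_roots hd0).1 this)
    rw [norm_div, Complex.norm_real, norm_norm, div_self (norm_ne_zero_iff.2 h2)]
  have card_E : E.card ≤ m := by
    refine Finset.card_image_le.trans ?_
    refine (Multiset.toFinset_card_le _).trans ?_
    rw [← hddeg]; exact Polynomial.card_roots' _
  have ne_E : E.Nonempty := by
    rw [hE, Finset.image_nonempty]
    obtain ⟨k, hk⟩ := IsAlgClosed.exists_root p.derivative (by
      rw [Polynomial.degree_eq_natDegree hd0, hddeg]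
      exact_mod_cast (by omega : m ≠ 0))
    exact ⟨k, by rw [Multiset.mem_toFinset, Polynomial.mem_roots hd0]; exact hk⟩
  have hmemE : ∀ k, p.derivative.eval k = 0 → p.eval k / ‖p.eval k‖ ∈ E := by
    intro k hk
    rw [hE, Finset.mem_image]
    exact ⟨k, by rw [Multiset.mem_toFinset, Polynomial.mem_roots hd0]; exact hk, rfl⟩
  -- the radius `ρ`
  have hCVfin : (CV p).Finite := by
    unfold CV
    apply Set.Finite.image
    have : {k | p.derivative.eval k = 0} = {k | p.derivative.IsRoot k} := rfl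
    rw [this]
    exact Polynomial.finite_setOfPred_isRoot hd0
  obtain ⟨ε, hε, hball⟩ := Metric.isOpen_iff.1 hCVfin.isClosed.isOpen_compl 0 hcv
  set ρ := min ε (1 / 2) with hρ
  have hρ0 : 0 < ρ := lt_min hε (by norm_num)
  have hρ1 : ρ < 1 := lt_of_le_of_lt (min_le_right _ _) (by norm_num)
  have hρcv : ∀ c ∈ CV p, ρ ≤ ‖c‖ := by
    intro c hc
    by_contra h
    push Not at h
    have : c ∈ Metric.ball (0 : ℂ) ε := by
      rw [mem_ball_zero_iff]; exact lt_of_lt_of_le h (min_le_left _ _)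
    exact hball this hc
  set W : Set ℂ := {w | ∀ e ∈ E, w ∉ Ray e ρ} with hW
  set M : Set ℂ := {w | ∀ e ∈ E, w ∉ Ray e 1} with hM
  have openR : ∀ r : ℝ, IsOpen {w : ℂ | ∀ e ∈ E, w ∉ Ray e r} := by
    intro r
    have : {w : ℂ | ∀ e ∈ E, w ∉ Ray e r} = ⋂ e ∈ E, (Ray e r)ᶜ := by ext w; simp
    rw [this]
    exact isOpen_biInter_finset fun e he => (isClosed_Ray (norm_E e he) r).isOpen_compl
  have hWo : IsOpen W := openR ρ
  have hMo : IsOpen M := openR 1
  have hWM : W ⊆ M := fun w hw e he h => hw e he (Ray_mono hρ1.le h)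
  have h0W : (0 : ℂ) ∈ W := by
    rintro e he ⟨t, ht, h2⟩
    have h3 : e ≠ 0 := by intro h; have := norm_E e he; rw [h] at this; simp at this
    have h4 : (t : ℂ) = 0 := (mul_eq_zero.1 h2.symm).resolve_right h3
    have h5 : t = 0 := by exact_mod_cast h4
    linarith
  have hstar : ∀ r : ℝ, 0 < r → StarConvex ℝ (0 : ℂ) {w : ℂ | ∀ e ∈ E, w ∉ Ray e r} := by
    intro r hr
    rw [starConvex_zero_iff]
    rintro w hw a ha ha1 e he ⟨t, ht, h2⟩
    have ha0 : a ≠ 0 := by
      rintro rfl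
      have h3 : e ≠ 0 := by intro h; have := norm_E e he; rw [h] at this; simp at this
      rw [zero_smul] at h2
      have h4 : (t : ℂ) = 0 := (mul_eq_zero.1 h2.symm).resolve_right h3
      have h5 : t = 0 := by exact_mod_cast h4
      linarith
    have ha' : 0 < a := lt_of_le_of_ne ha ha0.symm
    apply hw e he
    refine ⟨t / a, ?_, ?_⟩
    · rw [le_div_iff₀ ha']
      calc r * a ≤ r * 1 := mul_le_mul_of_nonneg_left ha1 hr.le
        _ = r := mul_one r
        _ ≤ t := ht
    · have h3 : (a : ℂ) ≠ 0 := by exact_mod_cast ha0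
      have h4 : (a : ℂ) * w = t * e := by rw [← h2]; simp
      push_cast
      field_simp
      rw [mul_comm]; exact h4
  have hWst : StarConvex ℝ (0 : ℂ) W := hstar ρ hρ0
  have hWcv : ∀ w ∈ W, w ∉ CV p := by
    rintro w hw ⟨k, hk, rfl⟩
    have h2 : p.eval k ≠ 0 := hcrit k hk
    apply hw _ (hmemE k hk)
    refine ⟨‖p.eval k‖, hρcv _ ⟨k, hk, rfl⟩, ?_⟩
    have : (‖p.eval k‖ : ℂ) ≠ 0 := by
      have := norm_ne_zero_iff.2 h2
      exact_mod_cast this
    field_simp
  -- the main section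
  obtain ⟨s0, hs0c, hs0p, hs00⟩ := lift_exists hWo hWst h0W hWcv 0 (by rw [h0]; exact h0W)
  rw [h0] at hs00
  have hagree : ∀ w ∈ Metric.ball (0 : ℂ) 1 ∩ W, g w = s0 w := by
    apply lift_unique (p := p) (W := Metric.ball (0 : ℂ) 1 ∩ W) (Metric.isOpen_ball.inter hWo)
      ?_ ⟨Metric.mem_ball_self one_pos, h0W⟩ (fun w hw => hWcv w hw.2)
      (hg.continuousOn.mono inter_subset_left) (hs0c.mono inter_subset_right)
      (fun w hw => hpg w hw.1) (fun w hw => hs0p w hw.2)
      (w₀ := 0) ⟨Metric.mem_ball_self one_pos, h0W⟩ (by rw [hg0, hs00])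
    exact ((convex_ball (0 : ℂ) 1).starConvex (Metric.mem_ball_self one_pos)).inter hWst
  set G : ℂ → ℂ := fun w => if ‖w‖ < 1 then g w else s0 w with hG
  have hG1 : ∀ w ∈ W, G w = s0 w := by
    intro w hw
    simp only [hG]
    split_ifs with h
    · exact hagree w ⟨by rwa [mem_ball_zero_iff], hw⟩
    · rfl
  have hG2 : ∀ w ∈ Metric.ball (0 : ℂ) 1, G w = g w := by
    intro w hw
    simp only [hG]
    rw [if_pos (mem_ball_zero_iff.1 hw)]
  have hMcase : ∀ w ∈ M, w ∈ Metric.ball (0 : ℂ) 1 ∨ w ∈ W := by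
    intro w hw
    by_cases h : ‖w‖ < 1
    · left; rwa [mem_ball_zero_iff]
    · right
      rintro e he ⟨t, ht, h2⟩
      apply hw e he
      refine ⟨t, ?_, h2⟩
      have h3 : ‖w‖ = t := by
        rw [h2, norm_mul, norm_E e he, mul_one, Complex.norm_real, Real.norm_eq_abs, abs_of_pos (by linarith)]
      rw [← h3]; exact not_lt.1 h
  have hGc : ∀ w ∈ M, ContinuousAt G w := by
    intro w hw
    rcases hMcase w hw with h | h
    · have : G =ᶠ[𝓝 w] g := by
        filter_upwards [Metric.isOpen_ball.mem_nhds h] with x hx using hG2 x hx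
      exact (hg.continuousOn.continuousAt (Metric.isOpen_ball.mem_nhds h)).congr this.symm
    · have : G =ᶠ[𝓝 w] s0 := by
        filter_upwards [hWo.mem_nhds h] with x hx using hG1 x hx
      exact (hs0c.continuousAt (hWo.mem_nhds h)).congr this.symm
  have hGp : ∀ w ∈ M, p.eval (G w) = w := by
    intro w hw
    rcases hMcase w hw with h | h
    · rw [hG2 w h]; exact hpg w h
    · rw [hG1 w h]; exact hs0p w h
  have hgd : ∀ w ∈ Metric.ball (0 : ℂ) 1, p.derivative.eval (g w) * deriv g w = 1 := by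
    intro w hw
    have h2 : HasDerivAt g (deriv g w) w := (hg.differentiableAt (Metric.isOpen_ball.mem_nhds hw)).hasDerivAt
    have h3 := (p.hasDerivAt (g w)).comp w h2
    have h4 : (fun x => p.eval x) ∘ g =ᶠ[𝓝 w] id := by
      filter_upwards [Metric.isOpen_ball.mem_nhds hw] with x hx using hpg x hx
    have h5 : HasDerivAt ((fun x => p.eval x) ∘ g) 1 w := (hasDerivAt_id w).congr_of_eventuallyEq h4
    exact h3.unique h5
  have hGd : ∀ w ∈ M, p.derivative.eval (G w) ≠ 0 := by
    intro w hw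
    rcases hMcase w hw with h | h
    · rw [hG2 w h]
      intro h2
      have := hgd w h
      rw [h2, zero_mul] at this
      exact zero_ne_one this
    · intro h2
      exact hWcv w h ⟨G w, h2, hGp w hw⟩
  set U : Set ℂ := G '' M with hU
  have hUo : IsOpen U := open_of_section hMo hGc hGp hGd
  have h0M : (0 : ℂ) ∈ M := hWM h0W
  have hG0 : G 0 = 0 := by rw [hG2 0 (Metric.mem_ball_self one_pos), hg0]
  have h0U : (0 : ℂ) ∈ U := ⟨0, h0M, hG0⟩
  have hUG : ∀ z ∈ U, p.eval z ∈ M ∧ G (p.eval z) = z := by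
    rintro _ ⟨w, hw, rfl⟩
    rw [hGp w hw]; exact ⟨hw, rfl⟩
  have hUinj : InjOn p.eval U := by
    intro a ha b hb hab
    have hab' : p.eval a = p.eval b := hab
    rw [← (hUG a ha).2, ← (hUG b hb).2, hab']
  have hclos : ∀ z ∈ closure U, p.eval z ∈ M → z ∈ U := by
    intro z hz hpz
    by_contra hcon
    have hne : G (p.eval z) ≠ z := fun h => hcon ⟨p.eval z, hpz, h⟩
    have hcont : ContinuousAt (fun z => G (p.eval z)) z := ContinuousAt.comp' (hGc _ hpz) p.continuous.continuousAt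
    have h2 : ∀ᶠ x in 𝓝 z, G (p.eval x) ≠ x := by
      have h3 : ContinuousAt (fun z => G (p.eval z) - z) z := hcont.sub continuousAt_id
      filter_upwards [h3.eventually_ne (sub_ne_zero.2 hne)] with x hx h4
      exact hx (sub_eq_zero.2 h4)
    obtain ⟨x, hx1, hx2⟩ := ((mem_closure_iff_frequently.1 hz).and_eventually h2).exists
    exact hx2 (hUG x hx1).2
  have hfront : ∀ z ∈ closure U, z ∉ U → ∃ e ∈ E, p.eval z ∈ Ray e 1 := by
    intro z hz hzU
    by_contra hcon
    push Not at hcon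
    exact hzU (hclos z hz hcon)
  have hUconn : IsPreconnected U := by
    have h2 : IsPreconnected M := by
      have := (hstar 1 one_pos).isPathConnected h0M
      exact this.isConnected.isPreconnected
    exact h2.image G (fun w hw => (hGc w hw).continuousWithinAt)
  -- the label function
  obtain ⟨kk, hkk⟩ : ∃ kk : ℂ → ℕ, InjOn kk (E : Set ℂ) :=
    Set.countable_iff_exists_injOn.1 E.countable_toSet
  have hury : ∀ e : ℂ, ∃ f : C(ℂ, ℝ), e ∈ E → (∀ w ∈ Ray e 1, f w = 1) ∧ ∀ e' ∈ E, e' ≠ e → ∀ w ∈ Ray e' 1, f w = 0 := by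
    intro e
    by_cases he : e ∈ E
    · have hA : IsClosed (⋃ e' ∈ E.erase e, Ray e' 1) := by
        apply isClosed_biUnion_finset
        intro e' he'
        exact isClosed_Ray (norm_E e' (Finset.mem_of_mem_erase he')) 1
      have hdis : Disjoint (⋃ e' ∈ E.erase e, Ray e' 1) (Ray e 1) := by
        rw [Set.disjoint_left]
        intro w hw hw2
        simp only [mem_iUnion] at hw
        obtain ⟨e', he', hw⟩ := hw
        exact Ray_disjoint (norm_E e he) (norm_E e' (Finset.mem_of_mem_erase he'))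
          (Finset.ne_of_mem_erase he').symm one_pos hw2 hw
      obtain ⟨f, hf0, hf1, _⟩ := exists_continuous_zero_one_of_isClosed hA (isClosed_Ray (norm_E e he) 1) hdis
      refine ⟨f, fun _ => ⟨fun w hw => hf1 hw, fun e' he' hne w hw => hf0 ?_⟩⟩
      simp only [mem_iUnion]
      exact ⟨e', Finset.mem_erase.2 ⟨hne, he'⟩, hw⟩
    · exact ⟨0, fun h => absurd h he⟩
  choose ury hury using hury
  set B : ℂ → ℝ := fun w => ∑ e ∈ E, 2 * Real.pi * kk e * ury e w with hB
  have hBc : Continuous B := by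
    apply continuous_finsetSum
    intro e _
    exact continuous_const.mul (ury e).continuous
  have hBval : ∀ e ∈ E, ∀ w ∈ Ray e 1, B w = 2 * Real.pi * kk e := by
    intro e he w hw
    simp only [hB]
    rw [Finset.sum_eq_single e]
    · rw [(hury e he).1 w hw, mul_one]
    · intro e' he' hne
      rw [(hury e' he').2 e he hne.symm w hw, mul_zero]
    · intro h; exact absurd he h
  set f : ℂ → ℂ := fun z => if z ∈ U then 1 else Complex.exp (Complex.I * B (p.eval z)) with hf
  have hfc : Continuous f := by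
    apply continuous_if
    · intro z hz
      rw [show {z | z ∈ U} = U from rfl, frontier, hUo.interior_eq] at hz
      obtain ⟨e, he, h2⟩ := hfront z hz.1 hz.2
      rw [hBval e he _ h2]
      symm
      rw [Complex.exp_eq_one_iff]
      exact ⟨kk e, by push_cast; ring⟩
    · exact continuousOn_const
    · apply Continuous.continuousOn
      exact Complex.continuous_exp.comp (continuous_const.mul (Complex.continuous_ofReal.comp (hBc.comp p.continuous)))
  obtain ⟨γ, hγc, hγ0, hγe⟩ := exists_log hfc (fun z => by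
    simp only [hf]
    split_ifs
    · exact one_ne_zero
    · exact Complex.exp_ne_zero _) 0 0 (by simp only [hf]; rw [if_pos h0U, Complex.exp_zero])
  have hint_closed : ∀ A : Set ℤ, IsClosed ((fun n : ℤ => (n : ℝ)) '' A) := by
    intro A
    exact Int.isClosedEmbedding_coe_real.isClosedMap _ (isClosed_discrete A)
  -- `γ` vanishes on `U`
  have hγU : ∀ z ∈ U, γ z = 0 := by
    have hint : ∀ z ∈ U, ∃ k : ℤ, (γ z).im / (2 * Real.pi) = k := by
      intro z hz
      have h2 := hγe z
      simp only [hf] at h2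
      rw [if_pos hz, Complex.exp_eq_one_iff] at h2
      obtain ⟨k, hk⟩ := h2
      refine ⟨k, ?_⟩
      rw [hk]
      have : ((k : ℂ) * (2 * Real.pi * Complex.I)).im = k * (2 * Real.pi) := by simp
      rw [this]
      field_simp
    have hcon : ∀ z ∈ U, (γ z).im / (2 * Real.pi) = 0 := by
      have himg : IsPreconnected ((fun z => (γ z).im / (2 * Real.pi)) '' U) := by
        apply hUconn.image
        exact ((Complex.continuous_im.comp hγc).div_const _).continuousOn
      intro z hz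
      have hsub : (fun z => (γ z).im / (2 * Real.pi)) '' U ⊆ (fun n : ℤ => (n : ℝ)) '' univ := by
        rintro _ ⟨x, hx, rfl⟩
        obtain ⟨k, hk⟩ := hint x hx
        exact ⟨k, mem_univ _, hk.symm⟩
      by_contra hne
      -- separate `0` from the rest
      have h2 := isPreconnected_closed_iff.1 himg {0} ((fun n : ℤ => (n : ℝ)) '' {0}ᶜ) isClosed_singleton
        (hint_closed _) (by
          intro y hy
          obtain ⟨k, _, rfl⟩ := hsub hy
          by_cases hk : k = 0
          · left; simp [hk]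
          · right; exact ⟨k, hk, rfl⟩)
        ⟨0, ⟨0, h0U, by simp [hγ0]⟩, rfl⟩
        ⟨_, ⟨z, hz, rfl⟩, by
          obtain ⟨k, hk⟩ := hint z hz
          refine ⟨k, ?_, hk.symm⟩
          intro h3
          apply hne
          rw [hk, mem_singleton_iff.1 h3]; simp⟩
      obtain ⟨y, _, hy1, k, hk, hy2⟩ := h2
      rw [mem_singleton_iff] at hy1
      rw [hy1] at hy2
      have hy3 : (k : ℝ) = 0 := hy2
      exact hk (mem_singleton_iff.2 (by exact_mod_cast hy3))
    intro z hz
    have h2 := hγe z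
    simp only [hf] at h2
    rw [if_pos hz, Complex.exp_eq_one_iff] at h2
    obtain ⟨k, hk⟩ := h2
    have h3 := hcon z hz
    have h4 : (γ z).im = k * (2 * Real.pi) := by rw [hk]; simp
    rw [h4] at h3
    have h5 : (k : ℝ) = 0 := by
      have := Real.pi_pos
      field_simp at h3
      exact h3
    have h6 : k = 0 := by exact_mod_cast h5
    rw [hk, h6]; simp
  have hγcl : ∀ z ∈ closure U, γ z = 0 := by
    have h2 : IsClosed {z | γ z = 0} := isClosed_eq hγc continuous_const
    exact fun z hz => (h2.closure_subset_iff.2 hγU) hz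
  set Nr : ℂ → ℝ := fun z => (B (p.eval z) - (γ z).im) / (2 * Real.pi) with hNr
  have hNc : Continuous Nr := ((hBc.comp p.continuous).sub (Complex.continuous_im.comp hγc)).div_const _
  have hNint : ∀ z, z ∉ U → ∃ k : ℤ, Nr z = k := by
    intro z hz
    have h2 := hγe z
    simp only [hf] at h2
    rw [if_neg hz, Complex.exp_eq_exp_iff_exists_int] at h2
    obtain ⟨k, hk⟩ := h2
    refine ⟨-k, ?_⟩
    simp only [hNr]
    rw [hk]
    have : (Complex.I * (B (p.eval z) : ℂ) + k * (2 * Real.pi * Complex.I)).im = B (p.eval z) + k * (2 * Real.pi) := by simp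
    rw [this]
    push_cast
    have := Real.pi_pos
    field_simp
    ring
  have hNbd : ∀ z ∈ closure U, z ∉ U → ∀ e ∈ E, p.eval z ∈ Ray e 1 → Nr z = kk e := by
    intro z hz _ e he h2
    simp only [hNr]
    rw [hγcl z hz, hBval e he _ h2]
    have := Real.pi_pos
    simp
  -- the values of `Nr` outside `U`
  have hNval : ∀ z, z ∉ U → ∃ e ∈ E, Nr z = kk e := by
    set Bad : Set ℂ := Uᶜ ∩ Nr ⁻¹' ((fun n : ℤ => (n : ℝ)) '' {k : ℤ | ∀ e ∈ E, k ≠ kk e}) with hBad
    have hBc1 : IsClosed Bad := hUo.isClosed_compl.inter ((hint_closed _).preimage hNc)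
    have hBo : IsOpen Bad := by
      have h2 : Bad = (closure U)ᶜ ∩ Nr ⁻¹' ((fun n : ℤ => (n : ℝ)) '' {k : ℤ | ∃ e ∈ E, k = kk e})ᶜ := by
        ext z
        constructor
        · rintro ⟨h3, k, hk, h4⟩
          refine ⟨?_, ?_⟩
          · intro h5
            obtain ⟨e, he, h6⟩ := hfront z h5 h3
            have h7 := hNbd z h5 h3 e he h6
            rw [← h4] at h7
            have h8 : (k : ℝ) = kk e := h7
            exact hk e he (by exact_mod_cast h8)
          · rintro ⟨k', ⟨e, he, hk'⟩, h5⟩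
            apply hk e he
            have h4' : (k : ℝ) = Nr z := h4
            have h5' : (k' : ℝ) = Nr z := h5
            have : (k : ℝ) = k' := by rw [h4', h5']
            rw [← hk']; exact_mod_cast this
        · rintro ⟨h3, h4⟩
          have h3' : z ∉ U := fun h => h3 (subset_closure h)
          obtain ⟨k, hk⟩ := hNint z h3'
          refine ⟨h3', k, ?_, hk.symm⟩
          intro e he h5
          exact h4 ⟨k, ⟨e, he, h5⟩, hk.symm⟩
      rw [h2]
      exact isClosed_closure.isOpen_compl.inter ((hint_closed _).isOpen_compl.preimage hNc)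
    have hBe : Bad = ∅ := by
      rcases isClopen_iff.1 ⟨hBc1, hBo⟩ with h | h
      · exact h
      · exfalso
        have : (0 : ℂ) ∈ Bad := by rw [h]; exact mem_univ _
        exact this.1 h0U
    intro z hz
    by_contra hcon
    push Not at hcon
    obtain ⟨k, hk⟩ := hNint z hz
    have : z ∈ Bad := ⟨hz, k, fun e he h => hcon e he (by rw [hk, h]; simp), hk.symm⟩
    rw [hBe] at this
    exact this
  set lab : ℂ → ℂ := fun z => if h : ∃ e ∈ E, Nr z = kk e then h.choose else 0 with hlab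
  have hlab1 : ∀ z, z ∉ U → lab z ∈ E ∧ Nr z = kk (lab z) := by
    intro z hz
    have h2 := hNval z hz
    simp only [hlab]
    rw [dif_pos h2]
    exact h2.choose_spec
  have hlab2 : ∀ z, z ∉ U → ∀ e ∈ E, (lab z = e ↔ Nr z = kk e) := by
    intro z hz e he
    have h2 := hlab1 z hz
    constructor
    · rintro rfl; exact h2.2
    · intro h3
      apply hkk h2.1 he
      have : (kk (lab z) : ℝ) = kk e := by rw [← h2.2, h3]
      exact_mod_cast this
  -- the other sheets
  have hroot : ∀ r : ℂ, p.eval r = 0 → ∃ s : ℂ → ℂ, ContinuousOn s W ∧ (∀ w ∈ W, p.eval (s w) = w) ∧ s 0 = r := by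
    intro r hr
    have := lift_exists hWo hWst h0W hWcv r (by rw [hr]; exact h0W)
    rwa [hr] at this
  set S : Finset ℂ := p.roots.toFinset.erase 0 with hS
  have hSroot : ∀ r ∈ S, p.eval r = 0 := by
    intro r hr
    have h2 := Finset.mem_of_mem_erase hr
    rw [Multiset.mem_toFinset] at h2
    exact (Polynomial.mem_roots hp0).1 h2
  have hsec : ∀ r : ℂ, ∃ s : ℂ → ℂ, r ∈ S → ContinuousOn s W ∧ (∀ w ∈ W, p.eval (s w) = w) ∧ s 0 = r := by
    intro r
    by_cases hr : r ∈ S
    · obtain ⟨s, hs⟩ := hroot r (hSroot r hr)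
      exact ⟨s, fun _ => hs⟩
    · exact ⟨fun _ => 0, fun h => absurd h hr⟩
  choose sec hsec using hsec
  have hQU : ∀ r ∈ S, ∀ w ∈ W, sec r w ∉ U := by
    intro r hr w hw hU2
    obtain ⟨hc, hp', hs⟩ := hsec r hr
    have h2 := (hUG _ hU2).2
    rw [hp' w hw, hG1 w hw] at h2
    have h3 := lift_unique hWo hWst h0W hWcv hc hs0c hp' hs0p hw h2.symm 0 h0W
    rw [hs, hs00] at h3
    exact (Finset.ne_of_mem_erase hr) h3
  refine ⟨{ E := E, norm_E := norm_E, card_E := card_E, ne_E := ne_E, U := U, isOpen_U := hUo,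
            zero_mem := h0U, inj := hUinj, lab := lab, lab_mem := fun z hz => (hlab1 z hz).1,
            lab_closed := ?_, lab_bd := ?_, S := S, card_S := ?_,
            Q := fun r => {z | p.eval z ∈ W ∧ sec r (p.eval z) = z}, Q_meas := ?_, Q_inj := ?_,
            Q_lab := ?_, cover := ?_, small := ?_ }⟩
  · intro e he
    have : {z | z ∉ U ∧ lab z = e} = Uᶜ ∩ Nr ⁻¹' {(kk e : ℝ)} := by
      ext z
      constructor
      · rintro ⟨h2, h3⟩; exact ⟨h2, (hlab2 z h2 e he).1 h3⟩
      · rintro ⟨h2, h3⟩; exact ⟨h2, (hlab2 z h2 e he).2 h3⟩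
    rw [this]
    exact hUo.isClosed_compl.inter (isClosed_singleton.preimage hNc)
  · intro z hz hzU
    obtain ⟨e, he, h2⟩ := hfront z hz hzU
    have h3 := hNbd z hz hzU e he h2
    rw [(hlab2 z hzU e he).2 h3]
    exact h2
  · have h2 : (0 : ℂ) ∈ p.roots.toFinset := by
      rw [Multiset.mem_toFinset, Polynomial.mem_roots hp0]; exact h0
    rw [hS, Finset.card_erase_of_mem h2]
    have h3 : p.roots.toFinset.card ≤ m + 1 := by
      rw [← hdeg]
      exact (Multiset.toFinset_card_le _).trans (Polynomial.card_roots' _)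
    omega
  · intro r hr
    obtain ⟨hc, _, _⟩ := hsec r hr
    have hA : IsOpen (p.eval ⁻¹' W) := hWo.preimage p.continuous
    have hcont : ContinuousOn (fun z => sec r (p.eval z) - z) (p.eval ⁻¹' W) :=
      (hc.comp p.continuous.continuousOn (fun z hz => hz)).sub continuousOn_id
    obtain ⟨u, hu, h2⟩ := continuousOn_iff_isClosed.1 hcont {0} isClosed_singleton
    have : {z | p.eval z ∈ W ∧ sec r (p.eval z) = z} = u ∩ p.eval ⁻¹' W := by
      rw [← h2]
      ext z
      simp only [mem_ofPred_eq, mem_inter_iff, mem_preimage, mem_singleton_iff, sub_eq_zero]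
      tauto
    rw [this]
    exact hu.measurableSet.inter hA.measurableSet
  · intro r hr a ha b hb hab
    have hab' : p.eval a = p.eval b := hab
    rw [← ha.2, ← hb.2, hab']
  · intro r hr
    obtain ⟨hc, hp', hs⟩ := hsec r hr
    -- connectedness of the sheet
    have hWconn : IsPreconnected W := by
      have := hWst.isPathConnected h0W
      exact this.isConnected.isPreconnected
    have hconn : IsPreconnected ((fun w => Nr (sec r w)) '' W) :=
      hWconn.image _ (hNc.comp_continuousOn hc)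
    have hr0 : r ∉ U := by
      have := hQU r hr 0 h0W
      rwa [hs] at this
    refine ⟨lab r, (hlab1 r hr0).1, ?_⟩
    rintro z ⟨hz1, hz2⟩
    have hzU : z ∉ U := by
      have := hQU r hr _ hz1
      rwa [hz2] at this
    refine ⟨hzU, ?_⟩
    rw [hlab2 z hzU _ (hlab1 r hr0).1, ← (hlab1 r hr0).2]
    -- both values lie in a connected subset of `ℤ`
    by_contra hne
    obtain ⟨k0, hk0⟩ := hNint r hr0
    have h2 := isPreconnected_closed_iff.1 hconn {Nr r} ((fun n : ℤ => (n : ℝ)) '' {k0}ᶜ) isClosed_singleton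
      (hint_closed _) (by
        rintro _ ⟨w, hw, rfl⟩
        obtain ⟨k, hk⟩ := hNint _ (hQU r hr w hw)
        by_cases hk' : k = k0
        · left; show Nr (sec r w) = Nr r; rw [hk, hk', hk0]
        · right; exact ⟨k, hk', hk.symm⟩)
      ⟨Nr r, ⟨0, h0W, by show Nr (sec r 0) = Nr r; rw [hs]⟩, rfl⟩
      ⟨Nr z, ⟨p.eval z, hz1, by show Nr (sec r (p.eval z)) = Nr z; rw [hz2]⟩, by
        obtain ⟨k, hk⟩ := hNint z hzU
        refine ⟨k, ?_, hk.symm⟩
        intro h3
        apply hne
        rw [hk, hk0, mem_singleton_iff.1 h3]⟩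
    obtain ⟨y, _, hy1, k, hk, hy2⟩ := h2
    rw [mem_singleton_iff] at hy1
    rw [hy1, hk0] at hy2
    have hy3 : (k : ℝ) = k0 := hy2
    exact hk (mem_singleton_iff.2 (by exact_mod_cast hy3))
  · intro z hz
    have hzW : p.eval z ∈ W := fun e he h => hz e he (Ray_mono hρ0.le h)
    obtain ⟨s, hsc, hsp, hsz⟩ := lift_exists hWo hWst h0W hWcv z hzW
    have hroot0 : p.eval (s 0) = 0 := hsp 0 h0W
    by_cases h2 : s 0 = 0
    · left
      have h3 := lift_unique hWo hWst h0W hWcv hsc hs0c hsp hs0p h0W (by rw [h2, hs00]) _ hzW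
      refine ⟨p.eval z, hWM hzW, ?_⟩
      rw [hG1 _ hzW, ← h3, hsz]
    · right
      have hmem : s 0 ∈ S := by
        rw [hS, Finset.mem_erase, Multiset.mem_toFinset, Polynomial.mem_roots hp0]
        exact ⟨h2, hroot0⟩
      refine ⟨s 0, hmem, hzW, ?_⟩
      obtain ⟨hc, hp', hs⟩ := hsec _ hmem
      have h3 := lift_unique hWo hWst h0W hWcv hc hsc hp' hsp h0W hs _ hzW
      rw [h3, hsz]
  · intro η hη
    have h2 := hgd 0 (Metric.mem_ball_self one_pos)
    rw [hg0, h1, one_mul] at h2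
    have h3 : HasDerivAt g 1 0 := by
      have := (hg.differentiableAt (Metric.isOpen_ball.mem_nhds (Metric.mem_ball_self (one_pos : (0 : ℝ) < 1)))).hasDerivAt
      rwa [h2] at this
    have h4 := (hasDerivAt_iff_isLittleO.1 h3).def hη
    obtain ⟨δ, hδ, h5⟩ := Metric.eventually_nhds_iff.1 h4
    refine ⟨min δ 1, lt_min hδ one_pos, fun z hz hpz => ?_⟩
    have h6 : p.eval z ∈ Metric.ball (0 : ℂ) 1 := by
      rw [mem_ball_zero_iff]; exact lt_of_lt_of_le hpz (min_le_right _ _)
    have h7 : g (p.eval z) = z := by rw [← hG2 _ h6]; exact (hUG z hz).2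
    have h8 := h5 (y := p.eval z) (by rw [dist_zero_right]; exact lt_of_lt_of_le hpz (min_le_left _ _))
    rw [h7, hg0] at h8
    simp only [sub_zero, smul_eq_mul, mul_one] at h8
    have h9 : ‖z‖ ≤ ‖z - p.eval z‖ + ‖p.eval z‖ := by
      have := norm_add_le (z - p.eval z) (p.eval z)
      rwa [sub_add_cancel] at this
    linarith

end

end Pool.Agent.Hhelper25.Biuni
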