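import Mathlib

/-!
Change of variables for holomorphic maps, slicing of planar integrals.
-/

set_option autoImplicit false

namespace Pool.Agent.Hhelper25.Biuni

open Set Filter Topology MeasureTheory
open scoped ENNReal

noncomputable section

lemma det_restrict (c : ℂ) :
    ((ContinuousLinearMap.toSpanSingleton ℂ c : ℂ →L[ℂ] ℂ).restrictScalars ℝ).det = ‖c‖ ^ 2 := by
  rw [ContinuousLinearMap.det]
  have : (((ContinuousLinearMap.toSpanSingleton ℂ c : ℂ →L[ℂ] ℂ).restrictScalars ℝ : ℂ →L[ℝ] ℂ) : ℂ →ₗ[ℝ] ℂ)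
      = ((ContinuousLinearMap.toSpanSingleton ℂ c : ℂ →L[ℂ] ℂ) : ℂ →ₗ[ℂ] ℂ).restrictScalars ℝ := rfl
  rw [this, LinearMap.det_restrictScalars]
  have h2 : LinearMap.det ((ContinuousLinearMap.toSpanSingleton ℂ c : ℂ →L[ℂ] ℂ) : ℂ →ₗ[ℂ] ℂ) = c := by
    have := ContinuousLinearMap.det_toSpanSingleton (𝕜 := ℂ) c
    exact this
  rw [h2, Algebra.norm_complex_eq]
  simp [Complex.normSq_eq_norm_sq]

/-- change of variables for an injective holomorphic map -/
lemma cov {S : Set ℂ} {f f' : ℂ → ℂ} (hS : MeasurableSet S) (hf : ∀ z ∈ S, HasDerivAt f (f' z) z)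
    (inj : InjOn f S) (g : ℂ → ℝ≥0∞) :
    ∫⁻ w in f '' S, g w = ∫⁻ z in S, ENNReal.ofReal (‖f' z‖ ^ 2) * g (f z) := by
  rw [lintegral_image_eq_lintegral_abs_det_fderiv_mul volume hS
    (fun z hz => ((hf z hz).hasFDerivAt.restrictScalars ℝ).hasFDerivWithinAt) inj g]
  congr 1
  funext z
  rw [det_restrict, abs_of_nonneg (by positivity)]

/-- the horizontal line at height `-x` -/
def ln (x t : ℝ) : ℂ := ⟨t, -x⟩

lemma ln_hasDerivAt (x t : ℝ) : HasDerivAt (ln x) 1 t := by
  have h1 : HasDerivAt (fun t : ℝ => (t : ℂ)) 1 t := Complex.ofRealCLM.hasDerivAt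
  have h2 := h1.sub_const (x * Complex.I)
  have h3 : (fun t : ℝ => (t : ℂ) - x * Complex.I) = ln x := by
    funext t; apply Complex.ext <;> simp [ln]
  rw [h3] at h2
  exact h2

lemma continuous_ln (x : ℝ) : Continuous (ln x) :=
  continuous_iff_continuousAt.2 fun t => (ln_hasDerivAt x t).continuousAt

/-- slicing a planar integral by the lines of constant imaginary part -/
lemma slice {I J : Set ℝ} (hI : MeasurableSet I) (hJ : MeasurableSet J) {F : ℂ → ℝ≥0∞}
    (hF : AEMeasurable F (volume.restrict {ω : ℂ | ω.re ∈ I ∧ ω.im ∈ J})) :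
    ∫⁻ ω in {ω : ℂ | ω.re ∈ I ∧ ω.im ∈ J}, F ω = ∫⁻ y in J, ∫⁻ t in I, F ⟨t, y⟩ := by
  have hS : MeasurableSet {ω : ℂ | ω.re ∈ I ∧ ω.im ∈ J} :=
    (Complex.measurable_re hI).inter (Complex.measurable_im hJ)
  rw [← lintegral_indicator hS]
  set G := ({ω : ℂ | ω.re ∈ I ∧ ω.im ∈ J}).indicator F with hG
  have hGm : AEMeasurable G volume := (aemeasurable_indicator_iff hS).2 hF
  have e := Complex.volume_preserving_equiv_real_prod.symm
  rw [← e.lintegral_comp_emb Complex.measurableEquivRealProd.symm.measurableEmbedding]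
  have hGm' : AEMeasurable (fun p : ℝ × ℝ => G (Complex.measurableEquivRealProd.symm p)) (volume.prod volume) :=
    hGm.comp_quasiMeasurePreserving e.quasiMeasurePreserving
  rw [Measure.volume_eq_prod, lintegral_prod_symm _ hGm', ← lintegral_indicator hJ]
  congr 1
  funext y
  by_cases hy : y ∈ J
  · rw [indicator_of_mem hy, ← lintegral_indicator hI]
    congr 1
    funext t
    by_cases ht : t ∈ I
    · rw [indicator_of_mem ht]
      have : Complex.measurableEquivRealProd.symm (t, y) = (⟨t, y⟩ : ℂ) := rfl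
      rw [this, hG, indicator_of_mem]
      exact ⟨ht, hy⟩
    · rw [indicator_of_notMem ht]
      have : Complex.measurableEquivRealProd.symm (t, y) = (⟨t, y⟩ : ℂ) := rfl
      rw [this, hG, indicator_of_notMem]
      exact fun h => ht h.1
  · rw [indicator_of_notMem hy]
    rw [lintegral_eq_zero_iff' ]
    · filter_upwards with t
      have : Complex.measurableEquivRealProd.symm (t, y) = (⟨t, y⟩ : ℂ) := rfl
      rw [this, hG, indicator_of_notMem]
      · rfl
      · exact fun h => hy h.2
    · have h0 : (fun t : ℝ => G (Complex.measurableEquivRealProd.symm (t, y))) = fun _ => 0 := by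
        funext t
        have : Complex.measurableEquivRealProd.symm (t, y) = (⟨t, y⟩ : ℂ) := rfl
        rw [this, hG, indicator_of_notMem]
        exact fun h => hy h.2
      rw [h0]; exact aemeasurable_const

/-- area of a rectangle -/
lemma volume_rect (I J : Set ℝ) (hI : MeasurableSet I) (hJ : MeasurableSet J) :
    volume {ω : ℂ | ω.re ∈ I ∧ ω.im ∈ J} = volume J * volume I := by
  have h := slice hI hJ (F := fun _ => 1) aemeasurable_const
  rw [setLIntegral_one] at h
  rw [h]
  simp [mul_comm]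

end

end Pool.Agent.Hhelper25.Biuni
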