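import Mathlib
import Pool.Agent.Hhelper25.Biuni.General

/-!
The model map `Ξ(ζ) = ζ + log(1 - Y(ζ)/(m+1))`, `Y(ζ) = exp(m(ζ - c))`, which is
`log (z - a z^(m+1))` in the coordinate `ζ = log z`.
-/

set_option autoImplicit false

namespace Pool.Agent.Hhelper25.Biuni

open Set Filter Topology

noncomputable section

variable (m : ℕ)

/-- `log ((m+1)/m)` -/
def cc : ℝ := Real.log (((m : ℝ) + 1) / m)
/-- `Y(ζ) = exp(m(ζ - c))` -/
def Yf (ζ : ℂ) : ℂ := Complex.exp (m * (ζ - cc m))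
/-- `v(ζ) = 1 - Y/(m+1)` -/
def vf (ζ : ℂ) : ℂ := 1 - Yf m ζ / (m + 1)
/-- the model map -/
def Xi (ζ : ℂ) : ℂ := ζ + Complex.log (vf m ζ)
/-- `|Y|` -/
def RR (ζ : ℂ) : ℝ := Real.exp (m * (ζ.re - cc m))
/-- Chebyshev ratio `sin((m+1)y)/((m+1) sin y)` -/
def kap (y : ℝ) : ℝ := (Polynomial.Chebyshev.U ℝ (m : ℤ)).eval (Real.cos y) / (m + 1)
/-- closed strip -/
def SC : Set ℂ := {ζ | -(Real.pi / m) ≤ ζ.im ∧ ζ.im ≤ 0}
/-- open strip -/
def SO : Set ℂ := {ζ | -(Real.pi / m) < ζ.im ∧ ζ.im < 0}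
/-- main part of the closed strip -/
def QM : Set ℂ := {ζ | ζ ∈ SC m ∧ RR m ζ * kap m ζ.im ≤ 1}
/-- side part of the closed strip -/
def QS : Set ℂ := {ζ | ζ ∈ SC m ∧ 1 ≤ RR m ζ * kap m ζ.im ∧ vf m ζ ≠ 0}

lemma RR_pos (ζ : ℂ) : 0 < RR m ζ := Real.exp_pos _

lemma Yf_re (ζ : ℂ) : (Yf m ζ).re = RR m ζ * Real.cos (m * ζ.im) := by
  unfold Yf RR
  rw [Complex.exp_re]
  simp

lemma Yf_im (ζ : ℂ) : (Yf m ζ).im = RR m ζ * Real.sin (m * ζ.im) := by
  unfold Yf RR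
  rw [Complex.exp_im]
  simp

lemma norm_Yf (ζ : ℂ) : ‖Yf m ζ‖ = RR m ζ := by
  unfold Yf RR
  rw [Complex.norm_exp]
  simp

lemma vf_re (ζ : ℂ) : (vf m ζ).re = 1 - RR m ζ * Real.cos (m * ζ.im) / (m + 1) := by
  unfold vf
  have : Yf m ζ / ((m : ℂ) + 1) = Yf m ζ / ((m + 1 : ℝ) : ℂ) := by push_cast; rfl
  rw [this, Complex.sub_re, Complex.div_ofReal_re, Yf_re]
  simp

lemma vf_im (ζ : ℂ) : (vf m ζ).im = - (RR m ζ * Real.sin (m * ζ.im) / (m + 1)) := by
  unfold vf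
  have : Yf m ζ / ((m : ℂ) + 1) = Yf m ζ / ((m + 1 : ℝ) : ℂ) := by push_cast; rfl
  rw [this, Complex.sub_im, Complex.div_ofReal_im, Yf_im]
  simp

lemma continuous_Yf : Continuous (Yf m) := by unfold Yf; fun_prop
lemma continuous_vf : Continuous (vf m) := by unfold vf; have := continuous_Yf m; fun_prop
lemma continuous_RR : Continuous (RR m) := by
  unfold RR
  have := Complex.continuous_re
  fun_prop
lemma continuous_kap : Continuous (kap m) := by
  unfold kap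
  exact ((Polynomial.continuous _).comp Real.continuous_cos).div_const _

lemma kap_mul (y : ℝ) : kap m y * ((m + 1) * Real.sin y) = Real.sin ((m + 1) * y) := by
  unfold kap
  have := Polynomial.Chebyshev.U_real_cos y (m : ℤ)
  push_cast at this
  rw [← this]
  have h : ((m : ℝ) + 1) ≠ 0 := by positivity
  field_simp

lemma kap_zero : kap m 0 = 1 := by
  unfold kap
  rw [Real.cos_zero]
  have : (Polynomial.Chebyshev.U ℝ (m : ℤ)).eval 1 = (m : ℝ) + 1 := by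
    simp
  rw [this]
  have h : ((m : ℝ) + 1) ≠ 0 := by positivity
  field_simp

lemma kap_top (hm : 1 ≤ m) : kap m (-(Real.pi / m)) < 0 := by
  rcases eq_or_lt_of_le hm with h | h
  · subst h
    unfold kap
    simp [Real.cos_pi]
    norm_num
  · have hm0 : (0 : ℝ) < m := by positivity
    have hm2 : (2 : ℝ) ≤ m := by exact_mod_cast h
    have h1 := kap_mul m (-(Real.pi / m))
    have h2 : 0 < Real.sin (Real.pi / m) := by
      apply Real.sin_pos_of_pos_of_lt_pi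
      · positivity
      · rw [div_lt_iff₀ hm0]; nlinarith [Real.pi_pos]
    have h3 : ((m : ℝ) + 1) * (-(Real.pi / m)) = -(Real.pi / m) - Real.pi := by field_simp; ring
    rw [h3, Real.sin_sub_pi, Real.sin_neg, neg_neg] at h1
    by_contra hcon
    push Not at hcon
    have : kap m (-(Real.pi / m)) * ((m + 1) * -Real.sin (Real.pi / m)) ≤ 0 := by
      apply mul_nonpos_of_nonneg_of_nonpos hcon
      have : 0 < ((m : ℝ) + 1) * Real.sin (Real.pi / m) := by positivity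
      linarith
    linarith

lemma SO_subset : SO m ⊆ SC m := fun _ h => ⟨h.1.le, h.2.le⟩

lemma isOpen_SO : IsOpen (SO m) :=
  (isOpen_lt continuous_const Complex.continuous_im).inter (isOpen_lt Complex.continuous_im continuous_const)

lemma isClosed_SC : IsClosed (SC m) :=
  (isClosed_le continuous_const Complex.continuous_im).inter
    (isClosed_le Complex.continuous_im continuous_const)

lemma isClosed_QM : IsClosed (QM m) := by
  apply (isClosed_SC m).inter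
  exact isClosed_le ((continuous_RR m).mul ((continuous_kap m).comp Complex.continuous_im)) continuous_const

variable {m}

lemma mul_im_mem (hm : 1 ≤ m) {ζ : ℂ} (h : ζ ∈ SC m) : -Real.pi ≤ m * ζ.im ∧ m * ζ.im ≤ 0 := by
  have hm0 : (0 : ℝ) < m := by positivity
  constructor
  · have := mul_le_mul_of_nonneg_left h.1 hm0.le
    have h2 : (m : ℝ) * -(Real.pi / m) = -Real.pi := by field_simp
    linarith
  · exact mul_nonpos_of_nonneg_of_nonpos hm0.le h.2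

lemma mul_im_mem' (hm : 1 ≤ m) {ζ : ℂ} (h : ζ ∈ SO m) : -Real.pi < m * ζ.im ∧ m * ζ.im < 0 := by
  have hm0 : (0 : ℝ) < m := by positivity
  constructor
  · have := mul_lt_mul_of_pos_left h.1 hm0
    have h2 : (m : ℝ) * -(Real.pi / m) = -Real.pi := by field_simp
    linarith
  · exact mul_neg_of_pos_of_neg hm0 h.2

lemma im_ge (hm : 1 ≤ m) {ζ : ℂ} (h : ζ ∈ SO m) : -Real.pi < ζ.im := by
  have hm1 : (1 : ℝ) ≤ m := by exact_mod_cast hm
  have h1 := (mul_im_mem' hm h).1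
  have h2 := h.2
  nlinarith

lemma vf_im_nonneg (hm : 1 ≤ m) {ζ : ℂ} (h : ζ ∈ SC m) : 0 ≤ (vf m ζ).im := by
  rw [vf_im]
  have h1 := mul_im_mem hm h
  have h2 := Real.sin_nonpos_of_nonpos_of_neg_pi_le h1.2 h1.1
  have h3 : RR m ζ * Real.sin (m * ζ.im) / (m + 1) ≤ 0 :=
    div_nonpos_of_nonpos_of_nonneg (mul_nonpos_of_nonneg_of_nonpos (RR_pos m ζ).le h2) (by positivity)
  linarith

lemma vf_im_pos (hm : 1 ≤ m) {ζ : ℂ} (h : ζ ∈ SO m) : 0 < (vf m ζ).im := by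
  rw [vf_im]
  have h1 := mul_im_mem' hm h
  have h2 := Real.sin_neg_of_neg_of_neg_pi_lt h1.2 h1.1
  have h3 : RR m ζ * Real.sin (m * ζ.im) / (m + 1) < 0 :=
    div_neg_of_neg_of_pos (mul_neg_of_pos_of_neg (RR_pos m ζ) h2) (by positivity)
  linarith

lemma vf_ne_zero (hm : 1 ≤ m) {ζ : ℂ} (h : ζ ∈ SO m) : vf m ζ ≠ 0 := by
  intro h0
  have := vf_im_pos hm h
  rw [h0] at this
  simp at this

lemma vf_slit (hm : 1 ≤ m) {ζ : ℂ} (h : ζ ∈ SO m) : vf m ζ ∈ Complex.slitPlane :=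
  Or.inr (vf_im_pos hm h).ne'

/-- the derivative of the model map -/
def dXi (m : ℕ) (ζ : ℂ) : ℂ := (1 - Yf m ζ) / vf m ζ

lemma hasStrictDerivAt_Yf (ζ : ℂ) : HasStrictDerivAt (Yf m) (m * Yf m ζ) ζ := by
  unfold Yf
  have h1 : HasStrictDerivAt (fun ζ : ℂ => (m : ℂ) * (ζ - cc m)) m ζ := by
    have := HasStrictDerivAt.const_mul (m : ℂ) ((hasStrictDerivAt_id ζ).sub_const (cc m : ℂ))
    simpa using this
  have := h1.cexp
  rw [mul_comm] at this
  exact this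

lemma hasStrictDerivAt_vf (ζ : ℂ) : HasStrictDerivAt (vf m) (-(m * Yf m ζ / (m + 1))) ζ := by
  unfold vf
  exact ((hasStrictDerivAt_Yf ζ).div_const _).const_sub 1

lemma hasStrictDerivAt_Xi {ζ : ℂ} (h : vf m ζ ∈ Complex.slitPlane) :
    HasStrictDerivAt (Xi m) (dXi m ζ) ζ := by
  have h0 : vf m ζ ≠ 0 := Complex.slitPlane_ne_zero h
  have h1 := (hasStrictDerivAt_id ζ).add ((hasStrictDerivAt_vf ζ).clog h)
  have h2 : 1 + -(m * Yf m ζ / (m + 1)) / vf m ζ = dXi m ζ := by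
    unfold dXi
    have hm1 : (m : ℂ) + 1 ≠ 0 := by exact_mod_cast Nat.succ_ne_zero m
    have h3 : vf m ζ * (m + 1) = (m + 1) - Yf m ζ := by unfold vf; field_simp
    field_simp
    rw [mul_comm (m + 1 : ℂ) (vf m ζ), h3]
    ring
  rw [← h2]
  exact h1

lemma hasDerivAt_Xi {ζ : ℂ} (h : vf m ζ ∈ Complex.slitPlane) :
    HasDerivAt (Xi m) (dXi m ζ) ζ := (hasStrictDerivAt_Xi h).hasDerivAt

lemma dXi_eq {ζ : ℂ} (h0 : vf m ζ ≠ 0) : dXi m ζ = (m + 1) - m / vf m ζ := by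
  unfold dXi
  have hm1 : (m : ℂ) + 1 ≠ 0 := by exact_mod_cast Nat.succ_ne_zero m
  have h3 : vf m ζ * (m + 1 : ℂ) = (m + 1) - Yf m ζ := by unfold vf; field_simp
  field_simp
  rw [h3]; ring

lemma dXi_im_pos (hm : 1 ≤ m) {ζ : ℂ} (h : ζ ∈ SO m) : 0 < (dXi m ζ).im := by
  have hv := vf_im_pos hm h
  have h0 := vf_ne_zero hm h
  have hm0 : (0 : ℝ) < m := by positivity
  rw [dXi_eq h0]
  have h1 : ((m : ℂ) + 1 - m / vf m ζ).im = m * ((vf m ζ).im / Complex.normSq (vf m ζ)) := by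
    rw [div_eq_mul_inv]
    simp [Complex.inv_im]
    ring
  rw [h1]
  have : 0 < Complex.normSq (vf m ζ) := Complex.normSq_pos.2 h0
  positivity

lemma dXi_ne_zero (hm : 1 ≤ m) {ζ : ℂ} (h : ζ ∈ SO m) : dXi m ζ ≠ 0 := by
  intro h0
  have := dXi_im_pos hm h
  rw [h0] at this
  simp at this

lemma continuousOn_log_upper : ContinuousOn Complex.log {z : ℂ | 0 ≤ z.im ∧ z ≠ 0} := by
  intro z hz
  by_cases h : z ∈ Complex.slitPlane
  · exact (continuousAt_clog h).continuousWithinAt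
  · have h1 : z.re ≤ 0 ∧ z.im = 0 := by
      rw [Complex.mem_slitPlane_iff] at h
      push Not at h
      exact h
    have h2 : z.re < 0 := by
      rcases lt_or_eq_of_le h1.1 with h2 | h2
      · exact h2
      · exact absurd (Complex.ext h2 h1.2) hz.2
    exact (Complex.continuousWithinAt_log_of_re_neg_of_im_zero h2 h1.2).mono (fun w hw => hw.1)

lemma continuousOn_Xi (hm : 1 ≤ m) : ContinuousOn (Xi m) {ζ | ζ ∈ SC m ∧ vf m ζ ≠ 0} := by
  unfold Xi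
  apply continuousOn_id.add
  apply continuousOn_log_upper.comp (continuous_vf m).continuousOn
  intro ζ hζ
  exact ⟨vf_im_nonneg hm hζ.1, hζ.2⟩

lemma Xi_re {ζ : ℂ} : (Xi m ζ).re = ζ.re + Real.log ‖vf m ζ‖ := by
  unfold Xi; simp [Complex.log_re]

lemma Xi_im {ζ : ℂ} : (Xi m ζ).im = ζ.im + (vf m ζ).arg := by
  unfold Xi; simp [Complex.log_im]

/-- the key trigonometric identity -/
lemma sin_Xi_im {ζ : ℂ} (h0 : vf m ζ ≠ 0) :
    Real.sin (Xi m ζ).im * ‖vf m ζ‖ = Real.sin ζ.im * (1 - RR m ζ * kap m ζ.im) := by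
  rw [Xi_im, Real.sin_add, Complex.cos_arg h0, Complex.sin_arg]
  have hn : ‖vf m ζ‖ ≠ 0 := norm_ne_zero_iff.2 h0
  have h1 : (Real.sin ζ.im * ((vf m ζ).re / ‖vf m ζ‖) + Real.cos ζ.im * ((vf m ζ).im / ‖vf m ζ‖)) * ‖vf m ζ‖
      = Real.sin ζ.im * (vf m ζ).re + Real.cos ζ.im * (vf m ζ).im := by
    field_simp
  rw [h1, vf_re, vf_im]
  have h2 := kap_mul m ζ.im
  have h3 : Real.sin ((m + 1) * ζ.im) = Real.sin (m * ζ.im) * Real.cos ζ.im + Real.cos (m * ζ.im) * Real.sin ζ.im := by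
    rw [add_mul, one_mul, Real.sin_add]
  rw [h3] at h2
  have hm1 : (m : ℝ) + 1 ≠ 0 := by positivity
  have h4 : Real.sin ζ.im * (RR m ζ * kap m ζ.im) = RR m ζ * (Real.sin (m * ζ.im) * Real.cos ζ.im + Real.cos (m * ζ.im) * Real.sin ζ.im) / (m + 1) := by
    rw [← h2]; field_simp
  rw [mul_sub (Real.sin ζ.im) 1 (RR m ζ * kap m ζ.im), h4]
  field_simp
  ring

lemma Xi_im_mem (hm : 1 ≤ m) {ζ : ℂ} (h : ζ ∈ SO m) : -(Real.pi / m) < (Xi m ζ).im ∧ (Xi m ζ).im < Real.pi := by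
  rw [Xi_im]
  have h1 := vf_im_pos hm h
  have h2 : 0 ≤ (vf m ζ).arg := Complex.arg_nonneg_iff.2 h1.le
  have h3 : (vf m ζ).arg ≤ Real.pi := Complex.arg_le_pi _
  exact ⟨by linarith [h.1], by linarith [h.2]⟩

lemma Xi_im_sign (hm : 1 ≤ m) {ζ : ℂ} (h : ζ ∈ SO m) :
    ((Xi m ζ).im < 0 ↔ RR m ζ * kap m ζ.im < 1) ∧ ((Xi m ζ).im = 0 ↔ RR m ζ * kap m ζ.im = 1) ∧
      (0 < (Xi m ζ).im ↔ 1 < RR m ζ * kap m ζ.im) := by
  have h0 := vf_ne_zero hm h
  have hn : 0 < ‖vf m ζ‖ := norm_pos_iff.2 h0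
  have hsin := sin_Xi_im h0
  have hs : Real.sin ζ.im < 0 := Real.sin_neg_of_neg_of_neg_pi_lt h.2 (im_ge hm h)
  have hr := Xi_im_mem hm h
  have hpim : Real.pi / m ≤ Real.pi := div_le_self Real.pi_pos.le (by exact_mod_cast hm)
  rcases lt_trichotomy (Xi m ζ).im 0 with h1 | h1 | h1
  · have h2 : Real.sin (Xi m ζ).im < 0 := Real.sin_neg_of_neg_of_neg_pi_lt h1 (by linarith [hr.1])
    have h3 : Real.sin (Xi m ζ).im * ‖vf m ζ‖ < 0 := mul_neg_of_neg_of_pos h2 hn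
    rw [hsin] at h3
    have h4 : 0 < 1 - RR m ζ * kap m ζ.im := by
      by_contra hcon
      push Not at hcon
      nlinarith [mul_nonneg_of_nonpos_of_nonpos hs.le hcon]
    refine ⟨⟨fun _ => by linarith, fun _ => h1⟩, ⟨fun h => by linarith, fun h => by linarith⟩,
      ⟨fun h => by linarith, fun h => by linarith⟩⟩
  · have h3 : Real.sin ζ.im * (1 - RR m ζ * kap m ζ.im) = 0 := by
      rw [← hsin, h1]; simp
    have h4 : 1 - RR m ζ * kap m ζ.im = 0 := (mul_eq_zero.1 h3).resolve_left hs.ne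
    refine ⟨⟨fun h => by linarith, fun h => by linarith⟩, ⟨fun h => by linarith, fun h => h1⟩,
      ⟨fun h => by linarith, fun h => by linarith⟩⟩
  · have h2 : 0 < Real.sin (Xi m ζ).im := Real.sin_pos_of_pos_of_lt_pi h1 hr.2
    have h3 : 0 < Real.sin (Xi m ζ).im * ‖vf m ζ‖ := mul_pos h2 hn
    rw [hsin] at h3
    have h4 : 1 - RR m ζ * kap m ζ.im < 0 := by
      by_contra hcon
      push Not at hcon
      nlinarith [mul_nonpos_of_nonpos_of_nonneg hs.le hcon]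
    refine ⟨⟨fun h => by linarith, fun h => by linarith⟩, ⟨fun h => by linarith, fun h => by linarith⟩,
      ⟨fun h => by linarith, fun h => h1⟩⟩

end

end Pool.Agent.Hhelper25.Biuni
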