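import Mathlib
import Pool.Agent.Hhelper25.Biuni.Model

/-!
Properness, injectivity and surjectivity of the model map on the two closed pieces `QM`, `QS`.
-/

set_option autoImplicit false

namespace Pool.Agent.Hhelper25.Biuni

open Set Filter Topology

noncomputable section

variable {m : ℕ}

lemma SC_cases {ζ : ℂ} (h : ζ ∈ SC m) : ζ.im = 0 ∨ ζ.im = -(Real.pi / m) ∨ ζ ∈ SO m := by
  rcases lt_or_eq_of_le h.2 with h1 | h1
  · rcases lt_or_eq_of_le h.1 with h2 | h2
    · exact Or.inr (Or.inr ⟨h2, h1⟩)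
    · exact Or.inr (Or.inl h2.symm)
  · exact Or.inl h1

lemma vf_bot {ζ : ℂ} (h : ζ.im = 0) : vf m ζ = ((1 - RR m ζ / (m + 1) : ℝ) : ℂ) := by
  apply Complex.ext
  · rw [vf_re, h, Complex.ofReal_re]; simp
  · rw [vf_im, h, Complex.ofReal_im]; simp

lemma vf_top (hm : 1 ≤ m) {ζ : ℂ} (h : ζ.im = -(Real.pi / m)) :
    vf m ζ = ((1 + RR m ζ / (m + 1) : ℝ) : ℂ) := by
  have hm0 : (0 : ℝ) < m := by positivity
  have h1 : (m : ℝ) * ζ.im = -Real.pi := by rw [h]; field_simp
  apply Complex.ext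
  · rw [vf_re, h1, Real.cos_neg, Real.cos_pi, Complex.ofReal_re]; ring
  · rw [vf_im, h1, Real.sin_neg, Real.sin_pi, Complex.ofReal_im]; simp

lemma QM_slit (hm : 1 ≤ m) {ζ : ℂ} (h : ζ ∈ QM m) : vf m ζ ∈ Complex.slitPlane := by
  have hm1 : (1 : ℝ) ≤ m := by exact_mod_cast hm
  rcases SC_cases h.1 with h1 | h1 | h1
  · rw [vf_bot h1]
    have h2 := h.2
    rw [h1, kap_zero, mul_one] at h2
    left
    rw [Complex.ofReal_re]
    have : RR m ζ / (m + 1) < 1 := by
      rw [div_lt_one (by positivity)]; linarith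
    linarith
  · rw [vf_top hm h1]
    left
    rw [Complex.ofReal_re]
    have := RR_pos m ζ
    positivity
  · exact vf_slit hm h1

lemma QM_im (hm : 1 ≤ m) {ζ : ℂ} (h : ζ ∈ QM m) : -(Real.pi / m) ≤ (Xi m ζ).im ∧ (Xi m ζ).im ≤ 0 := by
  have hm1 : (1 : ℝ) ≤ m := by exact_mod_cast hm
  rcases SC_cases h.1 with h1 | h1 | h1
  · have h3 : (vf m ζ).arg = 0 := by
      have h2 := QM_slit hm h
      rw [vf_bot h1] at h2 ⊢
      rw [Complex.ofReal_mem_slitPlane] at h2
      exact Complex.arg_ofReal_of_nonneg h2.le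
    rw [Xi_im, h3, h1]
    have : 0 ≤ Real.pi / m := by positivity
    constructor <;> linarith
  · have h3 : (vf m ζ).arg = 0 := by
      rw [vf_top hm h1]
      exact Complex.arg_ofReal_of_nonneg (by have := RR_pos m ζ; positivity)
    rw [Xi_im, h3, h1]
    have : 0 ≤ Real.pi / m := by positivity
    constructor <;> linarith
  · refine ⟨(Xi_im_mem hm h1).1.le, ?_⟩
    by_contra hcon
    push Not at hcon
    have := (Xi_im_sign hm h1).2.2.1 hcon
    linarith [h.2]

lemma QM_interior (hm : 1 ≤ m) {ζ : ℂ} (h : ζ ∈ QM m) (h1 : -(Real.pi / m) < (Xi m ζ).im)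
    (h2 : (Xi m ζ).im < 0) : ζ ∈ SO m ∧ RR m ζ * kap m ζ.im < 1 := by
  rcases SC_cases h.1 with h3 | h3 | h3
  · exfalso
    have h4 : (vf m ζ).arg = 0 := by
      have h2 := QM_slit hm h
      rw [vf_bot h3] at h2 ⊢
      rw [Complex.ofReal_mem_slitPlane] at h2
      exact Complex.arg_ofReal_of_nonneg h2.le
    rw [Xi_im, h4, h3] at h2
    linarith
  · exfalso
    have h4 : (vf m ζ).arg = 0 := by
      rw [vf_top hm h3]
      exact Complex.arg_ofReal_of_nonneg (by have := RR_pos m ζ; positivity)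
    rw [Xi_im, h4, h3] at h1
    linarith
  · exact ⟨h3, (Xi_im_sign hm h3).1.1 h2⟩

lemma QS_not_top (hm : 1 ≤ m) {ζ : ℂ} (h : ζ ∈ QS m) : ζ.im ≠ -(Real.pi / m) := by
  intro h1
  have h2 := h.2.1
  rw [h1] at h2
  have := mul_neg_of_pos_of_neg (RR_pos m ζ) (kap_top m hm)
  linarith

lemma QS_im (hm : 1 ≤ m) {ζ : ℂ} (h : ζ ∈ QS m) : 0 ≤ (Xi m ζ).im ∧ (Xi m ζ).im ≤ Real.pi := by
  rcases SC_cases h.1 with h1 | h1 | h1
  · rw [Xi_im, h1, zero_add]
    exact ⟨Complex.arg_nonneg_iff.2 (vf_im_nonneg hm h.1), Complex.arg_le_pi _⟩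
  · exact absurd h1 (QS_not_top hm h)
  · refine ⟨?_, (Xi_im_mem hm h1).2.le⟩
    by_contra hcon
    push Not at hcon
    have := (Xi_im_sign hm h1).1.1 hcon
    linarith [h.2.1]

lemma QS_interior (hm : 1 ≤ m) {ζ : ℂ} (h : ζ ∈ QS m) (h1 : 0 < (Xi m ζ).im)
    (h2 : (Xi m ζ).im < Real.pi) : ζ ∈ SO m ∧ 1 < RR m ζ * kap m ζ.im := by
  rcases SC_cases h.1 with h3 | h3 | h3
  · exfalso
    rw [Xi_im, h3, zero_add] at h1 h2
    rw [vf_bot h3] at h1 h2
    rcases le_or_gt 0 (1 - RR m ζ / (m + 1)) with h4 | h4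
    · rw [Complex.arg_ofReal_of_nonneg h4] at h1; exact lt_irrefl _ h1
    · rw [Complex.arg_ofReal_of_neg h4] at h2; exact lt_irrefl _ h2
  · exact absurd h3 (QS_not_top hm h)
  · exact ⟨h3, (Xi_im_sign hm h3).2.2.1 h1⟩

lemma norm_vf_le (ζ : ℂ) : ‖vf m ζ‖ ≤ 1 + RR m ζ / (m + 1) := by
  unfold vf
  refine (norm_sub_le _ _).trans ?_
  rw [norm_div, norm_Yf, norm_one]
  have : ‖((m : ℂ) + 1)‖ = (m : ℝ) + 1 := by
    rw [show ((m : ℂ) + 1) = ((m + 1 : ℝ) : ℂ) by push_cast; rfl, Complex.norm_real, Real.norm_eq_abs,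
      abs_of_pos (by positivity)]
  rw [this]

lemma le_norm_vf (ζ : ℂ) : RR m ζ / (m + 1) - 1 ≤ ‖vf m ζ‖ := by
  unfold vf
  have h1 := norm_sub_norm_le (Yf m ζ / (m + 1)) 1
  rw [norm_sub_rev, norm_div, norm_Yf, norm_one] at h1
  have : ‖((m : ℂ) + 1)‖ = (m : ℝ) + 1 := by
    rw [show ((m : ℂ) + 1) = ((m + 1 : ℝ) : ℂ) by push_cast; rfl, Complex.norm_real, Real.norm_eq_abs,
      abs_of_pos (by positivity)]
  rw [this] at h1
  exact h1

lemma proper_Xi (hm : 1 ≤ m) (K : Set ℂ) (hK : IsCompact K) :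
    IsCompact {ζ | (ζ ∈ SC m ∧ vf m ζ ≠ 0) ∧ Xi m ζ ∈ K} := by
  have hm0 : (0 : ℝ) < m := by positivity
  obtain ⟨C, hC⟩ := hK.isBounded.exists_norm_le
  have hC' : ∀ w ∈ K, |w.re| ≤ C := fun w hw => (Complex.abs_re_le_norm w).trans (hC w hw)
  set Bl := min (cc m) (-C - Real.log 2) with hBl
  set Bh := max (cc m + Real.log (2 * (m + 1)) / m) C with hBh
  set δ := Real.exp (-C - Bh) with hδ
  have hbound : ∀ ζ : ℂ, ζ ∈ SC m → vf m ζ ≠ 0 → Xi m ζ ∈ K → Bl ≤ ζ.re ∧ ζ.re ≤ Bh ∧ δ ≤ ‖vf m ζ‖ := by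
    intro ζ h1 h2 h3
    have hn : 0 < ‖vf m ζ‖ := norm_pos_iff.2 h2
    have h4 := abs_le.1 (hC' _ h3)
    rw [Xi_re] at h4
    have hlo : Bl ≤ ζ.re := by
      rcases le_or_gt (cc m) ζ.re with h5 | h5
      · exact (min_le_left _ _).trans h5
      · have h6 : RR m ζ ≤ 1 := by
          unfold RR
          rw [Real.exp_le_one_iff]
          exact mul_nonpos_of_nonneg_of_nonpos hm0.le (by linarith)
        have h7 : ‖vf m ζ‖ ≤ 2 := by
          refine (norm_vf_le ζ).trans ?_
          have : RR m ζ / (m + 1) ≤ 1 := by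
            rw [div_le_one (by positivity)]; linarith
          linarith
        have h8 : Real.log ‖vf m ζ‖ ≤ Real.log 2 := Real.log_le_log hn h7
        exact (min_le_right _ _).trans (by linarith [h4.1])
    have hhi : ζ.re ≤ Bh := by
      rcases le_or_gt ζ.re (cc m + Real.log (2 * (m + 1)) / m) with h5 | h5
      · exact h5.trans (le_max_left _ _)
      · have h6 : 2 * ((m : ℝ) + 1) ≤ RR m ζ := by
          unfold RR
          rw [← Real.log_le_iff_le_exp (by positivity)]
          have : Real.log (2 * (m + 1)) / m < ζ.re - cc m := by linarith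
          rw [div_lt_iff₀ hm0] at this
          linarith
        have h7 : 1 ≤ ‖vf m ζ‖ := by
          refine le_trans ?_ (le_norm_vf ζ)
          have : 2 ≤ RR m ζ / (m + 1) := by rw [le_div_iff₀ (by positivity)]; exact h6
          linarith
        have h8 : 0 ≤ Real.log ‖vf m ζ‖ := Real.log_nonneg h7
        exact le_trans (by linarith [h4.2]) (le_max_right _ _)
    refine ⟨hlo, hhi, ?_⟩
    rw [hδ, ← Real.le_log_iff_exp_le hn]
    linarith [h4.1]
  have hset : {ζ | (ζ ∈ SC m ∧ vf m ζ ≠ 0) ∧ Xi m ζ ∈ K} = {ζ | ζ ∈ SC m ∧ δ ≤ ‖vf m ζ‖} ∩ Xi m ⁻¹' K := by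
    ext ζ
    constructor
    · rintro ⟨⟨h1, h2⟩, h3⟩
      exact ⟨⟨h1, (hbound ζ h1 h2 h3).2.2⟩, h3⟩
    · rintro ⟨⟨h1, h2⟩, h3⟩
      exact ⟨⟨h1, norm_pos_iff.1 (lt_of_lt_of_le (Real.exp_pos _) h2)⟩, h3⟩
  have hclosed : IsClosed ({ζ | ζ ∈ SC m ∧ δ ≤ ‖vf m ζ‖} ∩ Xi m ⁻¹' K) := by
    apply ContinuousOn.preimage_isClosed_of_isClosed _ _ hK.isClosed
    · exact (continuousOn_Xi hm).mono (fun ζ h => ⟨h.1, norm_pos_iff.1 (lt_of_lt_of_le (Real.exp_pos _) h.2)⟩)
    · exact (isClosed_SC m).inter (isClosed_le continuous_const (continuous_vf m).norm)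
  rw [hset]
  refine IsCompact.of_isClosed_subset ((isCompact_Icc (a := Bl) (b := Bh)).reProdIm
    (isCompact_Icc (a := -(Real.pi / m)) (b := 0))) hclosed ?_
  rw [← hset]
  rintro ζ ⟨⟨h1, h2⟩, h3⟩
  have h4 := hbound ζ h1 h2 h3
  rw [Complex.mem_reProdIm]
  exact ⟨⟨h4.1, h4.2.1⟩, h1⟩

lemma QM_sub (hm : 1 ≤ m) : QM m ⊆ {ζ | ζ ∈ SC m ∧ vf m ζ ≠ 0} :=
  fun _ h => ⟨h.1, Complex.slitPlane_ne_zero (QM_slit hm h)⟩

lemma QS_sub : QS m ⊆ {ζ | ζ ∈ SC m ∧ vf m ζ ≠ 0} := fun _ h => ⟨h.1, h.2.2⟩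

lemma proper_QM (hm : 1 ≤ m) (K : Set ℂ) (hK : IsCompact K) : IsCompact {ζ ∈ QM m | Xi m ζ ∈ K} := by
  have h1 := (proper_Xi hm K hK).inter_right (isClosed_QM m)
  convert h1 using 1
  ext ζ
  constructor
  · rintro ⟨h2, h3⟩; exact ⟨⟨QM_sub hm h2, h3⟩, h2⟩
  · rintro ⟨h2, h3⟩; exact ⟨h3, h2.2⟩

lemma proper_QS (hm : 1 ≤ m) (K : Set ℂ) (hK : IsCompact K) : IsCompact {ζ ∈ QS m | Xi m ζ ∈ K} := by
  have hcl : IsClosed {ζ : ℂ | 1 ≤ RR m ζ * kap m ζ.im} :=
    isClosed_le continuous_const ((continuous_RR m).mul ((continuous_kap m).comp Complex.continuous_im))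
  have h1 := (proper_Xi hm K hK).inter_right hcl
  convert h1 using 1
  ext ζ
  constructor
  · rintro ⟨h2, h3⟩; exact ⟨⟨⟨h2.1, h2.2.2⟩, h3⟩, h2.2.1⟩
  · rintro ⟨⟨⟨h2, h3⟩, h4⟩, h5⟩; exact ⟨⟨h2, h5, h3⟩, h4⟩

lemma openSegment_SO {a b : ℂ} (ha : a ∈ SC m) (hb : b ∈ SC m)
    (h0 : ¬ (a.im = 0 ∧ b.im = 0)) (h1 : ¬ (a.im = -(Real.pi / m) ∧ b.im = -(Real.pi / m))) :
    openSegment ℝ a b ⊆ SO m := by
  rintro z ⟨s, t, hs, ht, hst, rfl⟩
  have him : (s • a + t • b).im = s * a.im + t * b.im := by simp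
  have hsum : s * -(Real.pi / m) + t * -(Real.pi / m) = -(Real.pi / m) := by
    rw [← add_mul, hst, one_mul]
  constructor
  · rw [him]
    rcases lt_or_eq_of_le ha.1 with h2 | h2
    · nlinarith [mul_lt_mul_of_pos_left h2 hs, mul_le_mul_of_nonneg_left hb.1 ht.le]
    · rcases lt_or_eq_of_le hb.1 with h3 | h3
      · nlinarith [mul_le_mul_of_nonneg_left ha.1 hs.le, mul_lt_mul_of_pos_left h3 ht]
      · exact absurd ⟨h2.symm, h3.symm⟩ h1
  · rw [him]
    rcases lt_or_eq_of_le ha.2 with h2 | h2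
    · nlinarith [mul_neg_of_pos_of_neg hs h2, mul_nonpos_of_nonneg_of_nonpos ht.le hb.2]
    · rcases lt_or_eq_of_le hb.2 with h3 | h3
      · nlinarith [mul_nonpos_of_nonneg_of_nonpos hs.le ha.2, mul_neg_of_pos_of_neg ht h3]
      · exact absurd ⟨h2, h3⟩ h0

lemma Xi_ne (hm : 1 ≤ m) {a b : ℂ} (hab : a ≠ b) (ha : a ∈ SC m) (hb : b ∈ SC m)
    (hva : vf m a ≠ 0) (hvb : vf m b ≠ 0)
    (h0 : ¬ (a.im = 0 ∧ b.im = 0)) (h1 : ¬ (a.im = -(Real.pi / m) ∧ b.im = -(Real.pi / m))) :
    Xi m a ≠ Xi m b := by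
  have hseg := openSegment_SO ha hb h0 h1
  apply ne_of_deriv_halfplane (Xi m) a b (-Complex.I) hab
  · apply (continuousOn_Xi hm).mono
    rw [← insert_endpoints_openSegment]
    rintro z (rfl | rfl | hz)
    · exact ⟨ha, hva⟩
    · exact ⟨hb, hvb⟩
    · exact ⟨SO_subset m (hseg hz), vf_ne_zero hm (hseg hz)⟩
  · intro z hz
    refine ⟨dXi m z, hasDerivAt_Xi (vf_slit hm (hseg hz)), ?_⟩
    have := dXi_im_pos hm (hseg hz)
    simpa using this

lemma Yf_bot {ζ : ℂ} (h : ζ.im = 0) : Yf m ζ = (RR m ζ : ℂ) := by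
  apply Complex.ext
  · rw [Yf_re, h]; simp
  · rw [Yf_im, h]; simp

lemma Yf_top (hm : 1 ≤ m) {ζ : ℂ} (h : ζ.im = -(Real.pi / m)) : Yf m ζ = (-RR m ζ : ℝ) := by
  have hm0 : (0 : ℝ) < m := by positivity
  have h1 : (m : ℝ) * ζ.im = -Real.pi := by rw [h]; field_simp
  apply Complex.ext
  · rw [Yf_re, h1, Real.cos_neg, Real.cos_pi, Complex.ofReal_re]; ring
  · rw [Yf_im, h1, Real.sin_neg, Real.sin_pi, Complex.ofReal_im]; simp

lemma dXi_bot {ζ : ℂ} (h : ζ.im = 0) : dXi m ζ = (((1 - RR m ζ) / (1 - RR m ζ / (m + 1)) : ℝ) : ℂ) := by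
  unfold dXi
  rw [Yf_bot h, vf_bot h]; push_cast; ring

lemma dXi_top (hm : 1 ≤ m) {ζ : ℂ} (h : ζ.im = -(Real.pi / m)) :
    dXi m ζ = (((1 + RR m ζ) / (1 + RR m ζ / (m + 1)) : ℝ) : ℂ) := by
  unfold dXi
  rw [Yf_top hm h, vf_top hm h]; push_cast; ring

lemma RR_lt_iff (hm : 1 ≤ m) {a b : ℂ} : RR m a < RR m b ↔ a.re < b.re := by
  have hm0 : (0 : ℝ) < m := by positivity
  unfold RR
  rw [Real.exp_lt_exp]
  constructor
  · intro h
    have := lt_of_mul_lt_mul_left h hm0.le
    linarith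
  · intro h
    exact mul_lt_mul_of_pos_left (by linarith) hm0

lemma RR_le_iff (hm : 1 ≤ m) {a b : ℂ} : RR m a ≤ RR m b ↔ a.re ≤ b.re := by
  rw [← not_lt, ← not_lt, RR_lt_iff hm]

/-- a point of the open segment between two points of equal height -/
lemma openSegment_re {a b : ℂ} (hre : a.re < b.re) {z : ℂ}
    (hz : z ∈ openSegment ℝ a b) : a.re < z.re ∧ z.re < b.re := by
  obtain ⟨s, t, hs, ht, hst, rfl⟩ := hz
  have h1 : (s • a + t • b).re = s * a.re + t * b.re := by simp
  rw [h1]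
  have hs1 : s = 1 - t := by linarith
  constructor
  · subst hs1; nlinarith [mul_pos ht (sub_pos.2 hre)]
  · have ht1 : t = 1 - s := by linarith
    rw [ht1]; nlinarith [mul_pos hs (sub_pos.2 hre)]

lemma openSegment_im {a b : ℂ} {y : ℝ} (ha : a.im = y) (hb : b.im = y) {z : ℂ}
    (hz : z ∈ openSegment ℝ a b) : z.im = y := by
  obtain ⟨s, t, hs, ht, hst, rfl⟩ := hz
  have h1 : (s • a + t • b).im = s * a.im + t * b.im := by simp
  rw [h1, ha, hb, ← add_mul, hst, one_mul]

lemma segment_cases {a b z : ℂ} (hz : z ∈ segment ℝ a b) : z = a ∨ z = b ∨ z ∈ openSegment ℝ a b := by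
  rw [← insert_endpoints_openSegment] at hz
  rcases hz with h | h | h
  · exact Or.inl h
  · exact Or.inr (Or.inl h)
  · exact Or.inr (Or.inr h)

lemma re_lt_or_of_im_eq {a b : ℂ} (hab : a ≠ b) (him : a.im = b.im) : a.re < b.re ∨ b.re < a.re := by
  rcases lt_trichotomy a.re b.re with h | h | h
  · exact Or.inl h
  · exact absurd (Complex.ext h him) hab
  · exact Or.inr h

lemma injOn_QM (hm : 1 ≤ m) : InjOn (Xi m) (QM m) := by
  have hm1 : (1 : ℝ) ≤ m := by exact_mod_cast hm
  -- both on the bottom edge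
  have hbot : ∀ a b : ℂ, a ∈ QM m → b ∈ QM m → a.im = 0 → b.im = 0 → a.re < b.re → Xi m a ≠ Xi m b := by
    intro a b ha hb ha0 hb0 hre
    have hRb : RR m b ≤ 1 := by have := hb.2; rwa [hb0, kap_zero, mul_one] at this
    apply ne_of_deriv_halfplane (Xi m) a b 1 (fun h => by rw [h] at hre; exact lt_irrefl _ hre)
    · apply (continuousOn_Xi hm).mono
      intro z hz
      rcases segment_cases hz with rfl | rfl | hz
      · exact QM_sub hm ha
      · exact QM_sub hm hb
      · have h1 := openSegment_re hre hz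
        have h2 := openSegment_im ha0 hb0 hz
        apply QM_sub hm
        refine ⟨⟨by rw [h2]; have := ha.1.1; rwa [ha0] at this, h2.le⟩, ?_⟩
        rw [h2, kap_zero, mul_one]
        exact ((RR_lt_iff hm).2 h1.2).le.trans hRb
    · intro z hz
      have h1 := openSegment_re hre hz
      have h2 := openSegment_im ha0 hb0 hz
      have h3 : RR m z < 1 := lt_of_lt_of_le ((RR_lt_iff hm).2 h1.2) hRb
      have h4 : 0 < 1 - RR m z / (m + 1) := by
        have : RR m z / (m + 1) < 1 := by rw [div_lt_one (by positivity)]; linarith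
        linarith
      refine ⟨dXi m z, hasDerivAt_Xi ?_, ?_⟩
      · rw [vf_bot h2]; exact Complex.ofReal_mem_slitPlane.2 h4
      · rw [one_mul, dXi_bot h2, Complex.ofReal_re]
        exact div_pos (by linarith) h4
  have htop : ∀ a b : ℂ, a ∈ QM m → b ∈ QM m → a.im = -(Real.pi / m) → b.im = -(Real.pi / m) →
      a.re < b.re → Xi m a ≠ Xi m b := by
    intro a b ha hb ha0 hb0 hre
    have hpos : ∀ z : ℂ, 0 < 1 + RR m z / (m + 1) := fun z => by have := RR_pos m z; positivity
    apply ne_of_deriv_halfplane (Xi m) a b 1 (fun h => by rw [h] at hre; exact lt_irrefl _ hre)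
    · apply (continuousOn_Xi hm).mono
      intro z hz
      have h2 : z.im = -(Real.pi / m) := by
        rcases segment_cases hz with rfl | rfl | hz
        · exact ha0
        · exact hb0
        · exact openSegment_im ha0 hb0 hz
      refine ⟨⟨h2.ge, by rw [h2, ← ha0]; exact ha.1.2⟩, ?_⟩
      rw [vf_top hm h2]
      exact_mod_cast (hpos z).ne'
    · intro z hz
      have h2 := openSegment_im ha0 hb0 hz
      refine ⟨dXi m z, hasDerivAt_Xi ?_, ?_⟩
      · rw [vf_top hm h2]; exact Complex.ofReal_mem_slitPlane.2 (hpos z)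
      · rw [one_mul, dXi_top hm h2, Complex.ofReal_re]
        have := RR_pos m z
        positivity
  intro a ha b hb hab
  by_contra hne
  by_cases h0 : a.im = 0 ∧ b.im = 0
  · rcases re_lt_or_of_im_eq hne (h0.1.trans h0.2.symm) with h | h
    · exact hbot a b ha hb h0.1 h0.2 h hab
    · exact hbot b a hb ha h0.2 h0.1 h hab.symm
  · by_cases h1 : a.im = -(Real.pi / m) ∧ b.im = -(Real.pi / m)
    · rcases re_lt_or_of_im_eq hne (h1.1.trans h1.2.symm) with h | h
      · exact htop a b ha hb h1.1 h1.2 h hab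
      · exact htop b a hb ha h1.2 h1.1 h hab.symm
    · exact Xi_ne hm hne ha.1 hb.1 (QM_sub hm ha).2 (QM_sub hm hb).2 h0 h1 hab

lemma injOn_QS (hm : 1 ≤ m) : InjOn (Xi m) (QS m) := by
  have hm1 : (1 : ℝ) ≤ m := by exact_mod_cast hm
  have hbot : ∀ a b : ℂ, a ∈ QS m → b ∈ QS m → a.im = 0 → b.im = 0 → a.re < b.re → Xi m a ≠ Xi m b := by
    intro a b ha hb ha0 hb0 hre
    have hRa : 1 ≤ RR m a := by have := ha.2.1; rwa [ha0, kap_zero, mul_one] at this
    have hab : RR m a < RR m b := (RR_lt_iff hm).2 hre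
    rcases lt_trichotomy (RR m b) (m + 1) with hbn | hbn | hbn
    · apply ne_of_deriv_halfplane (Xi m) a b (-1) (fun h => by rw [h] at hre; exact lt_irrefl _ hre)
      · apply (continuousOn_Xi hm).mono
        intro z hz
        rcases segment_cases hz with rfl | rfl | hz
        · exact QS_sub ha
        · exact QS_sub hb
        · have h1 := openSegment_re hre hz
          have h2 := openSegment_im ha0 hb0 hz
          refine ⟨⟨by rw [h2]; have := ha.1.1; rwa [ha0] at this, h2.le⟩, ?_⟩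
          rw [vf_bot h2]
          have h3 := (RR_lt_iff hm).2 h1.2
          have h4 : RR m z / (m + 1) < 1 := by rw [div_lt_one (by positivity)]; linarith
          exact_mod_cast (by linarith : (0 : ℝ) < 1 - RR m z / (m + 1)).ne'
      · intro z hz
        have h1 := openSegment_re hre hz
        have h2 := openSegment_im ha0 hb0 hz
        have h3 := (RR_lt_iff hm).2 h1.2
        have h3' := (RR_lt_iff hm).2 h1.1
        have h4 : RR m z / (m + 1) < 1 := by rw [div_lt_one (by positivity)]; linarith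
        refine ⟨dXi m z, hasDerivAt_Xi ?_, ?_⟩
        · rw [vf_bot h2]; exact Complex.ofReal_mem_slitPlane.2 (by linarith)
        · rw [neg_mul, one_mul, Complex.neg_re, dXi_bot h2, Complex.ofReal_re]
          have : (1 - RR m z) / (1 - RR m z / (m + 1)) < 0 := div_neg_of_neg_of_pos (by linarith) (by linarith)
          linarith
    · exfalso
      apply hb.2.2
      rw [vf_bot hb0, hbn]
      have : (m : ℝ) + 1 ≠ 0 := by positivity
      simp [div_self this]
    · rcases lt_trichotomy (RR m a) (m + 1) with han | han | han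
      · intro heq
        have h1 : (Xi m a).im = (Xi m b).im := by rw [heq]
        rw [Xi_im, Xi_im, ha0, hb0, vf_bot ha0, vf_bot hb0] at h1
        have h4 : RR m a / (m + 1) < 1 := by rw [div_lt_one (by positivity)]; linarith
        have h5 : 1 < RR m b / (m + 1) := by rw [one_lt_div (by positivity)]; linarith
        rw [Complex.arg_ofReal_of_nonneg (by linarith), Complex.arg_ofReal_of_neg (by linarith)] at h1
        linarith [Real.pi_pos]
      · exfalso
        apply ha.2.2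
        rw [vf_bot ha0, han]
        have : (m : ℝ) + 1 ≠ 0 := by positivity
        simp [div_self this]
      · intro heq
        have h1 : (Xi m a).re = (Xi m b).re := by rw [heq]
        have h4 : 1 < RR m a / (m + 1) := by rw [one_lt_div (by positivity)]; linarith
        have h5 : RR m a / (m + 1) < RR m b / (m + 1) := by
          apply div_lt_div_of_pos_right hab (by positivity)
        rw [Xi_re, Xi_re, vf_bot ha0, vf_bot hb0, Complex.norm_real, Complex.norm_real, Real.norm_eq_abs,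
          Real.norm_eq_abs, abs_of_neg (by linarith), abs_of_neg (by linarith)] at h1
        have h6 : Real.log (-(1 - RR m a / (m + 1))) < Real.log (-(1 - RR m b / (m + 1))) :=
          Real.log_lt_log (by linarith) (by linarith)
        linarith
  intro a ha b hb hab
  by_contra hne
  by_cases h0 : a.im = 0 ∧ b.im = 0
  · rcases re_lt_or_of_im_eq hne (h0.1.trans h0.2.symm) with h | h
    · exact hbot a b ha hb h0.1 h0.2 h hab
    · exact hbot b a hb ha h0.2 h0.1 h hab.symm
  · exact Xi_ne hm hne ha.1 hb.1 ha.2.2 hb.2.2 h0 (fun h => QS_not_top hm ha h.1) hab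

lemma Xi_open (hm : 1 ≤ m) {ζ : ℂ} (h : ζ ∈ SO m) {U : Set ℂ} (hU : U ∈ 𝓝 ζ) :
    Xi m '' U ∈ 𝓝 (Xi m ζ) := by
  have h1 := (hasStrictDerivAt_Xi (vf_slit hm h)).map_nhds_eq (dXi_ne_zero hm h)
  rw [← h1]
  exact image_mem_map hU

lemma exists_SM (hm : 1 ≤ m) : ({ζ | ζ ∈ SO m ∧ RR m ζ * kap m ζ.im < 1}).Nonempty := by
  have hm0 : (0 : ℝ) < m := by positivity
  have h1 : Tendsto (fun s : ℝ => Real.exp (m * (s - cc m)) * kap m (-(Real.pi / m) / 2)) atBot (𝓝 (0 * kap m (-(Real.pi / m) / 2))) := by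
    apply Tendsto.mul_const
    apply Real.tendsto_exp_atBot.comp
    apply Tendsto.const_mul_atBot hm0
    exact tendsto_atBot_add_const_right _ _ tendsto_id
  rw [zero_mul] at h1
  obtain ⟨s, hs⟩ := (h1.eventually (gt_mem_nhds (zero_lt_one))).exists
  refine ⟨⟨s, -(Real.pi / m) / 2⟩, ⟨?_, ?_⟩, hs⟩
  · show -(Real.pi / m) < -(Real.pi / m) / 2
    have : 0 < Real.pi / m := by positivity
    linarith
  · show -(Real.pi / m) / 2 < 0
    have : 0 < Real.pi / m := by positivity
    linarith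

lemma exists_SS (hm : 1 ≤ m) : ({ζ | ζ ∈ SO m ∧ 1 < RR m ζ * kap m ζ.im}).Nonempty := by
  have hm0 : (0 : ℝ) < m := by positivity
  have h1 : Tendsto (fun y : ℝ => Real.exp (m * 1) * kap m y) (𝓝[<] 0) (𝓝 (Real.exp (m * 1) * 1)) := by
    have h2 : Tendsto (kap m) (𝓝[<] 0) (𝓝 1) := by
      have := (continuous_kap m).tendsto 0
      rw [kap_zero] at this
      exact this.mono_left nhdsWithin_le_nhds
    exact h2.const_mul _
  have h2 : (1 : ℝ) < Real.exp (m * 1) * 1 := by
    rw [mul_one, mul_one]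
    exact Real.one_lt_exp_iff.2 hm0
  have h3 : ∀ᶠ y in 𝓝[<] (0 : ℝ), -(Real.pi / m) < y := by
    apply mem_nhdsWithin_of_mem_nhds
    apply lt_mem_nhds
    have : 0 < Real.pi / m := by positivity
    linarith
  obtain ⟨y, ⟨hy1, hy2⟩, hy3⟩ := ((h1.eventually (lt_mem_nhds h2)).and h3).and self_mem_nhdsWithin |>.exists
  refine ⟨⟨cc m + 1, y⟩, ⟨hy2, hy3⟩, ?_⟩
  show 1 < Real.exp (m * (cc m + 1 - cc m)) * kap m y
  rw [show cc m + 1 - cc m = 1 by ring]
  exact hy1

/-- closed target strips -/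
def CM (m : ℕ) : Set ℂ := Complex.im ⁻¹' Icc (-(Real.pi / m)) 0
/-- closed target strip of the side part -/
def CS : Set ℂ := Complex.im ⁻¹' Icc 0 Real.pi

lemma surj_QM' (hm : 1 ≤ m) : Complex.im ⁻¹' Ioo (-(Real.pi / m)) 0 ⊆
    Xi m '' {ζ | ζ ∈ SO m ∧ RR m ζ * kap m ζ.im < 1} := by
  have hcont : ContinuousOn (Xi m) (QM m) := (continuousOn_Xi hm).mono (QM_sub hm)
  apply subset_image_of_clopen hcont (proper_QM hm)
  · exact fun ζ h => ⟨SO_subset m h.1, h.2.le⟩
  · exact (isOpen_SO m).inter (isOpen_lt ((continuous_RR m).mul ((continuous_kap m).comp Complex.continuous_im)) continuous_const)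
  · intro ζ h1 h2
    exact QM_interior hm h1 h2.1 h2.2
  · exact exists_SM hm
  · intro ζ h
    exact ⟨(Xi_im_mem hm h.1).1, (Xi_im_sign hm h.1).1.2 h.2⟩
  · apply Convex.isPreconnected
    exact (convex_Ioo _ _).linear_preimage Complex.imLm
  · intro ζ h U hU
    exact Xi_open hm h.1 hU

lemma surj_QS' (hm : 1 ≤ m) : Complex.im ⁻¹' Ioo 0 Real.pi ⊆
    Xi m '' {ζ | ζ ∈ SO m ∧ 1 < RR m ζ * kap m ζ.im} := by
  have hcont : ContinuousOn (Xi m) (QS m) := (continuousOn_Xi hm).mono QS_sub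
  apply subset_image_of_clopen hcont (proper_QS hm)
  · exact fun ζ h => ⟨SO_subset m h.1, h.2.le, vf_ne_zero hm h.1⟩
  · exact (isOpen_SO m).inter (isOpen_lt continuous_const ((continuous_RR m).mul ((continuous_kap m).comp Complex.continuous_im)))
  · intro ζ h1 h2
    exact QS_interior hm h1 h2.1 h2.2
  · exact exists_SS hm
  · intro ζ h
    exact ⟨(Xi_im_sign hm h.1).2.2.2 h.2, (Xi_im_mem hm h.1).2⟩
  · apply Convex.isPreconnected
    exact (convex_Ioo _ _).linear_preimage Complex.imLm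
  · intro ζ h U hU
    exact Xi_open hm h.1 hU

lemma surj_QM (hm : 1 ≤ m) : CM m ⊆ Xi m '' QM m := by
  have hcont : ContinuousOn (Xi m) (QM m) := (continuousOn_Xi hm).mono (QM_sub hm)
  have hcl := isClosed_image_of_proper hcont (proper_QM hm)
  have h1 : Complex.im ⁻¹' Ioo (-(Real.pi / m)) 0 ⊆ Xi m '' QM m :=
    (surj_QM' hm).trans (image_mono fun ζ h => ⟨SO_subset m h.1, h.2.le⟩)
  have h2 := hcl.closure_subset_iff.2 h1
  rw [Complex.closure_preimage_im, closure_Ioo (by
    have hm0 : (0 : ℝ) < m := by positivity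
    have : 0 < Real.pi / m := by positivity
    intro h; linarith)] at h2
  exact h2

lemma surj_QS (hm : 1 ≤ m) : CS ⊆ Xi m '' QS m := by
  have hcont : ContinuousOn (Xi m) (QS m) := (continuousOn_Xi hm).mono QS_sub
  have hcl := isClosed_image_of_proper hcont (proper_QS hm)
  have h1 : Complex.im ⁻¹' Ioo 0 Real.pi ⊆ Xi m '' QS m :=
    (surj_QS' hm).trans (image_mono fun ζ h => ⟨SO_subset m h.1, h.2.le, vf_ne_zero hm h.1⟩)
  have h2 := hcl.closure_subset_iff.2 h1
  rw [Complex.closure_preimage_im, closure_Ioo (by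
    intro h; linarith [Real.pi_pos])] at h2
  exact h2

/-- inverse of the model map, main part -/
def ThM (m : ℕ) : ℂ → ℂ := Function.invFunOn (Xi m) (QM m)
/-- inverse of the model map, side part -/
def ThS (m : ℕ) : ℂ → ℂ := Function.invFunOn (Xi m) (QS m)

lemma ThM_mem (hm : 1 ≤ m) {ω : ℂ} (h : ω ∈ CM m) : ThM m ω ∈ QM m := Function.invFunOn_mem (surj_QM hm h)
lemma ThS_mem (hm : 1 ≤ m) {ω : ℂ} (h : ω ∈ CS) : ThS m ω ∈ QS m := Function.invFunOn_mem (surj_QS hm h)
lemma Xi_ThM (hm : 1 ≤ m) {ω : ℂ} (h : ω ∈ CM m) : Xi m (ThM m ω) = ω := Function.invFunOn_eq (surj_QM hm h)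
lemma Xi_ThS (hm : 1 ≤ m) {ω : ℂ} (h : ω ∈ CS) : Xi m (ThS m ω) = ω := Function.invFunOn_eq (surj_QS hm h)

lemma continuousOn_ThM (hm : 1 ≤ m) : ContinuousOn (ThM m) (CM m) :=
  continuousOn_invFunOn ((continuousOn_Xi hm).mono (QM_sub hm)) (injOn_QM hm) (surj_QM hm) (proper_QM hm)

lemma continuousOn_ThS (hm : 1 ≤ m) : ContinuousOn (ThS m) CS :=
  continuousOn_invFunOn ((continuousOn_Xi hm).mono QS_sub) (injOn_QS hm) (surj_QS hm) (proper_QS hm)

lemma ThM_interior (hm : 1 ≤ m) {ω : ℂ} (h1 : -(Real.pi / m) < ω.im) (h2 : ω.im < 0) :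
    ThM m ω ∈ SO m ∧ RR m (ThM m ω) * kap m (ThM m ω).im < 1 := by
  have hmem : ω ∈ CM m := ⟨h1.le, h2.le⟩
  apply QM_interior hm (ThM_mem hm hmem)
  · rw [Xi_ThM hm hmem]; exact h1
  · rw [Xi_ThM hm hmem]; exact h2

lemma ThS_interior (hm : 1 ≤ m) {ω : ℂ} (h1 : 0 < ω.im) (h2 : ω.im < Real.pi) :
    ThS m ω ∈ SO m ∧ 1 < RR m (ThS m ω) * kap m (ThS m ω).im := by
  have hmem : ω ∈ CS := ⟨h1.le, h2.le⟩
  apply QS_interior hm (ThS_mem hm hmem)
  · rw [Xi_ThS hm hmem]; exact h1
  · rw [Xi_ThS hm hmem]; exact h2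

lemma hasDerivAt_ThM (hm : 1 ≤ m) {ω : ℂ} (h1 : -(Real.pi / m) < ω.im) (h2 : ω.im < 0) :
    HasDerivAt (ThM m) (dXi m (ThM m ω))⁻¹ ω := by
  have hmem : Complex.im ⁻¹' Ioo (-(Real.pi / m)) 0 ∈ 𝓝 ω :=
    (isOpen_Ioo.preimage Complex.continuous_im).mem_nhds ⟨h1, h2⟩
  have hint := ThM_interior hm h1 h2
  apply HasDerivAt.of_local_left_inverse
  · exact ((continuousOn_ThM hm).continuousAt (mem_of_superset hmem (fun w hw => ⟨hw.1.le, hw.2.le⟩)))
  · exact hasDerivAt_Xi (vf_slit hm hint.1)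
  · exact dXi_ne_zero hm hint.1
  · filter_upwards [hmem] with w hw
    exact Xi_ThM hm ⟨hw.1.le, hw.2.le⟩

lemma hasDerivAt_ThS (hm : 1 ≤ m) {ω : ℂ} (h1 : 0 < ω.im) (h2 : ω.im < Real.pi) :
    HasDerivAt (ThS m) (dXi m (ThS m ω))⁻¹ ω := by
  have hmem : Complex.im ⁻¹' Ioo 0 Real.pi ∈ 𝓝 ω :=
    (isOpen_Ioo.preimage Complex.continuous_im).mem_nhds ⟨h1, h2⟩
  have hint := ThS_interior hm h1 h2
  apply HasDerivAt.of_local_left_inverse
  · exact ((continuousOn_ThS hm).continuousAt (mem_of_superset hmem (fun w hw => ⟨hw.1.le, hw.2.le⟩)))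
  · exact hasDerivAt_Xi (vf_slit hm hint.1)
  · exact dXi_ne_zero hm hint.1
  · filter_upwards [hmem] with w hw
    exact Xi_ThS hm ⟨hw.1.le, hw.2.le⟩

/-- matching of the two parts along the slit `[1, ∞)` -/
lemma ThM_eq_ThS (hm : 1 ≤ m) {t : ℝ} (ht : 0 ≤ t) : ThM m t = ThS m t := by
  have hm1 : (1 : ℝ) ≤ m := by exact_mod_cast hm
  have hmemM : (t : ℂ) ∈ CM m := by
    constructor
    · simp; positivity
    · simp
  have hmemS : (t : ℂ) ∈ CS := ⟨by simp, by simp [Real.pi_pos.le]⟩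
  have h1 := ThM_mem hm hmemM
  have h2 := Xi_ThM hm hmemM
  have h3 : ThM m t ∈ QS m := by
    refine ⟨h1.1, ?_, (QM_sub hm h1).2⟩
    rcases SC_cases h1.1 with h4 | h4 | h4
    · -- bottom edge: then `t ≤ 0`, equality only at the tip
      have hR : RR m (ThM m t) ≤ 1 := by have := h1.2; rwa [h4, kap_zero, mul_one] at this
      rw [h4, kap_zero, mul_one]
      by_contra hcon
      push Not at hcon
      have h5 : (Xi m (ThM m t)).re = t := by rw [h2]; simp
      -- monotonicity: compare with the tip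
      set ζ := ThM m t with hζ
      have h6 : (Xi m ζ).re < 0 := by
        have htip : (cc m : ℂ) ∈ QM m := by
          refine ⟨⟨?_, by simp⟩, ?_⟩
          · simp; positivity
          · simp [kap_zero, RR]
        have hXtip : Xi m (cc m : ℂ) = 0 := by
          have h7 : vf m (cc m : ℂ) = ((m / (m + 1) : ℝ) : ℂ) := by
            rw [vf_bot (by simp)]
            congr 1
            have : RR m (cc m : ℂ) = 1 := by simp [RR]
            rw [this]
            have : (m : ℝ) + 1 ≠ 0 := by positivity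
            field_simp
            ring
          unfold Xi
          rw [h7, ← Complex.ofReal_log (by positivity)]
          unfold cc
          rw [← Complex.ofReal_add, ← Real.log_mul (by positivity) (by positivity)]
          have : ((m : ℝ) + 1) / m * (m / (m + 1)) = 1 := by field_simp
          rw [this]; simp
        -- the function is strictly increasing on the real edge
        have hre : ζ.re < cc m := by
          have h8 : RR m ζ < RR m (cc m : ℂ) := by simpa [RR] using hcon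
          simpa using (RR_lt_iff hm).1 h8
        have hmono : StrictMonoOn (fun s : ℝ => s + Real.log (1 - Real.exp (m * (s - cc m)) / (m + 1))) (Iic (cc m)) := by
          apply strictMonoOn_of_deriv_pos (convex_Iic _)
          · apply ContinuousOn.add continuousOn_id
            apply ContinuousOn.log
            · fun_prop
            · intro s hs
              have h9 : Real.exp (m * (s - cc m)) ≤ 1 := by
                rw [Real.exp_le_one_iff]
                exact mul_nonpos_of_nonneg_of_nonpos (by positivity) (by linarith [mem_Iic.1 hs])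
              have h10 : Real.exp (m * (s - cc m)) / (m + 1) < 1 := by
                rw [div_lt_one (by positivity)]; linarith
              linarith
          · intro s hs
            rw [interior_Iic] at hs
            have hs' : s < cc m := hs
            have h9 : Real.exp (m * (s - cc m)) < 1 := by
              rw [Real.exp_lt_one_iff]
              exact mul_neg_of_pos_of_neg (by positivity) (by linarith)
            have h10 : Real.exp (m * (s - cc m)) / (m + 1) < 1 := by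
              rw [div_lt_one (by positivity)]; linarith
            have h11 : HasDerivAt (fun s : ℝ => s + Real.log (1 - Real.exp (m * (s - cc m)) / (m + 1)))
                (1 + (-(Real.exp (m * (s - cc m)) * m / (m + 1))) / (1 - Real.exp (m * (s - cc m)) / (m + 1))) s := by
              have h12 : HasDerivAt (fun s : ℝ => (m : ℝ) * (s - cc m)) m s := by
                simpa using ((hasDerivAt_id s).sub_const (cc m)).const_mul (m : ℝ)
              have h13 := ((h12.exp.div_const ((m : ℝ) + 1)).const_sub 1).log (by linarith)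
              exact (hasDerivAt_id s).add h13
            rw [h11.deriv]
            set E := Real.exp (m * (s - cc m)) with hE
            have h14 : 1 + (-(E * m / (m + 1))) / (1 - E / (m + 1)) = (1 - E) / (1 - E / (m + 1)) := by
              have hne : 1 - E / (m + 1) ≠ 0 := by linarith
              have hm2 : (m : ℝ) + 1 ≠ 0 := by positivity
              rw [eq_div_iff hne, add_mul, div_mul_cancel₀ _ hne]
              field_simp
              ring
            rw [h14]
            exact div_pos (by linarith) (by linarith)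
        have h15 := hmono (mem_Iic.2 hre.le) (mem_Iic.2 le_rfl) hre
        have h16 : (Xi m ζ).re = ζ.re + Real.log (1 - Real.exp (m * (ζ.re - cc m)) / (m + 1)) := by
          rw [Xi_re, vf_bot h4, Complex.norm_real, Real.norm_eq_abs, abs_of_pos]
          · rfl
          · have h10 : RR m ζ / (m + 1) < 1 := by
              rw [div_lt_one (by positivity)]; linarith
            linarith
        rw [h16]
        refine lt_of_lt_of_eq h15 ?_
        simp only [sub_self, mul_zero, Real.exp_zero]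
        have h17 : (1 : ℝ) - 1 / (m + 1) = m / (m + 1) := by
          have : (m : ℝ) + 1 ≠ 0 := by positivity
          field_simp; ring
        rw [h17]
        unfold cc
        rw [← Real.log_mul (by positivity) (by positivity)]
        have : ((m : ℝ) + 1) / m * (m / (m + 1)) = 1 := by field_simp
        rw [this, Real.log_one]
      linarith
    · exfalso
      have h5 : (Xi m (ThM m t)).im = 0 := by rw [h2]; simp
      have h6 : (vf m (ThM m t)).arg = 0 := by
        rw [vf_top hm h4]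
        exact Complex.arg_ofReal_of_nonneg (by have := RR_pos m (ThM m t); positivity)
      rw [Xi_im, h6, h4] at h5
      have : 0 < Real.pi / m := by positivity
      linarith
    · have h5 : (Xi m (ThM m t)).im = 0 := by rw [h2]; simp
      exact ((Xi_im_sign hm h4).2.1.1 h5).ge
  apply injOn_QS hm h3 (ThS_mem hm hmemS)
  rw [h2, Xi_ThS hm hmemS]

end

end Pool.Agent.Hhelper25.Biuni
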