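import Mathlib
import Pool.Agent.Hhelper25.Biuni.Model2
import Pool.Agent.Hhelper25.Biuni.Cov

/-!
Asymptotics of the model map and its inverse, the top edge, and the conservation law.
-/

set_option autoImplicit false

namespace Pool.Agent.Hhelper25.Biuni

open Set Filter Topology MeasureTheory
open scoped ENNReal

noncomputable section

variable {m : ℕ}

/-- `log a`, where `a = m^m/(m+1)^(m+1)` -/
def la (m : ℕ) : ℝ := -(m * cc m) - Real.log (m + 1)

lemma abs_log_norm_le {z : ℂ} {ρ : ℝ} (h : ‖z - 1‖ ≤ ρ) (hρ : ρ ≤ 1 / 2) : |Real.log ‖z‖| ≤ 2 * ρ := by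
  have hρ0 : 0 ≤ ρ := (norm_nonneg _).trans h
  have h1 : |‖z‖ - 1| ≤ ρ := by
    have := abs_norm_sub_norm_le z 1
    rw [norm_one] at this
    exact this.trans h
  rw [abs_le] at h1
  have hz : 0 < ‖z‖ := by linarith
  rw [abs_le]
  constructor
  · have h2 := Real.one_sub_inv_le_log_of_pos hz
    have h3 : ‖z‖⁻¹ ≤ 1 + 2 * ρ := by
      rw [inv_le_iff_one_le_mul₀ hz]
      nlinarith
    linarith
  · have h2 := Real.log_le_sub_one_of_pos hz
    linarith

lemma log_RR (ζ : ℂ) : Real.log (RR m ζ) = m * (ζ.re - cc m) := by unfold RR; rw [Real.log_exp]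

lemma RR_le_of (hm : 1 ≤ m) {ε : ℝ} (hε : 0 < ε) {ζ : ℂ} (h : ζ.re ≤ cc m + Real.log ε / m) : RR m ζ ≤ ε := by
  have hm0 : (0 : ℝ) < m := by positivity
  unfold RR
  rw [← Real.le_log_iff_exp_le hε]
  have : ζ.re - cc m ≤ Real.log ε / m := by linarith
  rw [le_div_iff₀ hm0] at this
  linarith

lemma le_RR_of (hm : 1 ≤ m) {ε : ℝ} (hε : 0 < ε) {ζ : ℂ} (h : cc m + Real.log ε / m ≤ ζ.re) : ε ≤ RR m ζ := by
  have hm0 : (0 : ℝ) < m := by positivity
  unfold RR
  rw [← Real.log_le_iff_le_exp hε]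
  have : Real.log ε / m ≤ ζ.re - cc m := by linarith
  rw [div_le_iff₀ hm0] at this
  linarith

lemma norm_mp1 : ‖((m : ℂ) + 1)‖ = (m : ℝ) + 1 := by
  rw [show ((m : ℂ) + 1) = ((m + 1 : ℝ) : ℂ) by push_cast; rfl, Complex.norm_real, Real.norm_eq_abs,
      abs_of_pos (by positivity)]

/-- far left: `log|v|`, `log|1 - Y|` are small -/
lemma asym_left (hm : 1 ≤ m) {η : ℝ} (hη : 0 < η) : ∃ B : ℝ, ∀ ζ : ℂ, ζ.re ≤ -B →
    |Real.log ‖vf m ζ‖| ≤ η ∧ |Real.log ‖1 - Yf m ζ‖| ≤ η := by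
  set ε := min (1 / 2) (η / 2) with hε
  have hε0 : 0 < ε := lt_min (by norm_num) (by linarith)
  refine ⟨-(cc m + Real.log ε / m), fun ζ hζ => ?_⟩
  rw [neg_neg] at hζ
  have hR := RR_le_of hm hε0 hζ
  have h1 : ε ≤ 1 / 2 := min_le_left _ _
  have h2 : ε ≤ η / 2 := min_le_right _ _
  constructor
  · have h3 : ‖vf m ζ - 1‖ ≤ ε := by
      unfold vf
      rw [sub_sub_cancel_left, norm_neg, norm_div, norm_Yf, norm_mp1]
      refine le_trans ?_ hR
      apply div_le_self (RR_pos m ζ).le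
      have : (0 : ℝ) ≤ m := by positivity
      linarith
    exact (abs_log_norm_le h3 h1).trans (by linarith)
  · have h3 : ‖(1 - Yf m ζ) - 1‖ ≤ ε := by
      rw [sub_sub_cancel_left, norm_neg, norm_Yf]; exact hR
    exact (abs_log_norm_le h3 h1).trans (by linarith)

/-- far right asymptotics -/
lemma asym_right (hm : 1 ≤ m) {η : ℝ} (hη : 0 < η) : ∃ B : ℝ, ∀ ζ : ℂ, B ≤ ζ.re →
    |Real.log ‖vf m ζ‖ - (m * ζ.re + la m)| ≤ η ∧ |Real.log ‖1 - Yf m ζ‖ - m * (ζ.re - cc m)| ≤ η := by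
  set ε := min (1 / 2) (η / 2) with hε
  have hε0 : 0 < ε := lt_min (by norm_num) (by linarith)
  have hm1 : (0 : ℝ) < m + 1 := by positivity
  refine ⟨cc m + Real.log ((m + 1) / ε) / m, fun ζ hζ => ?_⟩
  have hR := le_RR_of hm (div_pos hm1 hε0) hζ
  have hR0 := RR_pos m ζ
  have h1 : ε ≤ 1 / 2 := min_le_left _ _
  have h2 : ε ≤ η / 2 := min_le_right _ _
  have hY : Yf m ζ ≠ 0 := by rw [← norm_pos_iff, norm_Yf]; exact hR0
  have hmR : (m + 1) / RR m ζ ≤ ε := by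
    rw [div_le_iff₀ hε0] at hR
    rw [div_le_iff₀ hR0]; linarith
  have hmC : (m : ℂ) + 1 ≠ 0 := by rw [← norm_pos_iff, norm_mp1]; exact hm1
  constructor
  · have h3 : ‖(1 - (m + 1) / Yf m ζ) - 1‖ ≤ ε := by
      rw [sub_sub_cancel_left, norm_neg, norm_div, norm_Yf, norm_mp1]; exact hmR
    have h4 : vf m ζ = -(Yf m ζ / (m + 1)) * (1 - (m + 1) / Yf m ζ) := by
      unfold vf; field_simp; ring
    have h5 := abs_log_norm_le h3 h1
    have h6 : ‖(1 - ((m : ℂ) + 1) / Yf m ζ)‖ ≠ 0 := by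
      intro h0
      rw [norm_eq_zero] at h0
      rw [h0] at h3
      simp at h3
      linarith
    have h7 : Real.log ‖vf m ζ‖ = (m * ζ.re + la m) + Real.log ‖(1 - ((m : ℂ) + 1) / Yf m ζ)‖ := by
      rw [h4, norm_mul, norm_neg, norm_div, norm_Yf, norm_mp1, Real.log_mul (by positivity) h6,
        Real.log_div hR0.ne' hm1.ne', log_RR]
      unfold la; ring
    rw [h7, add_sub_cancel_left]
    exact h5.trans (by linarith)
  · have h3 : ‖(1 - 1 / Yf m ζ) - 1‖ ≤ ε := by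
      rw [sub_sub_cancel_left, norm_neg, norm_div, norm_Yf, norm_one]
      refine le_trans ?_ hmR
      apply div_le_div_of_nonneg_right _ hR0.le
      have : (0 : ℝ) ≤ m := by positivity
      linarith
    have h4 : 1 - Yf m ζ = -(Yf m ζ) * (1 - 1 / Yf m ζ) := by
      field_simp; ring
    have h5 := abs_log_norm_le h3 h1
    have h6 : ‖(1 - 1 / Yf m ζ)‖ ≠ 0 := by
      intro h0
      rw [norm_eq_zero] at h0
      rw [h0] at h3
      simp at h3
      linarith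
    have h7 : Real.log ‖1 - Yf m ζ‖ = m * (ζ.re - cc m) + Real.log ‖(1 - 1 / Yf m ζ)‖ := by
      rw [h4, norm_mul, norm_neg, norm_Yf, Real.log_mul hR0.ne' h6, log_RR]
    rw [h7, add_sub_cancel_left]
    exact h5.trans (by linarith)

/-- on the main part `v` is bounded away from zero -/
lemma QM_vf_lb (hm : 1 ≤ m) : ∃ δ : ℝ, 0 < δ ∧ ∀ ζ ∈ QM m, δ ≤ ‖vf m ζ‖ := by
  have hm1 : (1 : ℝ) ≤ m := by exact_mod_cast hm
  set B := cc m + Real.log (2 * (m + 1)) / m with hB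
  have hc : IsCompact (QM m ∩ (Icc (cc m) B ×ℂ Icc (-(Real.pi / m)) 0)) :=
    (isCompact_Icc.reProdIm isCompact_Icc).inter_left (isClosed_QM m)
  have hlow : ∃ δ : ℝ, 0 < δ ∧ ∀ ζ ∈ QM m ∩ (Icc (cc m) B ×ℂ Icc (-(Real.pi / m)) 0), δ ≤ ‖vf m ζ‖ := by
    rcases (QM m ∩ (Icc (cc m) B ×ℂ Icc (-(Real.pi / m)) 0)).eq_empty_or_nonempty with h | h
    · exact ⟨1, one_pos, fun ζ hζ => by rw [h] at hζ; exact absurd hζ (notMem_empty _)⟩
    · obtain ⟨z, hz, hmin⟩ := hc.exists_isMinOn h (continuous_vf m).norm.continuousOn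
      exact ⟨‖vf m z‖, norm_pos_iff.2 (QM_sub hm hz.1).2, fun ζ hζ => hmin hζ⟩
  obtain ⟨δ, hδ, hlow⟩ := hlow
  refine ⟨min δ (1 / 2), lt_min hδ (by norm_num), fun ζ hζ => ?_⟩
  rcases le_or_gt ζ.re B with h1 | h1
  · rcases le_or_gt (cc m) ζ.re with h2 | h2
    · exact (min_le_left _ _).trans (hlow ζ ⟨hζ, ⟨h2, h1⟩, hζ.1⟩)
    · have hR : RR m ζ ≤ 1 := by
        have := RR_le_of (ζ := ζ) hm one_pos (by simpa using h2.le)
        exact this
      have h3 : 1 - RR m ζ / (m + 1) ≤ ‖vf m ζ‖ := by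
        unfold vf
        have := norm_sub_norm_le (1 : ℂ) (Yf m ζ / (m + 1))
        rw [norm_div, norm_Yf, norm_mp1, norm_one] at this
        exact this
      have h4 : RR m ζ / (m + 1) ≤ 1 / 2 := by
        rw [div_le_div_iff₀ (by positivity) (by norm_num)]; linarith
      exact (min_le_right _ _).trans (by linarith)
  · have hR := le_RR_of (ζ := ζ) hm (by positivity : (0 : ℝ) < 2 * (m + 1)) h1.le
    have h3 := le_norm_vf (m := m) ζ
    have : 2 ≤ RR m ζ / (m + 1) := by rw [le_div_iff₀ (by positivity)]; exact hR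
    exact (min_le_right _ _).trans (by linarith)

/-- main part: `Re ω → -∞` forces `Re ζ → -∞` -/
lemma re_le_of_left (hm : 1 ≤ m) (B : ℝ) : ∃ T : ℝ, ∀ ζ ∈ QM m, (Xi m ζ).re ≤ -T → ζ.re ≤ -B := by
  obtain ⟨δ, hδ, h⟩ := QM_vf_lb hm
  refine ⟨B - Real.log δ, fun ζ hζ h1 => ?_⟩
  rw [Xi_re] at h1
  have := Real.log_le_log hδ (h ζ hζ)
  linarith

/-- `Re ω → ∞` forces `Re ζ → ∞` -/
lemma re_ge_of_right (hm : 1 ≤ m) (B : ℝ) : ∃ T : ℝ, ∀ ζ : ℂ, vf m ζ ≠ 0 → T ≤ (Xi m ζ).re → B ≤ ζ.re := by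
  refine ⟨B + Real.log (1 + Real.exp (m * (B - cc m)) / (m + 1)), fun ζ h0 h1 => ?_⟩
  by_contra hcon
  push Not at hcon
  rw [Xi_re] at h1
  have hn := norm_pos_iff.2 h0
  have h2 : ‖vf m ζ‖ ≤ 1 + Real.exp (m * (B - cc m)) / (m + 1) := by
    refine (norm_vf_le ζ).trans ?_
    have : RR m ζ ≤ Real.exp (m * (B - cc m)) := by
      unfold RR
      apply Real.exp_le_exp.2
      apply mul_le_mul_of_nonneg_left _ (by positivity)
      linarith
    have := div_le_div_of_nonneg_right this (by positivity : (0 : ℝ) ≤ m + 1)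
    linarith
  have := Real.log_le_log hn h2
  linarith

lemma ThM_left (hm : 1 ≤ m) {η : ℝ} (hη : 0 < η) : ∃ T : ℝ, ∀ ω ∈ CM m, ω.re ≤ -T →
    |(ThM m ω).re - ω.re| ≤ η := by
  obtain ⟨B, hB⟩ := asym_left hm hη
  obtain ⟨T, hT⟩ := re_le_of_left hm B
  refine ⟨T, fun ω hω h1 => ?_⟩
  have h2 := ThM_mem hm hω
  have h3 := Xi_ThM hm hω
  have h4 := hT _ h2 (by rw [h3]; exact h1)
  have h5 := (hB _ h4).1
  have h6 : ω.re = (ThM m ω).re + Real.log ‖vf m (ThM m ω)‖ := by rw [← Xi_re, h3]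
  rw [h6, sub_add_cancel_left, abs_neg]
  exact h5

lemma Th_right (hm : 1 ≤ m) {η : ℝ} (hη : 0 < η) : ∃ T : ℝ,
    (∀ ω ∈ CM m, T ≤ ω.re → |(m + 1) * (ThM m ω).re - (ω.re - la m)| ≤ η) ∧
    (∀ ω ∈ CS, T ≤ ω.re → |(m + 1) * (ThS m ω).re - (ω.re - la m)| ≤ η) := by
  obtain ⟨B, hB⟩ := asym_right hm hη
  obtain ⟨T, hT⟩ := re_ge_of_right hm B
  refine ⟨T, fun ω hω h1 => ?_, fun ω hω h1 => ?_⟩
  · have h2 := ThM_mem hm hω
    have h3 := Xi_ThM hm hω
    have h4 := hT _ (QM_sub hm h2).2 (by rw [h3]; exact h1)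
    have h5 := (hB _ h4).1
    have h6 : ω.re = (ThM m ω).re + Real.log ‖vf m (ThM m ω)‖ := by rw [← Xi_re, h3]
    rw [h6, abs_sub_comm]
    convert h5 using 2
    ring
  · have h2 := ThS_mem hm hω
    have h3 := Xi_ThS hm hω
    have h4 := hT _ h2.2.2 (by rw [h3]; exact h1)
    have h5 := (hB _ h4).1
    have h6 : ω.re = (ThS m ω).re + Real.log ‖vf m (ThS m ω)‖ := by rw [← Xi_re, h3]
    rw [h6, abs_sub_comm]
    convert h5 using 2
    ring

/-- the potential of the conservation law -/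
def BB (m : ℕ) (ζ : ℂ) : ℝ := ζ.re - Real.log ‖1 - Yf m ζ‖ / (m + 1)

lemma BB_left (hm : 1 ≤ m) {η : ℝ} (hη : 0 < η) : ∃ T : ℝ, ∀ ω ∈ CM m, ω.re ≤ -T →
    |BB m (ThM m ω) - ω.re| ≤ η := by
  obtain ⟨B, hB⟩ := asym_left hm (half_pos hη)
  obtain ⟨T, hT⟩ := re_le_of_left hm B
  refine ⟨T, fun ω hω h1 => ?_⟩
  have h2 := ThM_mem hm hω
  have h3 := Xi_ThM hm hω
  have h4 := hT _ h2 (by rw [h3]; exact h1)
  have h5 := (hB _ h4).1
  have h5' := (hB _ h4).2
  have h6 : ω.re = (ThM m ω).re + Real.log ‖vf m (ThM m ω)‖ := by rw [← Xi_re, h3]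
  have h7 : |Real.log ‖1 - Yf m (ThM m ω)‖ / (m + 1)| ≤ η / 2 := by
    rw [abs_div, abs_of_pos (by positivity : (0 : ℝ) < m + 1)]
    refine (div_le_self (abs_nonneg _) ?_).trans h5'
    have : (0 : ℝ) ≤ m := by positivity
    linarith
  unfold BB
  rw [h6]
  rw [abs_le] at h5 h7 ⊢
  constructor <;> linarith [h5.1, h5.2, h7.1, h7.2]

lemma BB_right (hm : 1 ≤ m) {η : ℝ} (hη : 0 < η) : ∃ T : ℝ, ∀ ω ∈ CM m, T ≤ ω.re →
    |BB m (ThM m ω) - ((ω.re - la m) / (m + 1) / (m + 1) + m * cc m / (m + 1))| ≤ η := by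
  obtain ⟨B, hB⟩ := asym_right hm (half_pos hη)
  obtain ⟨T, hT⟩ := re_ge_of_right hm B
  obtain ⟨T', hT'⟩ := Th_right hm (half_pos hη)
  refine ⟨max T T', fun ω hω h1 => ?_⟩
  have h2 := ThM_mem hm hω
  have h3 := Xi_ThM hm hω
  have h4 := hT _ (QM_sub hm h2).2 (by rw [h3]; exact (le_max_left _ _).trans h1)
  have h5 := (hB _ h4).2
  have h6 := hT'.1 ω hω ((le_max_right _ _).trans h1)
  have hmp : (1 : ℝ) ≤ m + 1 := by
    have : (0 : ℝ) ≤ m := by positivity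
    linarith
  have hmp0 : (0 : ℝ) < m + 1 := by positivity
  set s := (ThM m ω).re with hs
  set L := Real.log ‖1 - Yf m (ThM m ω)‖ with hL
  have key : BB m (ThM m ω) - ((ω.re - la m) / (m + 1) / (m + 1) + m * cc m / (m + 1))
      = ((m + 1) * s - (ω.re - la m)) / (m + 1) / (m + 1) - (L - m * (s - cc m)) / (m + 1) := by
    unfold BB
    rw [← hs, ← hL]
    field_simp
    ring
  rw [key]
  have h7 : |((m + 1) * s - (ω.re - la m)) / (m + 1) / (m + 1)| ≤ η / 2 := by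
    rw [abs_div, abs_div, abs_of_pos hmp0]
    exact (div_le_self (div_nonneg (abs_nonneg _) hmp0.le) hmp).trans ((div_le_self (abs_nonneg _) hmp).trans h6)
  have h8 : |(L - m * (s - cc m)) / (m + 1)| ≤ η / 2 := by
    rw [abs_div, abs_of_pos hmp0]
    exact (div_le_self (abs_nonneg _) hmp).trans h5
  rw [abs_le] at h7 h8 ⊢
  constructor <;> linarith [h7.1, h7.2, h8.1, h8.2]

lemma BB_hasDerivAt (hm : 1 ≤ m) {x : ℝ} (h1 : 0 < x) (h2 : x < Real.pi / m) (t : ℝ) :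
    HasDerivAt (fun t => BB m (ThM m (ln x t))) (((dXi m (ThM m (ln x t)))⁻¹ ^ 2).re) t := by
  have h1' : -(Real.pi / m) < (ln x t).im := by simp [ln]; linarith
  have h2' : (ln x t).im < 0 := by simp [ln]; exact h1
  have hint := ThM_interior hm h1' h2'
  set ζ := ThM m (ln x t) with hζ
  have hslit : 1 - Yf m ζ ∈ Complex.slitPlane := by
    right
    have h3 := mul_im_mem' hm hint.1
    have h4 := Real.sin_neg_of_neg_of_neg_pi_lt h3.2 h3.1
    rw [Complex.sub_im, Yf_im]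
    have := mul_neg_of_pos_of_neg (RR_pos m ζ) h4
    simp
    constructor
    · exact (RR_pos m ζ).ne'
    · exact h4.ne
  have hv0 : vf m ζ ≠ 0 := vf_ne_zero hm hint.1
  have h1Y : 1 - Yf m ζ ≠ 0 := Complex.slitPlane_ne_zero hslit
  have hmC : (m : ℂ) + 1 ≠ 0 := by exact_mod_cast Nat.succ_ne_zero m
  -- derivative of the analytic potential
  have hH : HasDerivAt (fun ζ : ℂ => ζ - Complex.log (1 - Yf m ζ) / (m + 1)) ((dXi m ζ)⁻¹) ζ := by
    have h3 : HasDerivAt (fun ζ : ℂ => 1 - Yf m ζ) (-(m * Yf m ζ)) ζ :=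
      ((hasStrictDerivAt_Yf ζ).hasDerivAt).const_sub 1
    have h4 := ((hasDerivAt_id ζ).sub ((h3.clog hslit).div_const ((m : ℂ) + 1)))
    have h5 : 1 - -(m * Yf m ζ) / (1 - Yf m ζ) / (m + 1) = (dXi m ζ)⁻¹ := by
      unfold dXi
      rw [inv_div]
      have h6 : ((m : ℂ) + 1) * vf m ζ = (m + 1) - Yf m ζ := by unfold vf; field_simp
      rw [eq_div_iff h1Y]
      field_simp
      rw [h6]; ring
    rw [← h5]
    exact h4
  have h6 : HasDerivAt (fun t => ThM m (ln x t)) ((dXi m ζ)⁻¹ * 1) t :=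
    hasDerivAt_comp_real (hasDerivAt_ThM hm h1' h2') (ln_hasDerivAt x t)
  have h7 := hasDerivAt_re (hasDerivAt_comp_real hH h6)
  have h8 : (fun s => ((ThM m (ln x s)) - Complex.log (1 - Yf m (ThM m (ln x s))) / (m + 1)).re)
      = fun t => BB m (ThM m (ln x t)) := by
    funext s
    unfold BB
    have : Complex.log (1 - Yf m (ThM m (ln x s))) / ((m : ℂ) + 1)
        = Complex.log (1 - Yf m (ThM m (ln x s))) / ((m + 1 : ℝ) : ℂ) := by push_cast; rfl
    rw [this, Complex.sub_re, Complex.div_ofReal_re, Complex.log_re]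
  rw [h8] at h7
  have h9 : (dXi m ζ)⁻¹ * ((dXi m ζ)⁻¹ * 1) = (dXi m ζ)⁻¹ ^ 2 := by ring
  rw [h9] at h7
  exact h7

/-- the function on the top edge -/
def VV (m : ℕ) (t : ℝ) : ℝ := (ThM m (ln (Real.pi / m) t)).re

/-- derivative of the function on the top edge -/
def dVV (m : ℕ) (t : ℝ) : ℝ :=
  ((1 + RR m (ThM m (ln (Real.pi / m) t))) / (1 + RR m (ThM m (ln (Real.pi / m) t)) / (m + 1)))⁻¹

lemma top_mem (t : ℝ) : ln (Real.pi / m) t ∈ CM m := by
  constructor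
  · simp [ln]
  · simp [ln]; positivity

lemma top_im (hm : 1 ≤ m) (t : ℝ) : (ThM m (ln (Real.pi / m) t)).im = -(Real.pi / m) := by
  have h1 := ThM_mem hm (top_mem (m := m) t)
  have h2 := Xi_ThM hm (top_mem (m := m) t)
  have hpos : 0 < Real.pi / m := by positivity
  rcases SC_cases h1.1 with h | h | h
  · exfalso
    have h3 : (vf m (ThM m (ln (Real.pi / m) t))).arg = 0 := by
      have h2 := QM_slit hm h1
      rw [vf_bot h] at h2 ⊢
      rw [Complex.ofReal_mem_slitPlane] at h2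
      exact Complex.arg_ofReal_of_nonneg h2.le
    have h4 : (Xi m (ThM m (ln (Real.pi / m) t))).im = -(Real.pi / m) := by rw [h2]; rfl
    rw [Xi_im, h3, h] at h4
    linarith
  · exact h
  · exfalso
    have h4 : (Xi m (ThM m (ln (Real.pi / m) t))).im = -(Real.pi / m) := by rw [h2]; rfl
    have := (Xi_im_mem hm h).1
    linarith

lemma RR_top (t : ℝ) : RR m (ThM m (ln (Real.pi / m) t)) = Real.exp (m * (VV m t - cc m)) := rfl

lemma xi_VV (hm : 1 ≤ m) (t : ℝ) : VV m t + Real.log (1 + Real.exp (m * (VV m t - cc m)) / (m + 1)) = t := by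
  have h2 := Xi_ThM hm (top_mem (m := m) t)
  have h3 : (Xi m (ThM m (ln (Real.pi / m) t))).re = t := by rw [h2]; rfl
  rw [Xi_re, vf_top hm (top_im hm t), Complex.norm_real, Real.norm_eq_abs, abs_of_pos
    (by have := RR_pos m (ThM m (ln (Real.pi / m) t)); positivity)] at h3
  exact h3

lemma continuous_VV (hm : 1 ≤ m) : Continuous (VV m) := by
  unfold VV
  apply Complex.continuous_re.comp
  exact (continuousOn_ThM hm).comp_continuous (continuous_ln _) (fun t => top_mem t)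

lemma VV_hasDerivAt (hm : 1 ≤ m) (t : ℝ) : HasDerivAt (VV m) (dVV m t) t := by
  unfold dVV
  rw [RR_top]
  set s := VV m t with hs
  have hpos : 0 < 1 + Real.exp (m * (s - cc m)) / (m + 1) := by positivity
  have h12 : HasDerivAt (fun s : ℝ => (m : ℝ) * (s - cc m)) m s := by
    simpa using ((hasDerivAt_id s).sub_const (cc m)).const_mul (m : ℝ)
  have h13 := ((h12.exp.div_const ((m : ℝ) + 1)).const_add 1).log hpos.ne'
  have h14 := (hasDerivAt_id s).add h13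
  have h15 : 1 + Real.exp (m * (s - cc m)) * m / (m + 1) / (1 + Real.exp (m * (s - cc m)) / (m + 1))
      = (1 + Real.exp (m * (s - cc m))) / (1 + Real.exp (m * (s - cc m)) / (m + 1)) := by
    have hm2 : (m : ℝ) + 1 ≠ 0 := by positivity
    rw [eq_div_iff hpos.ne', add_mul, div_mul_cancel₀ _ hpos.ne']
    field_simp
    ring
  rw [h15] at h14
  apply HasDerivAt.of_local_left_inverse (f := fun s : ℝ => s + Real.log (1 + Real.exp (m * (s - cc m)) / (m + 1)))
  · exact (continuous_VV hm).continuousAt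
  · exact h14
  · positivity
  · filter_upwards with y
    exact xi_VV hm y

lemma BBtop_hasDerivAt (hm : 1 ≤ m) (t : ℝ) :
    HasDerivAt (fun t => BB m (ThM m (ln (Real.pi / m) t))) (dVV m t ^ 2) t := by
  have h1 : (fun t => BB m (ThM m (ln (Real.pi / m) t)))
      = fun t => VV m t - Real.log (1 + Real.exp (m * (VV m t - cc m))) / (m + 1) := by
    funext t
    unfold BB
    rw [Yf_top hm (top_im hm t)]
    have : ‖(1 : ℂ) - ((-RR m (ThM m (ln (Real.pi / m) t)) : ℝ) : ℂ)‖ = 1 + RR m (ThM m (ln (Real.pi / m) t)) := by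
      rw [show (1 : ℂ) - ((-RR m (ThM m (ln (Real.pi / m) t)) : ℝ) : ℂ) = ((1 + RR m (ThM m (ln (Real.pi / m) t)) : ℝ) : ℂ) by
        push_cast; ring, Complex.norm_real, Real.norm_eq_abs, abs_of_pos
        (by have := RR_pos m (ThM m (ln (Real.pi / m) t)); positivity)]
    rw [this, RR_top]
    rfl
  rw [h1]
  have hV := VV_hasDerivAt hm t
  have h2 : HasDerivAt (fun t => (m : ℝ) * (VV m t - cc m)) (m * dVV m t) t :=
    (hV.sub_const (cc m)).const_mul (m : ℝ)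
  have h3 := hV.sub ((((h2.exp).const_add 1).log (by positivity)).div_const ((m : ℝ) + 1))
  have h4 : dVV m t - Real.exp (m * (VV m t - cc m)) * (m * dVV m t) / (1 + Real.exp (m * (VV m t - cc m))) / (m + 1)
      = dVV m t ^ 2 := by
    have h5 : dVV m t = (1 + Real.exp (m * (VV m t - cc m)) / (m + 1)) / (1 + Real.exp (m * (VV m t - cc m))) := by
      unfold dVV
      rw [RR_top, inv_div]
    set E := Real.exp (m * (VV m t - cc m)) with hE
    have hE0 : 0 < E := Real.exp_pos _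
    rw [h5]
    have hm2 : (m : ℝ) + 1 ≠ 0 := by positivity
    have hE1 : 1 + E ≠ 0 := by positivity
    field_simp
    ring
  rw [← h4]
  exact h3

end

end Pool.Agent.Hhelper25.Biuni
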