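import Mathlib
import Pool.Agent.Hhelper25.Biuni.Model3

/-!
Energy estimates for the model functions.
-/

set_option autoImplicit false

namespace Pool.Agent.Hhelper25.Biuni

open Set Filter Topology MeasureTheory
open scoped ENNReal

noncomputable section

variable {m : ℕ}

/-- derivative of the inverse, main part -/
def dM (m : ℕ) (ω : ℂ) : ℂ := (dXi m (ThM m ω))⁻¹
/-- derivative of the inverse, side part -/
def dS (m : ℕ) (ω : ℂ) : ℂ := (dXi m (ThS m ω))⁻¹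

lemma continuousAt_dXi {ζ : ℂ} (h : vf m ζ ≠ 0) : ContinuousAt (dXi m) ζ := by
  unfold dXi
  exact (continuousAt_const.sub (continuous_Yf m).continuousAt).div (continuous_vf m).continuousAt h

lemma continuousAt_dM (hm : 1 ≤ m) {ω : ℂ} (h1 : -(Real.pi / m) < ω.im) (h2 : ω.im < 0) :
    ContinuousAt (dM m) ω := by
  have hint := ThM_interior hm h1 h2
  unfold dM
  exact (ContinuousAt.comp (continuousAt_dXi (vf_ne_zero hm hint.1))
    (hasDerivAt_ThM hm h1 h2).continuousAt).inv₀ (dXi_ne_zero hm hint.1)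

lemma continuousAt_dS (hm : 1 ≤ m) {ω : ℂ} (h1 : 0 < ω.im) (h2 : ω.im < Real.pi) :
    ContinuousAt (dS m) ω := by
  have hint := ThS_interior hm h1 h2
  unfold dS
  exact (ContinuousAt.comp (continuousAt_dXi (vf_ne_zero hm hint.1))
    (hasDerivAt_ThS hm h1 h2).continuousAt).inv₀ (dXi_ne_zero hm hint.1)

lemma continuous_dVV (hm : 1 ≤ m) : Continuous (dVV m) := by
  unfold dVV
  have h1 : Continuous (fun t => RR m (ThM m (ln (Real.pi / m) t))) := by
    apply (continuous_RR m).comp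
    exact (continuousOn_ThM hm).comp_continuous (continuous_ln _) (fun t => top_mem t)
  apply Continuous.inv₀
  · apply Continuous.div (by fun_prop) (by fun_prop)
    intro t
    have := RR_pos m (ThM m (ln (Real.pi / m) t))
    positivity
  · intro t
    have := RR_pos m (ThM m (ln (Real.pi / m) t))
    positivity

/-- the energy of the flat part -/
def ef (m : ℕ) (T₀ T₁ : ℝ) : ℝ≥0∞ := ∫⁻ t in Ioc T₀ T₁, ENNReal.ofReal (dVV m t ^ 2)
/-- the energy of a slice -/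
def ex (m : ℕ) (T₀ T₁ x : ℝ) : ℝ≥0∞ := ∫⁻ t in Ioc T₀ T₁, ENNReal.ofReal (‖dM m (ln x t)‖ ^ 2)

lemma ef_eq (hm : 1 ≤ m) {T₀ T₁ : ℝ} (h : T₀ ≤ T₁) : ef m T₀ T₁ =
    ENNReal.ofReal (BB m (ThM m (ln (Real.pi / m) T₁)) - BB m (ThM m (ln (Real.pi / m) T₀))) := by
  have hc : Continuous (fun t => dVV m t ^ 2) := (continuous_dVV hm).pow 2
  rw [← intervalIntegral.integral_eq_sub_of_hasDerivAt (fun t _ => BBtop_hasDerivAt hm t)
    (hc.intervalIntegrable _ _), intervalIntegral.integral_of_le h, ofReal_integral_eq_lintegral_ofReal]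
  · rfl
  · exact (hc.integrableOn_Icc).mono_set Ioc_subset_Icc_self
  · exact Eventually.of_forall fun t => sq_nonneg _

lemma ef_lt_top (hm : 1 ≤ m) {T₀ T₁ : ℝ} (h : T₀ ≤ T₁) : ef m T₀ T₁ < ∞ := by
  rw [ef_eq hm h]; exact ENNReal.ofReal_lt_top

lemma le_ex (hm : 1 ≤ m) {x : ℝ} (h1 : 0 < x) (h2 : x < Real.pi / m) {T₀ T₁ : ℝ} (h : T₀ ≤ T₁) :
    ENNReal.ofReal (BB m (ThM m (ln x T₁)) - BB m (ThM m (ln x T₀))) ≤ ex m T₀ T₁ x := by
  have hc : Continuous (fun t => dM m (ln x t)) := by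
    rw [continuous_iff_continuousAt]
    intro t
    have h3 : ContinuousAt (dM m) (ln x t) :=
      continuousAt_dM hm (by simp [ln]; linarith) (by simp [ln]; exact h1)
    exact h3.comp (continuous_ln x).continuousAt
  have hc1 : Continuous (fun t => (dM m (ln x t) ^ 2).re) := Complex.continuous_re.comp (hc.pow 2)
  have hc2 : Continuous (fun t => ‖dM m (ln x t)‖ ^ 2) := hc.norm.pow 2
  rw [← intervalIntegral.integral_eq_sub_of_hasDerivAt (fun t _ => BB_hasDerivAt hm h1 h2 t)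
    (hc1.intervalIntegrable _ _)]
  have h3 : ∫ t in T₀..T₁, (dM m (ln x t) ^ 2).re ≤ ∫ t in T₀..T₁, ‖dM m (ln x t)‖ ^ 2 := by
    apply intervalIntegral.integral_mono_on h (hc1.intervalIntegrable _ _) (hc2.intervalIntegrable _ _)
    intro t _
    refine (Complex.re_le_norm _).trans ?_
    rw [norm_pow]
  refine (ENNReal.ofReal_le_ofReal h3).trans (le_of_eq ?_)
  rw [intervalIntegral.integral_of_le h, ofReal_integral_eq_lintegral_ofReal]
  · rfl
  · exact (hc2.integrableOn_Icc).mono_set Ioc_subset_Icc_self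
  · exact Eventually.of_forall fun t => by positivity

/-- the conservation law: the energy of the flat part does not exceed the energy of a slice, up to
a small error -/
lemma energy_cmp (hm : 1 ≤ m) {η : ℝ} (hη : 0 < η) : ∃ T : ℝ, ∀ T₀ ≤ -T, ∀ T₁ ≥ T,
    T₀ ≤ T₁ → ∀ x : ℝ, 0 < x → x < Real.pi / m → ef m T₀ T₁ ≤ ex m T₀ T₁ x + ENNReal.ofReal η := by
  obtain ⟨A, hA⟩ := BB_left hm (by linarith : 0 < η / 4)
  obtain ⟨B, hB⟩ := BB_right hm (by linarith : 0 < η / 4)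
  refine ⟨max A B, fun T₀ h0 T₁ h1 h01 x hx1 hx2 => ?_⟩
  have hmem : ∀ t, ln x t ∈ CM m := fun t => ⟨by simp [ln]; linarith, by simp [ln]; linarith⟩
  have a1 := hA (ln x T₀) (hmem _) (h0.trans (neg_le_neg (le_max_left _ _)))
  have a2 := hA (ln (Real.pi / m) T₀) (top_mem _) (h0.trans (neg_le_neg (le_max_left _ _)))
  have b1 := hB (ln x T₁) (hmem _) ((le_max_right _ _).trans h1)
  have b2 := hB (ln (Real.pi / m) T₁) (top_mem _) ((le_max_right _ _).trans h1)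
  rw [abs_le] at a1 a2 b1 b2
  have e1 : (ln x T₀).re = T₀ := rfl
  have e2 : (ln (Real.pi / m) T₀).re = T₀ := rfl
  have e3 : (ln x T₁).re = T₁ := rfl
  have e4 : (ln (Real.pi / m) T₁).re = T₁ := rfl
  rw [e1] at a1; rw [e2] at a2; rw [e3] at b1; rw [e4] at b2
  rw [ef_eq hm h01]
  have h2 : BB m (ThM m (ln (Real.pi / m) T₁)) - BB m (ThM m (ln (Real.pi / m) T₀))
      ≤ (BB m (ThM m (ln x T₁)) - BB m (ThM m (ln x T₀))) + η := by linarith [a1.1, a1.2, a2.1, a2.2, b1.1, b1.2, b2.1, b2.2]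
  refine (ENNReal.ofReal_le_ofReal h2).trans ?_
  refine ENNReal.ofReal_add_le.trans ?_
  gcongr
  exact le_ex hm hx1 hx2 h01

/-- the main region -/
def AM (m : ℕ) (T₀ T₁ : ℝ) : Set ℂ := {ω | ω.re ∈ Ioc T₀ T₁ ∧ ω.im ∈ Ioo (-(Real.pi / m)) 0}
/-- the side region -/
def AS (T₁ : ℝ) : Set ℂ := {ω | ω.re ∈ Iic T₁ ∧ ω.im ∈ Ioo 0 Real.pi}

lemma measurableSet_AM (T₀ T₁ : ℝ) : MeasurableSet (AM m T₀ T₁) :=
  (Complex.measurable_re measurableSet_Ioc).inter (Complex.measurable_im measurableSet_Ioo)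

lemma measurableSet_AS (T₁ : ℝ) : MeasurableSet (AS T₁) :=
  (Complex.measurable_re measurableSet_Iic).inter (Complex.measurable_im measurableSet_Ioo)

lemma continuousOn_dM (hm : 1 ≤ m) (T₀ T₁ : ℝ) : ContinuousOn (dM m) (AM m T₀ T₁) :=
  fun _ hω => (continuousAt_dM hm hω.2.1 hω.2.2).continuousWithinAt

lemma continuousOn_dS (hm : 1 ≤ m) (T₁ : ℝ) : ContinuousOn (dS m) (AS T₁) :=
  fun _ hω => (continuousAt_dS hm hω.2.1 hω.2.2).continuousWithinAt

lemma area_main (hm : 1 ≤ m) (T₀ T₁ : ℝ) :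
    ∫⁻ ω in AM m T₀ T₁, ENNReal.ofReal (‖dM m ω‖ ^ 2) = volume (ThM m '' AM m T₀ T₁) := by
  have h := cov (f := ThM m) (f' := dM m) (measurableSet_AM (m := m) T₀ T₁)
    (fun ω hω => hasDerivAt_ThM hm hω.2.1 hω.2.2) (by
      intro a ha b hb hab
      have h1 := Xi_ThM hm (ω := a) ⟨ha.2.1.le, ha.2.2.le⟩
      have h2 := Xi_ThM hm (ω := b) ⟨hb.2.1.le, hb.2.2.le⟩
      rw [← h1, ← h2, hab]) (fun _ => 1)
  simp only [mul_one] at h
  rw [← h, setLIntegral_one]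

lemma area_side (hm : 1 ≤ m) (T₁ : ℝ) :
    ∫⁻ ω in AS T₁, ENNReal.ofReal (‖dS m ω‖ ^ 2) = volume (ThS m '' AS T₁) := by
  have h := cov (f := ThS m) (f' := dS m) (measurableSet_AS T₁)
    (fun ω hω => hasDerivAt_ThS hm hω.2.1 hω.2.2) (by
      intro a ha b hb hab
      have h1 := Xi_ThS hm (ω := a) ⟨ha.2.1.le, ha.2.2.le⟩
      have h2 := Xi_ThS hm (ω := b) ⟨hb.2.1.le, hb.2.2.le⟩
      rw [← h1, ← h2, hab]) (fun _ => 1)
  simp only [mul_one] at h
  rw [← h, setLIntegral_one]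

/-- total area bound -/
lemma area_bound (hm : 1 ≤ m) {η : ℝ} (hη : 0 < η) : ∃ T : ℝ, ∀ T₀ ≤ -T, ∀ T₁ ≥ T,
    (∫⁻ ω in AM m T₀ T₁, ENNReal.ofReal (‖dM m ω‖ ^ 2)) + ∫⁻ ω in AS T₁, ENNReal.ofReal (‖dS m ω‖ ^ 2)
      ≤ ENNReal.ofReal (Real.pi / m * ((T₁ - la m + η) / (m + 1) - (T₀ - η))) := by
  have hmp0 : (0 : ℝ) < m + 1 := by positivity
  obtain ⟨A, hA⟩ := asym_left hm hη
  obtain ⟨B, hB⟩ := asym_right hm hη
  -- bound for `kap`
  obtain ⟨K, hK⟩ : ∃ K : ℝ, ∀ y ∈ Icc (-(Real.pi / m)) 0, kap m y ≤ K := by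
    obtain ⟨K, hK⟩ := (isCompact_Icc (a := -(Real.pi / m)) (b := 0)).bddAbove_image (continuous_kap m).continuousOn
    exact ⟨K, fun y hy => hK ⟨y, hy, rfl⟩⟩
  set K' := max K 1 with hK'
  have hK'0 : 0 < K' := lt_of_lt_of_le one_pos (le_max_right _ _)
  set D := -(cc m + Real.log K'⁻¹ / m) with hD
  refine ⟨max (max A D) ((m + 1) * B + la m), fun T₀ h0 T₁ h1 => ?_⟩
  have hTA : T₀ ≤ -A := h0.trans (neg_le_neg ((le_max_left _ _).trans (le_max_left _ _)))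
  have hTD : T₀ ≤ -D := h0.trans (neg_le_neg ((le_max_right _ _).trans (le_max_left _ _)))
  have hTB : (m + 1) * B + la m ≤ T₁ := (le_max_right _ _).trans h1
  -- bounds for `Re ζ`
  have hhi : ∀ ζ : ℂ, vf m ζ ≠ 0 → (Xi m ζ).re ≤ T₁ → ζ.re ≤ (T₁ - la m + η) / (m + 1) := by
    intro ζ _ h2
    rw [le_div_iff₀ hmp0]
    rcases le_or_gt B ζ.re with h3 | h3
    · have h4 := (hB ζ h3).1
      rw [abs_le] at h4
      rw [Xi_re] at h2
      nlinarith [h4.1]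
    · nlinarith
  have hlo : ∀ ζ : ℂ, T₀ < (Xi m ζ).re → T₀ - η ≤ ζ.re := by
    intro ζ h2
    rcases le_or_gt ζ.re (-A) with h3 | h3
    · have h4 := (hA ζ h3).1
      rw [abs_le] at h4
      rw [Xi_re] at h2
      linarith [h4.2]
    · linarith
  have hside : ∀ ζ : ℂ, ζ ∈ SO m → 1 < RR m ζ * kap m ζ.im → T₀ - η ≤ ζ.re := by
    intro ζ hζ h2
    by_contra hcon
    push Not at hcon
    have h3 : RR m ζ ≤ K'⁻¹ := by
      apply RR_le_of hm (by positivity)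
      rw [hD, neg_neg] at hTD
      linarith
    have h4 : kap m ζ.im ≤ K' := (hK _ ⟨hζ.1.le, hζ.2.le⟩).trans (le_max_left _ _)
    have h5 : RR m ζ * kap m ζ.im ≤ 1 := by
      calc RR m ζ * kap m ζ.im ≤ RR m ζ * K' := mul_le_mul_of_nonneg_left h4 (RR_pos m ζ).le
        _ ≤ K'⁻¹ * K' := mul_le_mul_of_nonneg_right h3 hK'0.le
        _ = 1 := inv_mul_cancel₀ hK'0.ne'
    linarith
  rw [area_main hm, area_side hm]
  set rect : Set ℂ := {ω | ω.re ∈ Icc (T₀ - η) ((T₁ - la m + η) / (m + 1)) ∧ ω.im ∈ Ioo (-(Real.pi / m)) 0} with hrect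
  set P1 : Set ℂ := {ζ | RR m ζ * kap m ζ.im < 1} with hP1
  have hP1m : MeasurableSet P1 :=
    (isOpen_lt ((continuous_RR m).mul ((continuous_kap m).comp Complex.continuous_im)) continuous_const).measurableSet
  have s1 : ThM m '' AM m T₀ T₁ ⊆ rect ∩ P1 := by
    rintro _ ⟨ω, hω, rfl⟩
    have hint := ThM_interior hm hω.2.1 hω.2.2
    have hX := Xi_ThM hm (ω := ω) ⟨hω.2.1.le, hω.2.2.le⟩
    refine ⟨⟨⟨hlo _ ?_, hhi _ (vf_ne_zero hm hint.1) ?_⟩, hint.1⟩, hint.2⟩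
    · rw [hX]; exact hω.1.1
    · rw [hX]; exact hω.1.2
  have s2 : ThS m '' AS T₁ ⊆ rect ∩ P1ᶜ := by
    rintro _ ⟨ω, hω, rfl⟩
    have hint := ThS_interior hm hω.2.1 hω.2.2
    have hX := Xi_ThS hm (ω := ω) ⟨hω.2.1.le, hω.2.2.le⟩
    refine ⟨⟨⟨hside _ hint.1 hint.2, hhi _ (vf_ne_zero hm hint.1) ?_⟩, hint.1⟩, ?_⟩
    · rw [hX]; exact hω.1
    · intro h
      exact lt_asymm h hint.2
  calc volume (ThM m '' AM m T₀ T₁) + volume (ThS m '' AS T₁)
      ≤ volume (rect ∩ P1) + volume (rect ∩ P1ᶜ) := add_le_add (measure_mono s1) (measure_mono s2)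
    _ = volume rect := measure_inter_add_sdiff rect hP1m
    _ = volume (Ioo (-(Real.pi / m)) (0 : ℝ)) * volume (Icc (T₀ - η) ((T₁ - la m + η) / (m + 1))) :=
        volume_rect _ _ measurableSet_Icc measurableSet_Ioo
    _ ≤ _ := by
        rw [Real.volume_Ioo, Real.volume_Icc, ← ENNReal.ofReal_mul (by simp; positivity)]
        apply ENNReal.ofReal_le_ofReal
        simp

/-- slicing of the main region -/
lemma slice_main (hm : 1 ≤ m) (T₀ T₁ : ℝ) :
    ∫⁻ ω in AM m T₀ T₁, ENNReal.ofReal (‖dM m ω‖ ^ 2) = ∫⁻ x in Ioo 0 (Real.pi / m), ex m T₀ T₁ x := by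
  have hF : AEMeasurable (fun ω => ENNReal.ofReal (‖dM m ω‖ ^ 2)) (volume.restrict (AM m T₀ T₁)) := by
    apply ENNReal.measurable_ofReal.comp_aemeasurable
    exact ((continuousOn_dM hm T₀ T₁).norm.pow 2).aemeasurable (measurableSet_AM T₀ T₁)
  have h := slice (I := Ioc T₀ T₁) (J := Ioo (-(Real.pi / m)) 0) measurableSet_Ioc measurableSet_Ioo hF
  unfold AM
  rw [h]
  have h2 : ∫⁻ y in Ioo (-(Real.pi / m)) 0, ∫⁻ t in Ioc T₀ T₁, ENNReal.ofReal (‖dM m ⟨t, y⟩‖ ^ 2)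
      = ∫⁻ y in Ioo (-(Real.pi / m)) 0, ex m T₀ T₁ (-y) := by
    congr 1
    funext y
    unfold ex ln
    simp
  rw [h2]
  have hmp : MeasurePreserving (fun y : ℝ => -y) volume volume := Measure.measurePreserving_neg volume
  have h3 := hmp.setLIntegral_comp_preimage_emb (MeasurableEquiv.neg ℝ).measurableEmbedding
    (fun x => ex m T₀ T₁ x) (Ioo 0 (Real.pi / m))
  rw [← h3]
  congr 2
  ext y
  simp only [mem_Ioo, mem_preimage]
  constructor
  · rintro ⟨h, h'⟩; constructor <;> linarith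
  · rintro ⟨h, h'⟩; constructor <;> linarith

end

end Pool.Agent.Hhelper25.Biuni
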