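import Mathlib

/-!
Asymptotics of a polynomial at `0` and `∞`; exceptional points on rays.
-/

set_option autoImplicit false

namespace Pool.Agent.Hhelper25.Biuni

open Set Filter Topology

noncomputable section

lemma poly_zero {p : Polynomial ℂ} (h0 : p.eval 0 = 0) (h1 : p.derivative.eval 0 = 1) {η : ℝ} (hη : 0 < η) :
    ∃ δ : ℝ, 0 < δ ∧ ∀ z : ℂ, z ≠ 0 → ‖z‖ < δ → p.eval z ≠ 0 ∧ |Real.log ‖p.eval z‖ - Real.log ‖z‖| ≤ η := by
  have hc0 : p.coeff 0 = 0 := by rw [Polynomial.coeff_zero_eq_eval_zero, h0]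
  have hc1 : p.divX.eval 0 = 1 := by
    rw [← Polynomial.coeff_zero_eq_eval_zero, Polynomial.coeff_divX]
    rw [← Polynomial.coeff_zero_eq_eval_zero, Polynomial.coeff_derivative] at h1
    simpa using h1
  have hp : ∀ z : ℂ, p.eval z = z * p.divX.eval z := by
    intro z
    have := congrArg (Polynomial.eval z) (Polynomial.X_mul_divX_add p)
    rw [hc0] at this
    simpa using this.symm
  have hcont : ContinuousAt (fun z => Real.log ‖p.divX.eval z‖) 0 := by
    apply ContinuousAt.log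
    · exact p.divX.continuous.norm.continuousAt
    · rw [hc1]; simp
  have h2 : ∀ᶠ z in 𝓝 (0 : ℂ), |Real.log ‖p.divX.eval z‖| < η := by
    have h3 : Tendsto (fun z => |Real.log ‖p.divX.eval z‖|) (𝓝 0) (𝓝 0) := by
      have h := hcont.abs.tendsto
      simp only [hc1, norm_one, Real.log_one, abs_zero] at h
      exact h
    exact h3.eventually (gt_mem_nhds hη)
  have h4 : ∀ᶠ z in 𝓝 (0 : ℂ), p.divX.eval z ≠ 0 :=
    p.divX.continuous.continuousAt.eventually_ne (by rw [hc1]; exact one_ne_zero)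
  obtain ⟨δ, hδ, h5⟩ := Metric.eventually_nhds_iff.1 (h2.and h4)
  refine ⟨δ, hδ, fun z hz hzδ => ?_⟩
  obtain ⟨h6, h7⟩ := h5 (y := z) (by rwa [dist_zero_right])
  refine ⟨?_, ?_⟩
  · rw [hp z]; exact mul_ne_zero hz h7
  · rw [hp z, norm_mul, Real.log_mul (norm_ne_zero_iff.2 hz) (norm_ne_zero_iff.2 h7), add_sub_cancel_left]
    exact h6.le

lemma poly_infty {p : Polynomial ℂ} (hp : p ≠ 0) {η : ℝ} (hη : 0 < η) :
    ∃ R : ℝ, 0 < R ∧ ∀ z : ℂ, R ≤ ‖z‖ → p.eval z ≠ 0 ∧
      |Real.log ‖p.eval z‖ - (p.natDegree * Real.log ‖z‖ + Real.log ‖p.leadingCoeff‖)| ≤ η := by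
  have ha : p.leadingCoeff ≠ 0 := Polynomial.leadingCoeff_ne_zero.2 hp
  have hr0 : p.reverse.eval 0 = p.leadingCoeff := by
    rw [← Polynomial.coeff_zero_eq_eval_zero, Polynomial.coeff_zero_reverse]
  have hcont : ContinuousAt (fun z => Real.log ‖p.reverse.eval z‖ - Real.log ‖p.leadingCoeff‖) 0 := by
    apply ContinuousAt.sub _ continuousAt_const
    apply ContinuousAt.log
    · exact p.reverse.continuous.norm.continuousAt
    · rw [hr0]; exact norm_ne_zero_iff.2 ha
  have h2 : ∀ᶠ z in 𝓝 (0 : ℂ), |Real.log ‖p.reverse.eval z‖ - Real.log ‖p.leadingCoeff‖| < η := by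
    have h3 : Tendsto (fun z => |Real.log ‖p.reverse.eval z‖ - Real.log ‖p.leadingCoeff‖|) (𝓝 0) (𝓝 0) := by
      have h := hcont.abs.tendsto
      simp only [hr0, sub_self, abs_zero] at h
      exact h
    exact h3.eventually (gt_mem_nhds hη)
  have h4 : ∀ᶠ z in 𝓝 (0 : ℂ), p.reverse.eval z ≠ 0 :=
    p.reverse.continuous.continuousAt.eventually_ne (by rw [hr0]; exact ha)
  obtain ⟨δ, hδ, h5⟩ := Metric.eventually_nhds_iff.1 (h2.and h4)
  refine ⟨2 / δ, by positivity, fun z hz => ?_⟩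
  have hzn : 0 < ‖z‖ := lt_of_lt_of_le (by positivity) hz
  have hz0 : z ≠ 0 := norm_pos_iff.1 hzn
  have hzi : ‖z⁻¹‖ < δ := by
    rw [norm_inv, inv_lt_comm₀ hzn hδ]
    refine lt_of_lt_of_le ?_ hz
    rw [div_eq_mul_inv]
    have : 0 < δ⁻¹ := by positivity
    linarith
  obtain ⟨h6, h7⟩ := h5 (y := z⁻¹) (by rwa [dist_zero_right])
  have hev : p.eval z = p.reverse.eval z⁻¹ * z ^ p.natDegree := by
    let _ := invertibleOfNonzero hz0
    have := Polynomial.eval₂_reverse_mul_pow (RingHom.id ℂ) z p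
    simp only [Polynomial.eval₂_id, invOf_eq_inv] at this
    exact this.symm
  refine ⟨?_, ?_⟩
  · rw [hev]; exact mul_ne_zero h7 (pow_ne_zero _ hz0)
  · rw [hev, norm_mul, norm_pow, Real.log_mul (norm_ne_zero_iff.2 h7) (by positivity), Real.log_pow]
    have : Real.log ‖p.reverse.eval z⁻¹‖ + p.natDegree * Real.log ‖z‖ - (p.natDegree * Real.log ‖z‖ + Real.log ‖p.leadingCoeff‖)
        = Real.log ‖p.reverse.eval z⁻¹‖ - Real.log ‖p.leadingCoeff‖ := by ring
    rw [this]
    exact h6.le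

/-- the point `exp(s + iφ)` -/
def pt (φ s : ℝ) : ℂ := Complex.exp (⟨s, φ⟩ : ℂ)

lemma pt_eq (φ s : ℝ) : pt φ s = (Real.exp s : ℂ) * Complex.exp (φ * Complex.I) := by
  unfold pt
  rw [Complex.ofReal_exp, ← Complex.exp_add]
  congr 1
  apply Complex.ext <;> simp

lemma finite_bad {p : Polynomial ℂ} (h1 : p.derivative.eval 0 = 1) {d : ℂ} {φ : ℝ}
    (hφ : (Complex.exp (φ * Complex.I) * (starRingEnd ℂ) d).im ≠ 0) :
    {s : ℝ | (p.eval (pt φ s) * (starRingEnd ℂ) d).im = 0}.Finite := by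
  set c := Complex.exp (φ * Complex.I) with hc
  set P1 : Polynomial ℂ := (p.comp (Polynomial.C c * Polynomial.X)) * Polynomial.C ((starRingEnd ℂ) d) with hP1
  have hcoef1 : p.coeff 1 = 1 := by
    rw [← Polynomial.coeff_zero_eq_eval_zero, Polynomial.coeff_derivative] at h1
    simpa using h1
  set N := P1.natDegree + 2 with hN
  set Q : Polynomial ℝ := ∑ k ∈ Finset.range N, Polynomial.monomial k ((P1.coeff k).im) with hQ
  have hQe : ∀ r : ℝ, Q.eval r = (P1.eval (r : ℂ)).im := by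
    intro r
    rw [hQ, Polynomial.eval_finsetSum, Polynomial.eval_eq_sum_range' (n := N) (by omega) (r : ℂ), Complex.im_sum]
    apply Finset.sum_congr rfl
    intro k _
    rw [Polynomial.eval_monomial, ← Complex.ofReal_pow, Complex.im_mul_ofReal]
  have hQ1 : Q.coeff 1 = (c * (starRingEnd ℂ) d).im := by
    rw [hQ, Polynomial.finsetSum_coeff]
    rw [Finset.sum_eq_single 1]
    · rw [Polynomial.coeff_monomial, if_pos rfl, hP1, Polynomial.coeff_mul_C, Polynomial.comp_C_mul_X_coeff,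
        hcoef1]
      simp
    · intro k _ hk
      rw [Polynomial.coeff_monomial, if_neg hk]
    · intro h
      exfalso; apply h
      rw [Finset.mem_range]; omega
  have hQ0 : Q ≠ 0 := by
    intro h
    rw [h] at hQ1
    simp only [Polynomial.coeff_zero] at hQ1
    exact hφ hQ1.symm
  have hfin : {r : ℝ | Q.IsRoot r}.Finite := Polynomial.finite_setOfPred_isRoot hQ0
  have h2 : {s : ℝ | (p.eval (pt φ s) * (starRingEnd ℂ) d).im = 0} = Real.exp ⁻¹' {r : ℝ | Q.IsRoot r} := by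
    ext s
    have : Q.eval (Real.exp s) = (p.eval (pt φ s) * (starRingEnd ℂ) d).im := by
      rw [hQe, hP1, Polynomial.eval_mul, Polynomial.eval_comp, Polynomial.eval_C]
      simp only [Polynomial.eval_mul, Polynomial.eval_C, Polynomial.eval_X]
      rw [pt_eq, mul_comm c]
    show _ = 0 ↔ Q.eval (Real.exp s) = 0
    rw [this]
  rw [h2]
  exact hfin.preimage Real.exp_injective.injOn

lemma countable_dir {d : ℂ} (hd : d ≠ 0) :
    {φ : ℝ | (Complex.exp (φ * Complex.I) * (starRingEnd ℂ) d).im = 0}.Countable := by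
  have h1 : {φ : ℝ | (Complex.exp (φ * Complex.I) * (starRingEnd ℂ) d).im = 0}
      ⊆ range (fun k : ℤ => d.arg + k * Real.pi) := by
    intro φ hφ
    have h2 : Complex.exp (φ * Complex.I) * (starRingEnd ℂ) d = (‖d‖ : ℂ) * Complex.exp (((φ - d.arg : ℝ) : ℂ) * Complex.I) := by
      have h3 : (starRingEnd ℂ) d = (‖d‖ : ℂ) * Complex.exp (-(d.arg * Complex.I)) := by
        conv_lhs => rw [← Complex.norm_mul_exp_arg_mul_I d]
        rw [map_mul, Complex.conj_ofReal, ← Complex.exp_conj]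
        simp
      rw [h3, mul_left_comm, ← Complex.exp_add]
      congr 2
      push_cast; ring
    have h4 : (Complex.exp (φ * Complex.I) * (starRingEnd ℂ) d).im = ‖d‖ * Real.sin (φ - d.arg) := by
      rw [h2, Complex.im_ofReal_mul, Complex.exp_ofReal_mul_I_im]
    rw [show (φ ∈ {φ : ℝ | (Complex.exp (φ * Complex.I) * (starRingEnd ℂ) d).im = 0}) = ((Complex.exp (φ * Complex.I) * (starRingEnd ℂ) d).im = 0) from rfl, h4] at hφ
    have h5 : Real.sin (φ - d.arg) = 0 := (mul_eq_zero.1 hφ).resolve_left (norm_ne_zero_iff.2 hd)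
    obtain ⟨k, hk⟩ := Real.sin_eq_zero_iff.1 h5
    exact ⟨k, by simp only; linarith⟩
  exact (countable_range _).mono h1

end

end Pool.Agent.Hhelper25.Biuni
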