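import Mathlib
import Pool.Agent.Hhelper25.Biuni.General
import Pool.Agent.Hhelper25.Biuni.Model4
import Pool.Agent.Hhelper25.Biuni.MainSheet
import Pool.Agent.Hhelper25.Biuni.Poly

/-!
The explicit test function on the plane.
-/

set_option autoImplicit false

namespace Pool.Agent.Hhelper25.Biuni

open Set Filter Topology MeasureTheory
open scoped ENNReal

noncomputable section

/-- unsigned angle between `w` and the direction `e` -/
def ang (w e : ℂ) : ℝ := |(w / e).arg|

lemma ang_nonneg (w e : ℂ) : 0 ≤ ang w e := abs_nonneg _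

lemma ang_le_pi (w e : ℂ) : ang w e ≤ Real.pi := Complex.abs_arg_le_pi _

lemma continuousAt_ang {w e : ℂ} (hw : w ≠ 0) (he : e ≠ 0) : ContinuousAt (fun w => ang w e) w := by
  have h1 : ContinuousAt (fun w : ℂ => InnerProductGeometry.angle w e) w := by
    have h2 := InnerProductGeometry.continuousAt_angle (x := (w, e)) hw he
    exact ContinuousAt.comp (f := fun w : ℂ => (w, e)) h2 (by fun_prop)
  apply h1.congr
  filter_upwards [isOpen_ne.mem_nhds hw] with z hz
  exact Complex.angle_eq_abs_arg hz he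

lemma div_unit {e : ℂ} (he : ‖e‖ = 1) (w : ℂ) : w / e = w * (starRingEnd ℂ) e := by
  have h0 : e ≠ 0 := by rintro rfl; simp at he
  rw [div_eq_iff h0, mul_assoc, mul_comm ((starRingEnd ℂ) e), Complex.mul_conj, Complex.normSq_eq_norm_sq, he]
  simp

lemma hasDerivAt_la {w : ℝ → ℂ} {w' e : ℂ} {s : ℝ} (hw : HasDerivAt w w' s) (he : ‖e‖ = 1)
    (him : (w s * (starRingEnd ℂ) e).im ≠ 0) :
    ∃ d : ℂ, ‖d‖ = ‖w' / w s‖ ∧
      HasDerivAt (fun s => (⟨Real.log ‖w s‖, ang (w s) e⟩ : ℂ)) d s ∧ 0 < ang (w s) e ∧ ang (w s) e < Real.pi := by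
  have he0 : e ≠ 0 := by rintro rfl; simp at he
  rw [← div_unit he] at him
  have hq : HasDerivAt (fun s => w s / e) (w' / e) s := hw.div_const e
  have hsl : w s / e ∈ Complex.slitPlane := Or.inr him
  have hlog := hq.clog_real hsl
  have hd : w' / e / (w s / e) = w' / w s := by field_simp
  rw [hd] at hlog
  have hlogeq : ∀ z : ℂ, Complex.log (z / e) = ⟨Real.log ‖z‖, (z / e).arg⟩ := by
    intro z
    apply Complex.ext
    · rw [Complex.log_re, norm_div, he, div_one]
    · rw [Complex.log_im]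
  have hcont : ContinuousAt (fun s => (w s / e).im) s :=
    Complex.continuous_im.continuousAt.comp hq.continuousAt
  rcases lt_or_gt_of_ne him with h | h
  · refine ⟨(starRingEnd ℂ) (w' / w s), by rw [RCLike.norm_conj], ?_, ?_, ?_⟩
    · have h2 : HasDerivAt (fun s => (starRingEnd ℂ) (Complex.log (w s / e))) ((starRingEnd ℂ) (w' / w s)) s :=
        (Complex.conjCLE.toContinuousLinearMap.hasFDerivAt.comp_hasDerivAt s hlog)
      apply h2.congr_of_eventuallyEq
      filter_upwards [hcont.eventually (gt_mem_nhds h)] with r hr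
      rw [hlogeq]
      apply Complex.ext
      · simp
      · simp only [Complex.conj_im]
        exact abs_of_neg (Complex.arg_neg_iff.2 hr)
    · exact abs_pos.2 (Complex.arg_neg_iff.2 h).ne
    · rw [ang, abs_of_neg (Complex.arg_neg_iff.2 h)]
      have := Complex.neg_pi_lt_arg (w s / e)
      linarith
  · refine ⟨w' / w s, rfl, ?_, ?_, ?_⟩
    · apply hlog.congr_of_eventuallyEq
      filter_upwards [hcont.eventually (lt_mem_nhds h)] with r hr
      rw [hlogeq]
      apply Complex.ext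
      · simp
      · exact abs_of_nonneg (Complex.arg_nonneg_iff.2 hr.le)
    · refine abs_pos.2 ?_
      intro h0
      rw [Complex.arg_eq_zero_iff] at h0
      exact him h0.2
    · rw [ang, abs_of_nonneg (Complex.arg_nonneg_iff.2 h.le)]
      refine lt_of_le_of_ne (Complex.arg_le_pi _) ?_
      intro h0
      rw [Complex.arg_eq_pi_iff] at h0
      exact him h0.2

/-- distance to the set of directions, cut at `π/m` -/
def xx (m : ℕ) (E : Finset ℂ) (hE : E.Nonempty) (w : ℂ) : ℝ := min (E.inf' hE (ang w)) (Real.pi / m)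

variable {m : ℕ} {E : Finset ℂ} {hE : E.Nonempty}

lemma xx_nonneg (w : ℂ) : 0 ≤ xx m E hE w := by
  apply le_min
  · rw [Finset.le_inf'_iff]
    intro e _; exact ang_nonneg _ _
  · positivity

lemma xx_le (w : ℂ) : xx m E hE w ≤ Real.pi / m := min_le_right _ _

lemma xx_le_ang {e : ℂ} (he : e ∈ E) (w : ℂ) : xx m E hE w ≤ ang w e :=
  (min_le_left _ _).trans (Finset.inf'_le _ he)

lemma continuousAt_xx (hE1 : ∀ e ∈ E, ‖e‖ = 1) {w : ℂ} (hw : w ≠ 0) : ContinuousAt (xx m E hE) w := by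
  unfold xx
  refine Filter.Tendsto.min ?_ tendsto_const_nhds
  apply ContinuousAt.finset_inf'_apply (f := fun e w => ang w e)
  intro e he
  refine continuousAt_ang hw ?_
  rintro rfl
  have := hE1 0 he
  simp at this

lemma xx_local (hE1 : ∀ e ∈ E, ‖e‖ = 1) {w : ℂ} (hw : w ≠ 0)
    (hb : ∀ e ∈ E, ∀ e' ∈ E, e ≠ e' → ang w e ≠ ang w e') (hp : ∀ e ∈ E, ang w e ≠ Real.pi / m) :
    (xx m E hE w < Real.pi / m ∧ ∃ e ∈ E, ∀ᶠ z in 𝓝 w, xx m E hE z = ang z e) ∨
      (xx m E hE w = Real.pi / m ∧ ∀ᶠ z in 𝓝 w, xx m E hE z = Real.pi / m) := by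
  have hc : ∀ e ∈ E, ContinuousAt (fun w => ang w e) w := by
    intro e he
    refine continuousAt_ang hw ?_
    rintro rfl
    have := hE1 0 he
    simp at this
  obtain ⟨e0, he0, h0⟩ := Finset.exists_mem_eq_inf' hE (ang w)
  have hmin : ∀ e ∈ E, e ≠ e0 → ang w e0 < ang w e := by
    intro e he hne
    refine lt_of_le_of_ne ?_ (hb e0 he0 e he hne.symm)
    rw [← h0]; exact Finset.inf'_le _ he
  rcases lt_or_gt_of_ne (hp e0 he0) with h | h
  · left
    have hxe : xx m E hE w = ang w e0 := by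
      unfold xx; rw [h0]; exact min_eq_left h.le
    refine ⟨hxe ▸ h, e0, he0, ?_⟩
    have h1 : ∀ᶠ z in 𝓝 w, ∀ e ∈ E, ang z e0 ≤ ang z e := by
      rw [Filter.eventually_all_finset]
      intro e he
      by_cases hee : e = e0
      · rw [hee]; exact Filter.Eventually.of_forall fun _ => le_rfl
      · exact ((hc e0 he0).eventually_lt (hc e he) (hmin e he hee)).mono fun _ h => h.le
    have h2 : ∀ᶠ z in 𝓝 w, ang z e0 < Real.pi / m := (hc e0 he0).eventually (gt_mem_nhds h)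
    filter_upwards [h1, h2] with z hz1 hz2
    apply le_antisymm (xx_le_ang he0 z)
    apply le_min
    · rw [Finset.le_inf'_iff]; exact hz1
    · exact hz2.le
  · right
    have hall : ∀ e ∈ E, Real.pi / m < ang w e := by
      intro e he
      by_cases hee : e = e0
      · rw [hee]; exact h
      · exact h.trans (hmin e he hee)
    refine ⟨?_, ?_⟩
    · unfold xx
      apply min_eq_right
      rw [Finset.le_inf'_iff]
      intro e he; exact (hall e he).le
    · have h1 : ∀ᶠ z in 𝓝 w, ∀ e ∈ E, Real.pi / m < ang z e := by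
        rw [Filter.eventually_all_finset]
        intro e he
        exact (hc e he).eventually (lt_mem_nhds (hall e he))
      filter_upwards [h1] with z hz
      apply min_eq_right
      rw [Finset.le_inf'_iff]
      intro e he; exact (hz e he).le

lemma ang_ne_of_im {w e e' : ℂ} (he : ‖e‖ = 1) (he' : ‖e'‖ = 1) (hw : w ≠ 0)
    (h : (w * (starRingEnd ℂ) (Complex.I * (e - e'))).im ≠ 0) : ang w e ≠ ang w e' := by
  intro heq
  apply h
  have h1 := congrArg Real.cos heq
  have he0 : e ≠ 0 := by rintro rfl; simp at he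
  have he0' : e' ≠ 0 := by rintro rfl; simp at he'
  unfold ang at h1
  rw [Real.cos_abs, Real.cos_abs, Complex.cos_arg (div_ne_zero hw he0), Complex.cos_arg (div_ne_zero hw he0'),
    norm_div, norm_div, he, he', div_one, div_unit he, div_unit he'] at h1
  have hwn : ‖w‖ ≠ 0 := norm_ne_zero_iff.2 hw
  rw [div_left_inj' hwn] at h1
  simp only [Complex.mul_re, Complex.conj_re, Complex.conj_im] at h1
  simp only [map_mul, map_sub, Complex.conj_I, Complex.mul_im, Complex.mul_re, Complex.neg_re, Complex.neg_im,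
    Complex.I_re, Complex.I_im, Complex.sub_re, Complex.sub_im, Complex.conj_re, Complex.conj_im]
  linarith

lemma ang_ne_of_im' {w e : ℂ} (he : ‖e‖ = 1) {θ : ℝ}
    (h1 : (w * (starRingEnd ℂ) (e * Complex.exp ((θ : ℝ) * Complex.I))).im ≠ 0)
    (h2 : (w * (starRingEnd ℂ) (e * Complex.exp (((-θ : ℝ) : ℂ) * Complex.I))).im ≠ 0) : ang w e ≠ θ := by
  have he0 : e ≠ 0 := by rintro rfl; simp at he
  have key : ∀ τ : ℝ, (w / e).arg = τ → (w * (starRingEnd ℂ) (e * Complex.exp ((τ : ℝ) * Complex.I))).im = 0 := by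
    intro τ hτ
    have h3 := Complex.norm_mul_exp_arg_mul_I (w / e)
    rw [hτ] at h3
    have h4 : w = (‖w / e‖ : ℂ) * (e * Complex.exp (τ * Complex.I)) := by
      rw [mul_left_comm, h3]; field_simp
    have h5 : w * (starRingEnd ℂ) (e * Complex.exp (τ * Complex.I)) =
        ((‖w / e‖ * Complex.normSq (e * Complex.exp (τ * Complex.I)) : ℝ) : ℂ) := by
      conv_lhs => rw [h4]
      rw [mul_assoc, Complex.mul_conj]
      push_cast; ring
    rw [h5]; exact Complex.ofReal_im _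
  intro heq
  unfold ang at heq
  rcases abs_eq_abs.1 (show |(w / e).arg| = |θ| by rw [heq, abs_of_nonneg (heq ▸ abs_nonneg _)]) with h | h
  · exact h1 (key θ h)
  · exact h2 (key (-θ) h)

/-- bad directions -/
def Dd (m : ℕ) (E : Finset ℂ) : Set ℂ :=
  (E : Set ℂ) ∪ (fun e => e * Complex.exp (((Real.pi / m : ℝ) : ℂ) * Complex.I)) '' E ∪
    (fun e => e * Complex.exp (((-(Real.pi / m) : ℝ) : ℂ) * Complex.I)) '' E ∪
      (fun q : ℂ × ℂ => Complex.I * (q.1 - q.2)) '' (E.offDiag : Set (ℂ × ℂ))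

lemma finite_Dd : (Dd m E).Finite := by
  unfold Dd
  refine Set.Finite.union (Set.Finite.union (Set.Finite.union ?_ ?_) ?_) ?_
  · exact E.finite_toSet
  · exact E.finite_toSet.image _
  · exact E.finite_toSet.image _
  · exact (Finset.finite_toSet _).image _

lemma Dd_ne_zero (hE1 : ∀ e ∈ E, ‖e‖ = 1) {d : ℂ} (hd : d ∈ Dd m E) : d ≠ 0 := by
  have h0 : ∀ e ∈ E, e ≠ 0 := by
    intro e he h; have := hE1 e he; rw [h] at this; simp at this
  rcases hd with ((hd | ⟨e, he, rfl⟩) | ⟨e, he, rfl⟩) | ⟨q, hq, rfl⟩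
  · exact h0 d hd
  · exact mul_ne_zero (h0 e he) (Complex.exp_ne_zero _)
  · exact mul_ne_zero (h0 e he) (Complex.exp_ne_zero _)
  · refine mul_ne_zero Complex.I_ne_zero (sub_ne_zero.2 ?_)
    exact (Finset.mem_offDiag.1 (Finset.mem_coe.1 hq)).2.2

/-- `w` avoids all the bad directions -/
def Good (m : ℕ) (E : Finset ℂ) (w : ℂ) : Prop := ∀ d ∈ Dd m E, (w * (starRingEnd ℂ) d).im ≠ 0

lemma Good.ne_zero {w : ℂ} (h : Good m E w) (hE : E.Nonempty) : w ≠ 0 := by
  obtain ⟨e, he⟩ := hE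
  rintro rfl
  apply h e (Or.inl (Or.inl (Or.inl he)))
  simp

lemma Good.im_ne {w : ℂ} (h : Good m E w) {e : ℂ} (he : e ∈ E) : (w * (starRingEnd ℂ) e).im ≠ 0 :=
  h e (Or.inl (Or.inl (Or.inl he)))

lemma Good.not_ray {w : ℂ} (h : Good m E w) {e : ℂ} (he : e ∈ E) (r : ℝ) : w ∉ Ray e r := by
  rintro ⟨t, _, rfl⟩
  apply h.im_ne he
  rw [mul_assoc, Complex.mul_conj, ← Complex.ofReal_mul]
  exact Complex.ofReal_im _

lemma Good.local (hE1 : ∀ e ∈ E, ‖e‖ = 1) {w : ℂ} (h : Good m E w) :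
    (xx m E hE w < Real.pi / m ∧ ∃ e ∈ E, ∀ᶠ z in 𝓝 w, xx m E hE z = ang z e) ∨
      (xx m E hE w = Real.pi / m ∧ ∀ᶠ z in 𝓝 w, xx m E hE z = Real.pi / m) := by
  apply xx_local hE1 (h.ne_zero hE)
  · intro e he e' he' hne
    apply ang_ne_of_im (hE1 e he) (hE1 e' he') (h.ne_zero hE)
    apply h
    refine Or.inr ⟨(e, e'), ?_, rfl⟩
    rw [Finset.mem_coe, Finset.mem_offDiag]
    exact ⟨he, he', hne⟩
  · intro e he
    apply ang_ne_of_im' (hE1 e he)
    · exact h _ (Or.inl (Or.inl (Or.inr ⟨e, he, rfl⟩)))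
    · exact h _ (Or.inl (Or.inr ⟨e, he, rfl⟩))

/-- main density -/
def FM (m : ℕ) : ℂ → ℝ≥0∞ :=
  (Complex.im ⁻¹' Ioo (-(Real.pi / m)) 0).indicator (fun ω => ENNReal.ofReal (‖dM m ω‖ ^ 2))

/-- side density -/
def FS (m : ℕ) : ℂ → ℝ≥0∞ :=
  (Complex.im ⁻¹' Ioo 0 Real.pi).indicator (fun ω => ENNReal.ofReal (‖dS m ω‖ ^ 2))

open Classical in
/-- the density in the image plane, main sheet -/
def GM (m : ℕ) (E : Finset ℂ) (hE : E.Nonempty) (w : ℂ) : ℝ≥0∞ :=
  if xx m E hE w < Real.pi / m then FM m (ln (xx m E hE w) (Real.log ‖w‖))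
  else ENNReal.ofReal (dVV m (Real.log ‖w‖) ^ 2)

/-- the density in the image plane, side sheets -/
def GS (m : ℕ) (e w : ℂ) : ℝ≥0∞ := FS m ⟨Real.log ‖w‖, ang w e⟩

/-- main part of the test function, in the image plane -/
def uM (m : ℕ) (E : Finset ℂ) (hE : E.Nonempty) (w : ℂ) : ℝ :=
  (ThM m (ln (xx m E hE w) (Real.log ‖w‖))).re

/-- side part of the test function, in the image plane -/
def uS (m : ℕ) (e w : ℂ) : ℝ := (ThS m ⟨Real.log ‖w‖, ang w e⟩).re

lemma ln_xx_mem (w : ℂ) (t : ℝ) : ln (xx m E hE w) t ∈ CM m := by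
  have h1 := xx_nonneg (m := m) (hE := hE) w
  have h2 := xx_le (m := m) (hE := hE) w
  exact ⟨by simp only [ln]; linarith, by simp only [ln]; linarith⟩

lemma la_ang_mem (w e : ℂ) (t : ℝ) : (⟨t, ang w e⟩ : ℂ) ∈ CS := ⟨ang_nonneg _ _, ang_le_pi _ _⟩

lemma continuousAt_mk {X : Type*} [TopologicalSpace X] {f g : X → ℝ} {x : X} (hf : ContinuousAt f x)
    (hg : ContinuousAt g x) : ContinuousAt (fun y => (⟨f y, g y⟩ : ℂ)) x := by
  have : (fun y => (⟨f y, g y⟩ : ℂ)) = fun y => (f y : ℂ) + g y * Complex.I := by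
    funext y; apply Complex.ext <;> simp
  rw [this]
  exact (Complex.continuous_ofReal.continuousAt.comp hf).add
    ((Complex.continuous_ofReal.continuousAt.comp hg).mul continuousAt_const)

lemma continuousAt_uM (hm : 1 ≤ m) (hE1 : ∀ e ∈ E, ‖e‖ = 1) {w : ℂ} (hw : w ≠ 0) : ContinuousAt (uM m E hE) w := by
  unfold uM
  apply Complex.continuous_re.continuousAt.comp
  have h1 : ContinuousAt (fun w => ln (xx m E hE w) (Real.log ‖w‖)) w := by
    unfold ln
    apply continuousAt_mk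
    · exact (continuous_norm.continuousAt).log (norm_ne_zero_iff.2 hw)
    · exact (continuousAt_xx hE1 hw).neg
  have h2 := (continuousOn_ThM hm) (ln (xx m E hE w) (Real.log ‖w‖)) (ln_xx_mem w _)
  have h3 : Tendsto (fun w => ln (xx m E hE w) (Real.log ‖w‖)) (𝓝 w) (𝓝[CM m] (ln (xx m E hE w) (Real.log ‖w‖))) :=
    tendsto_nhdsWithin_iff.2 ⟨h1, Eventually.of_forall fun z => ln_xx_mem z _⟩
  exact Tendsto.comp h2 h3

lemma continuousAt_uS (hm : 1 ≤ m) {w e : ℂ} (he : ‖e‖ = 1) (hw : w ≠ 0) : ContinuousAt (uS m e) w := by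
  have he0 : e ≠ 0 := by rintro rfl; simp at he
  unfold uS
  apply Complex.continuous_re.continuousAt.comp
  have h1 : ContinuousAt (fun w : ℂ => (⟨Real.log ‖w‖, ang w e⟩ : ℂ)) w := by
    apply continuousAt_mk
    · exact (continuous_norm.continuousAt).log (norm_ne_zero_iff.2 hw)
    · exact continuousAt_ang hw he0
  have h2 := (continuousOn_ThS hm) (⟨Real.log ‖w‖, ang w e⟩ : ℂ) (la_ang_mem w e _)
  have h3 : Tendsto (fun w : ℂ => (⟨Real.log ‖w‖, ang w e⟩ : ℂ)) (𝓝 w) (𝓝[CS] (⟨Real.log ‖w‖, ang w e⟩ : ℂ)) :=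
    tendsto_nhdsWithin_iff.2 ⟨h1, Eventually.of_forall fun z => la_ang_mem z e _⟩
  exact Tendsto.comp h2 h3

lemma sq_re_le (a d : ℂ) : ENNReal.ofReal (((a * d).re) ^ 2) ≤ ENNReal.ofReal (‖a‖ ^ 2) * ENNReal.ofReal (‖d‖ ^ 2) := by
  rw [← ENNReal.ofReal_mul (by positivity)]
  apply ENNReal.ofReal_le_ofReal
  rw [← mul_pow, ← norm_mul, ← sq_abs (a * d).re]
  exact pow_le_pow_left₀ (abs_nonneg _) (Complex.abs_re_le_norm _) 2

/-- derivative estimate for the side part -/
lemma deriv_uS (hm : 1 ≤ m) {w : ℝ → ℂ} {w' e : ℂ} {s : ℝ} (hw : HasDerivAt w w' s) (he : ‖e‖ = 1)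
    (him : (w s * (starRingEnd ℂ) e).im ≠ 0) :
    ∃ v' : ℝ, HasDerivAt (fun s => uS m e (w s)) v' s ∧
      ENNReal.ofReal (v' ^ 2) ≤ GS m e (w s) * ENNReal.ofReal (‖w' / w s‖ ^ 2) := by
  obtain ⟨d, hd1, hd2, h1, h2⟩ := hasDerivAt_la hw he him
  have h3 := hasDerivAt_ThS hm (ω := ⟨Real.log ‖w s‖, ang (w s) e⟩) h1 h2
  have h4 := hasDerivAt_re (hasDerivAt_comp_real (γ := fun s => (⟨Real.log ‖w s‖, ang (w s) e⟩ : ℂ)) h3 hd2)
  refine ⟨_, h4, ?_⟩
  have h5 : GS m e (w s) = ENNReal.ofReal (‖dS m ⟨Real.log ‖w s‖, ang (w s) e⟩‖ ^ 2) := by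
    unfold GS FS
    rw [Set.indicator_of_mem]
    exact ⟨h1, h2⟩
  rw [h5, ← hd1]
  exact sq_re_le _ _

/-- derivative estimate for the main part -/
lemma deriv_uM (hm : 1 ≤ m) (hE1 : ∀ e ∈ E, ‖e‖ = 1) {w : ℝ → ℂ} {w' : ℂ} {s : ℝ} (hw : HasDerivAt w w' s)
    (hg : Good m E (w s)) :
    ∃ v' : ℝ, HasDerivAt (fun s => uM m E hE (w s)) v' s ∧
      ENNReal.ofReal (v' ^ 2) ≤ GM m E hE (w s) * ENNReal.ofReal (‖w' / w s‖ ^ 2) := by
  rcases hg.local (hE := hE) hE1 with ⟨hlt, e, he, hev⟩ | ⟨heq, hev⟩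
  · obtain ⟨d, hd1, hd2, h1, h2⟩ := hasDerivAt_la hw (hE1 e he) (hg.im_ne he)
    have hxe : xx m E hE (w s) = ang (w s) e := hev.self_of_nhds
    have h3 : HasDerivAt (ThM m) (dM m (ln (ang (w s) e) (Real.log ‖w s‖))) (ln (ang (w s) e) (Real.log ‖w s‖)) := by
      apply hasDerivAt_ThM hm
      · simp only [ln]
        rw [hxe] at hlt; linarith
      · simp only [ln]; linarith
    have h4 : HasDerivAt (fun s => ln (ang (w s) e) (Real.log ‖w s‖)) ((starRingEnd ℂ) d) s := by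
      have h5 : HasDerivAt (fun s => (starRingEnd ℂ) (⟨Real.log ‖w s‖, ang (w s) e⟩ : ℂ)) ((starRingEnd ℂ) d) s :=
        (Complex.conjCLE.toContinuousLinearMap.hasFDerivAt.comp_hasDerivAt s hd2)
      exact h5
    have h6 := hasDerivAt_re (hasDerivAt_comp_real (γ := fun s => ln (ang (w s) e) (Real.log ‖w s‖)) h3 h4)
    refine ⟨_, h6.congr_of_eventuallyEq ?_, ?_⟩
    · filter_upwards [hw.continuousAt.eventually hev] with r hr
      unfold uM; rw [hr]
    · have h7 : GM m E hE (w s) = ENNReal.ofReal (‖dM m (ln (ang (w s) e) (Real.log ‖w s‖))‖ ^ 2) := by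
        unfold GM
        rw [if_pos hlt, hxe]
        unfold FM
        rw [Set.indicator_of_mem]
        rw [hxe] at hlt
        exact ⟨by simp only [ln]; linarith, by simp only [ln]; linarith⟩
      rw [h7, ← hd1, ← RCLike.norm_conj (K := ℂ) d]
      exact sq_re_le _ _
  · have hw0 : w s ≠ 0 := hg.ne_zero hE
    have h1 : HasDerivAt (fun s => Real.log ‖w s‖) (w' / w s).re s := by
      obtain ⟨e, he⟩ := hE
      obtain ⟨d, hd1, hd2, -, -⟩ := hasDerivAt_la hw (hE1 e he) (hg.im_ne he)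
      have he0 : e ≠ 0 := by rintro rfl; have := hE1 0 he; simp at this
      have hq : HasDerivAt (fun s => w s / e) (w' / e) s := hw.div_const e
      have him := hg.im_ne he
      rw [← div_unit (hE1 e he)] at him
      have hsl : w s / e ∈ Complex.slitPlane := Or.inr him
      have hlog := hq.clog_real hsl
      have hd : w' / e / (w s / e) = w' / w s := by field_simp
      rw [hd] at hlog
      have h2 := hasDerivAt_re hlog
      apply h2.congr_of_eventuallyEq
      apply Eventually.of_forall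
      intro r
      show Real.log ‖w r‖ = (Complex.log (w r / e)).re
      rw [Complex.log_re, norm_div, hE1 e he, div_one]
    have h2 := (VV_hasDerivAt hm (Real.log ‖w s‖)).comp s h1
    refine ⟨_, h2.congr_of_eventuallyEq ?_, ?_⟩
    · filter_upwards [hw.continuousAt.eventually hev] with r hr
      unfold uM VV; simp only [Function.comp]; rw [hr]
    · have h7 : GM m E hE (w s) = ENNReal.ofReal (dVV m (Real.log ‖w s‖) ^ 2) := by
        unfold GM
        rw [if_neg (by rw [heq]; exact lt_irrefl _)]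
      rw [h7, ← ENNReal.ofReal_mul (by positivity), mul_pow]
      apply ENNReal.ofReal_le_ofReal
      apply mul_le_mul_of_nonneg_left _ (by positivity)
      rw [← sq_abs (w' / w s).re]
      exact pow_le_pow_left₀ (abs_nonneg _) (Complex.abs_re_le_norm _) 2

end

end Pool.Agent.Hhelper25.Biuni
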