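import Mathlib
import Pool.Agent.Hhelper25.Biuni.TestFun

/-!
The test function in the `z`-plane: continuity, derivative along rays, asymptotics.
-/

set_option autoImplicit false

namespace Pool.Agent.Hhelper25.Biuni

open Set Filter Topology MeasureTheory
open scoped ENNReal

noncomputable section

variable {m : ℕ} {p : Polynomial ℂ}

open Classical in
/-- the test function -/
def uu (D : MainData p m) (z : ℂ) : ℝ :=
  if z ∈ D.U then uM m D.E D.ne_E (p.eval z) else uS m (D.lab z) (p.eval z)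

open Classical in
/-- its (squared) density -/
def K2 (D : MainData p m) (z : ℂ) : ℝ≥0∞ :=
  (if z ∈ D.U then GM m D.E D.ne_E (p.eval z) else GS m (D.lab z) (p.eval z)) *
    ENNReal.ofReal (‖p.derivative.eval z * z / p.eval z‖ ^ 2)

lemma uu_of_mem (D : MainData p m) {z : ℂ} (h : z ∈ D.U) : uu D z = uM m D.E D.ne_E (p.eval z) := if_pos h

lemma uu_of_notMem (D : MainData p m) {z : ℂ} (h : z ∉ D.U) : uu D z = uS m (D.lab z) (p.eval z) := if_neg h

lemma K2_of_mem (D : MainData p m) {z : ℂ} (h : z ∈ D.U) : K2 D z = GM m D.E D.ne_E (p.eval z) *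
    ENNReal.ofReal (‖p.derivative.eval z * z / p.eval z‖ ^ 2) := by unfold K2; rw [if_pos h]

lemma K2_of_notMem (D : MainData p m) {z : ℂ} (h : z ∉ D.U) : K2 D z = GS m (D.lab z) (p.eval z) *
    ENNReal.ofReal (‖p.derivative.eval z * z / p.eval z‖ ^ 2) := by unfold K2; rw [if_neg h]

lemma uu_closure (hm : 1 ≤ m) (D : MainData p m) {z : ℂ} (h : z ∈ closure D.U) :
    uu D z = uM m D.E D.ne_E (p.eval z) := by
  by_cases hz : z ∈ D.U
  · exact uu_of_mem D hz
  · rw [uu_of_notMem D hz]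
    obtain ⟨t, ht, hpt⟩ := D.lab_bd z h hz
    have hlE := D.lab_mem z hz
    have he := D.norm_E _ hlE
    have he0 : D.lab z ≠ 0 := by intro h0; rw [h0] at he; simp at he
    have ht0 : 0 < t := by linarith
    have hang : ang (p.eval z) (D.lab z) = 0 := by
      unfold ang
      rw [hpt, mul_div_assoc, div_self he0, mul_one, Complex.arg_ofReal_of_nonneg ht0.le, abs_zero]
    have hxx : xx m D.E D.ne_E (p.eval z) = 0 :=
      le_antisymm (hang ▸ xx_le_ang hlE (p.eval z)) (xx_nonneg _)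
    have hn : ‖p.eval z‖ = t := by
      rw [hpt, norm_mul, he, mul_one, Complex.norm_real, Real.norm_eq_abs, abs_of_pos ht0]
    unfold uS uM
    rw [hang, hxx, hn]
    have h1 : (⟨Real.log t, 0⟩ : ℂ) = (Real.log t : ℂ) := rfl
    have h2 : ln 0 (Real.log t) = (Real.log t : ℂ) := by
      unfold ln; rw [neg_zero]; rfl
    rw [h1, h2, ThM_eq_ThS hm (Real.log_nonneg ht)]

lemma continuousAt_uu (hm : 1 ≤ m) (D : MainData p m) {z : ℂ} (hz : p.eval z ≠ 0) : ContinuousAt (uu D) z := by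
  have hMc : ContinuousAt (fun z => uM m D.E D.ne_E (p.eval z)) z :=
    ContinuousAt.comp (g := uM m D.E D.ne_E) (f := fun z => p.eval z) (continuousAt_uM hm D.norm_E hz)
      p.continuous.continuousAt
  have hSc : ∀ e ∈ D.E, ContinuousAt (fun z => uS m e (p.eval z)) z := fun e he =>
    ContinuousAt.comp (g := uS m e) (f := fun z => p.eval z) (continuousAt_uS hm (D.norm_E e he) hz)
      p.continuous.continuousAt
  -- pieces
  have h1 : ContinuousWithinAt (uu D) (closure D.U) z := by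
    by_cases hzc : z ∈ closure D.U
    · exact (hMc.continuousWithinAt).congr (fun y hy => uu_closure hm D hy) (uu_closure hm D hzc)
    · have : 𝓝[closure D.U] z = ⊥ := by
        rw [← notMem_closure_iff_nhdsWithin_eq_bot, closure_closure]; exact hzc
      unfold ContinuousWithinAt
      rw [this]; exact tendsto_bot
  have h2 : ∀ e ∈ D.E, ContinuousWithinAt (uu D) {z | z ∉ D.U ∧ D.lab z = e} z := by
    intro e he
    by_cases hzc : z ∈ {z | z ∉ D.U ∧ D.lab z = e}
    · refine ((hSc e he).continuousWithinAt).congr (fun y hy => ?_) ?_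
      · rw [uu_of_notMem D hy.1, hy.2]
      · rw [uu_of_notMem D hzc.1, hzc.2]
    · have : 𝓝[{z | z ∉ D.U ∧ D.lab z = e}] z = ⊥ := by
        rw [← notMem_closure_iff_nhdsWithin_eq_bot, (D.lab_closed e he).closure_eq]; exact hzc
      unfold ContinuousWithinAt
      rw [this]; exact tendsto_bot
  have h3 : ContinuousWithinAt (uu D) (⋃ e ∈ D.E, {z | z ∉ D.U ∧ D.lab z = e}) z := by
    unfold ContinuousWithinAt
    have : 𝓝[⋃ e ∈ D.E, {z | z ∉ D.U ∧ D.lab z = e}] z = ⨆ e ∈ D.E, 𝓝[{z | z ∉ D.U ∧ D.lab z = e}] z := by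
      have := nhdsWithin_biUnion (D.E.finite_toSet) (fun e => {z | z ∉ D.U ∧ D.lab z = e}) z
      simpa using this
    rw [this]
    rw [tendsto_iSup]
    intro e
    rw [tendsto_iSup]
    intro he
    exact h2 e he
  have h4 : closure D.U ∪ (⋃ e ∈ D.E, {z | z ∉ D.U ∧ D.lab z = e}) = univ := by
    rw [eq_univ_iff_forall]
    intro y
    by_cases hy : y ∈ D.U
    · exact Or.inl (subset_closure hy)
    · right
      rw [mem_iUnion₂]
      exact ⟨D.lab y, D.lab_mem y hy, hy, rfl⟩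
  have h5 := h1.union h3
  rw [h4, continuousWithinAt_univ] at h5
  exact h5

lemma pt_hasDerivAt (φ s : ℝ) : HasDerivAt (pt φ) (pt φ s) s := by
  unfold pt
  have h1 : HasDerivAt (fun s : ℝ => (⟨s, φ⟩ : ℂ)) 1 s := by
    have : (fun s : ℝ => (⟨s, φ⟩ : ℂ)) = fun s : ℝ => (s : ℂ) + φ * Complex.I := by
      funext y; apply Complex.ext <;> simp
    rw [this]
    exact (Complex.ofRealCLM.hasDerivAt).add_const _
  have h2 := h1.cexp
  rw [mul_one] at h2
  exact h2

lemma norm_pt (φ s : ℝ) : ‖pt φ s‖ = Real.exp s := by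
  unfold pt; rw [Complex.norm_exp]

lemma pt_ne (φ s : ℝ) : pt φ s ≠ 0 := Complex.exp_ne_zero _

lemma deriv_uu (hm : 1 ≤ m) (D : MainData p m) {φ s : ℝ} (hg : Good m D.E (p.eval (pt φ s))) :
    ∃ v' : ℝ, HasDerivAt (fun s => uu D (pt φ s)) v' s ∧ ENNReal.ofReal (v' ^ 2) ≤ K2 D (pt φ s) := by
  have hz := pt_hasDerivAt φ s
  have hw : HasDerivAt (fun s => p.eval (pt φ s)) (p.derivative.eval (pt φ s) * pt φ s) s :=
    hasDerivAt_comp_real (p.hasDerivAt (pt φ s)) hz
  by_cases hU : pt φ s ∈ D.U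
  · obtain ⟨v', h1, h2⟩ := deriv_uM (hE := D.ne_E) hm D.norm_E hw hg
    refine ⟨v', h1.congr_of_eventuallyEq ?_, ?_⟩
    · filter_upwards [hz.continuousAt.eventually (D.isOpen_U.mem_nhds hU)] with r hr
      exact uu_of_mem D hr
    · rw [K2_of_mem D hU]; exact h2
  · have hlE := D.lab_mem _ hU
    have hcl : pt φ s ∉ closure D.U := fun h => hg.not_ray hlE 1 (D.lab_bd _ h hU)
    have h3 : ∀ᶠ z in 𝓝 (pt φ s), z ∉ D.U ∧ D.lab z = D.lab (pt φ s) := by
      have h4 : ∀ᶠ z in 𝓝 (pt φ s), z ∉ closure D.U := isClosed_closure.isOpen_compl.mem_nhds hcl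
      have h5 : ∀ᶠ z in 𝓝 (pt φ s), ∀ e ∈ D.E, e ≠ D.lab (pt φ s) → ¬ (z ∉ D.U ∧ D.lab z = e) := by
        rw [Filter.eventually_all_finset]
        intro e he
        by_cases hee : e = D.lab (pt φ s)
        · exact Eventually.of_forall fun _ h => absurd hee h
        · have := (D.lab_closed e he).isOpen_compl.mem_nhds (x := pt φ s) (fun h => hee h.2.symm)
          filter_upwards [this] with z hz _ hz2
          exact hz hz2
      filter_upwards [h4, h5] with z hz4 hz5
      have hzU : z ∉ D.U := fun h => hz4 (subset_closure h)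
      refine ⟨hzU, ?_⟩
      by_contra hne
      exact hz5 (D.lab z) (D.lab_mem z hzU) hne ⟨hzU, rfl⟩
    obtain ⟨v', h1, h2⟩ := deriv_uS hm hw (D.norm_E _ hlE) (hg.im_ne hlE)
    refine ⟨v', h1.congr_of_eventuallyEq ?_, ?_⟩
    · filter_upwards [hz.continuousAt.eventually h3] with r hr
      rw [uu_of_notMem D hr.1, hr.2]
    · rw [K2_of_notMem D hU]; exact h2

lemma ftc_le {v : ℝ → ℝ} {a b : ℝ} (hab : a ≤ b) (hc : Continuous v) {B : Set ℝ} (hB : B.Countable)
    {k : ℝ → ℝ≥0∞} (hd : ∀ s ∉ B, ∃ v' : ℝ, HasDerivAt v v' s ∧ ENNReal.ofReal (v' ^ 2) ≤ k s) :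
    2 * ENNReal.ofReal (v b - v a) ≤ ∫⁻ s in Ioc a b, (k s + 1) := by
  have hae : ∀ᵐ s ∂(volume.restrict (Ioc a b)), 2 * ENNReal.ofReal |deriv v s| ≤ k s + 1 := by
    have h1 : ∀ᵐ s ∂(volume.restrict (Ioc a b)), s ∉ B := ae_restrict_of_ae (hB.ae_notMem volume)
    filter_upwards [h1] with s hs
    obtain ⟨v', h2, h3⟩ := hd s hs
    rw [h2.deriv]
    refine le_trans ?_ (add_le_add_left h3 1)
    rw [show (2 : ℝ≥0∞) = ENNReal.ofReal 2 by simp, show (1 : ℝ≥0∞) = ENNReal.ofReal 1 by simp,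
      ← ENNReal.ofReal_mul (by norm_num), ← ENNReal.ofReal_add (by positivity) (by norm_num)]
    apply ENNReal.ofReal_le_ofReal
    nlinarith [sq_nonneg (|v'| - 1), sq_abs v']
  have h2 : 2 * ENNReal.ofReal (v b - v a) ≤ 2 * ∫⁻ s in Ioc a b, ENNReal.ofReal |deriv v s| := by
    gcongr
    by_cases htop : ∫⁻ s in Ioc a b, ENNReal.ofReal |deriv v s| = ⊤
    · rw [htop]; exact le_top
    · have hmeas : AEStronglyMeasurable (deriv v) (volume.restrict (Ioc a b)) :=
        (measurable_deriv v).aestronglyMeasurable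
      have hint : Integrable (deriv v) (volume.restrict (Ioc a b)) := by
        refine ⟨hmeas, ?_⟩
        rw [hasFiniteIntegral_iff_norm]
        simpa [Real.norm_eq_abs] using lt_top_iff_ne_top.2 htop
      have h3 : ∫ s in a..b, deriv v s = v b - v a := by
        apply integral_eq_of_hasDerivAt_off_countable_of_le v (deriv v) hab hB hc.continuousOn
        · intro x hx
          obtain ⟨v', h4, -⟩ := hd x hx.2
          rw [h4.deriv]; exact h4
        · rw [intervalIntegrable_iff_integrableOn_Ioc_of_le hab]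
          exact hint
      rw [← h3, intervalIntegral.integral_of_le hab]
      calc ENNReal.ofReal (∫ s in Ioc a b, deriv v s) ≤ ENNReal.ofReal (∫ s in Ioc a b, |deriv v s|) := by
            apply ENNReal.ofReal_le_ofReal
            exact integral_mono hint hint.abs fun s => le_abs_self _
        _ = ∫⁻ s in Ioc a b, ENNReal.ofReal |deriv v s| :=
            ofReal_integral_eq_lintegral_ofReal hint.abs (Eventually.of_forall fun _ => abs_nonneg _)
  refine h2.trans ?_
  rw [← lintegral_const_mul' _ _ (by norm_num)]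
  exact lintegral_mono_ae hae

lemma ray_le (hm : 1 ≤ m) (h1 : p.derivative.eval 0 = 1) (D : MainData p m) {φ : ℝ}
    (hφ1 : ∀ d ∈ Dd m D.E, (Complex.exp (φ * Complex.I) * (starRingEnd ℂ) d).im ≠ 0)
    (hφ2 : ∀ s, p.eval (pt φ s) ≠ 0) {s₀ s₁ : ℝ} (h : s₀ ≤ s₁) :
    2 * ENNReal.ofReal (uu D (pt φ s₁) - uu D (pt φ s₀)) ≤ ∫⁻ s in Ioc s₀ s₁, (K2 D (pt φ s) + 1) := by
  have hc : Continuous (fun s => uu D (pt φ s)) := by
    rw [continuous_iff_continuousAt]
    intro s
    exact (continuousAt_uu hm D (hφ2 s)).comp (pt_hasDerivAt φ s).continuousAt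
  have hB : (⋃ d ∈ Dd m D.E, {s : ℝ | (p.eval (pt φ s) * (starRingEnd ℂ) d).im = 0}).Countable := by
    apply Set.Finite.countable
    apply Set.Finite.biUnion finite_Dd
    intro d hd
    exact finite_bad h1 (hφ1 d hd)
  apply ftc_le h hc hB
  intro s hs
  apply deriv_uu hm D
  intro d hd hd0
  apply hs
  rw [mem_iUnion₂]
  exact ⟨d, hd, hd0⟩

lemma countable_roots (hp : p ≠ 0) : {φ : ℝ | ∃ s, p.eval (pt φ s) = 0}.Countable := by
  have h1 : {φ : ℝ | ∃ s, p.eval (pt φ s) = 0} ⊆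
      ⋃ z ∈ (p.roots.toFinset : Set ℂ), range (fun n : ℤ => z.arg + n * (2 * Real.pi)) := by
    rintro φ ⟨s, hs⟩
    rw [mem_iUnion₂]
    refine ⟨pt φ s, ?_, ?_⟩
    · rw [Finset.mem_coe, Multiset.mem_toFinset, Polynomial.mem_roots hp]; exact hs
    · have h2 : Complex.exp (⟨s, φ⟩ : ℂ) = Complex.exp (Complex.log (pt φ s)) := by
        rw [Complex.exp_log (pt_ne φ s)]; rfl
      rw [Complex.exp_eq_exp_iff_exists_int] at h2
      obtain ⟨n, hn⟩ := h2
      refine ⟨n, ?_⟩
      have := congrArg Complex.im hn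
      simp [Complex.log_im] at this
      simp only
      linarith
  refine Set.Countable.mono h1 ?_
  apply Set.Countable.biUnion (Finset.countable_toSet _)
  intro z _
  exact countable_range _

lemma countable_badφ (hp : p ≠ 0) (D : MainData p m) :
    {φ : ℝ | ¬ ((∀ d ∈ Dd m D.E, (Complex.exp (φ * Complex.I) * (starRingEnd ℂ) d).im ≠ 0) ∧
      (∀ s, p.eval (pt φ s) ≠ 0))}.Countable := by
  have h1 : {φ : ℝ | ¬ ((∀ d ∈ Dd m D.E, (Complex.exp (φ * Complex.I) * (starRingEnd ℂ) d).im ≠ 0) ∧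
      (∀ s, p.eval (pt φ s) ≠ 0))} ⊆
      (⋃ d ∈ Dd m D.E, {φ : ℝ | (Complex.exp (φ * Complex.I) * (starRingEnd ℂ) d).im = 0}) ∪
        {φ : ℝ | ∃ s, p.eval (pt φ s) = 0} := by
    intro φ hφ
    rw [mem_ofPred_eq, not_and_or] at hφ
    rcases hφ with h | h
    · push Not at h
      obtain ⟨d, hd, h⟩ := h
      left; rw [mem_iUnion₂]; exact ⟨d, hd, h⟩
    · push Not at h
      exact Or.inr h
  refine Set.Countable.mono h1 ?_
  refine Set.Countable.union ?_ (countable_roots hp)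
  apply Set.Countable.biUnion finite_Dd.countable
  intro d hd
  exact countable_dir (Dd_ne_zero D.norm_E hd)

end

end Pool.Agent.Hhelper25.Biuni
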