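import Mathlib
import Pool.Agent.Hhelper25.Biuni.TestFun2

/-!
Asymptotics of the test function.
-/

set_option autoImplicit false

namespace Pool.Agent.Hhelper25.Biuni

open Set Filter Topology MeasureTheory
open scoped ENNReal

noncomputable section

variable {m : ℕ} {p : Polynomial ℂ}

lemma eval_zero_of (D : MainData p m) (h0 : p.eval 0 = 0) {z : ℂ} (hz : z ∈ D.U) (hz0 : z ≠ 0) : p.eval z ≠ 0 := by
  intro h
  exact hz0 (D.inj hz D.zero_mem (h.trans h0.symm))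

lemma uu_small (hm : 1 ≤ m) (D : MainData p m) (h0 : p.eval 0 = 0) (h1 : p.derivative.eval 0 = 1)
    {η : ℝ} (hη : 0 < η) : ∃ S : ℝ, ∀ s ≤ -S, ∀ φ : ℝ, uu D (pt φ s) ≤ s + 2 * η := by
  obtain ⟨δ, hδ, hδ2⟩ := poly_zero h0 h1 hη
  obtain ⟨T, hT⟩ := ThM_left hm hη
  obtain ⟨r, hr, hrU⟩ := Metric.isOpen_iff.1 D.isOpen_U 0 D.zero_mem
  refine ⟨max (T + η) (1 - Real.log (min δ r)), fun s hs φ => ?_⟩
  have hs1 : s + η ≤ -T := by
    have := le_max_left (T + η) (1 - Real.log (min δ r)); linarith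
  have hs2 : s < Real.log (min δ r) := by
    have := le_max_right (T + η) (1 - Real.log (min δ r)); linarith
  have hes : Real.exp s < min δ r := by
    rwa [Real.lt_log_iff_exp_lt (lt_min hδ hr)] at hs2
  have hnz : ‖pt φ s‖ = Real.exp s := norm_pt φ s
  have hU : pt φ s ∈ D.U := by
    apply hrU
    rw [Metric.mem_ball, dist_zero_right, hnz]
    exact hes.trans_le (min_le_right _ _)
  obtain ⟨h2, h3⟩ := hδ2 (pt φ s) (pt_ne φ s) (by rw [hnz]; exact hes.trans_le (min_le_left _ _))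
  rw [hnz, Real.log_exp, abs_le] at h3
  rw [uu_of_mem D hU]
  unfold uM
  have h4 := hT (ln (xx m D.E D.ne_E (p.eval (pt φ s))) (Real.log ‖p.eval (pt φ s)‖)) (ln_xx_mem _ _)
    (by simp only [ln]; linarith)
  rw [abs_le] at h4
  simp only [ln] at h4 ⊢
  linarith [h4.2]

lemma uu_large (hm : 1 ≤ m) (D : MainData p m) (hdeg : p.natDegree = m + 1)
    {η : ℝ} (hη : 0 < η) : ∃ S : ℝ, ∀ s ≥ S, ∀ φ : ℝ,
      s + (Real.log ‖p.leadingCoeff‖ - la m) / (m + 1) - η ≤ uu D (pt φ s) := by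
  have hp : p ≠ 0 := by rintro rfl; simp at hdeg
  obtain ⟨R, hR, hR2⟩ := poly_infty hp hη
  obtain ⟨T, hTM, hTS⟩ := Th_right hm hη
  have hm0 : (0 : ℝ) < (m : ℝ) + 1 := by positivity
  have hm1 : (1 : ℝ) ≤ m := by exact_mod_cast hm
  refine ⟨max (Real.log R) ((T + η - Real.log ‖p.leadingCoeff‖) / (m + 1)), fun s hs φ => ?_⟩
  have hs1 : Real.log R ≤ s := (le_max_left _ _).trans hs
  have hs2 : (T + η - Real.log ‖p.leadingCoeff‖) / (m + 1) ≤ s := (le_max_right _ _).trans hs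
  rw [div_le_iff₀ hm0] at hs2
  have hnz : ‖pt φ s‖ = Real.exp s := norm_pt φ s
  obtain ⟨h2, h3⟩ := hR2 (pt φ s) (by rw [hnz]; rwa [← Real.log_le_iff_le_exp hR])
  rw [hnz, Real.log_exp, hdeg, abs_le] at h3
  push_cast at h3
  have hlog : T ≤ Real.log ‖p.eval (pt φ s)‖ := by linarith [h3.1, mul_comm s ((m : ℝ) + 1)]
  have goal' : ∀ u : ℝ, |((m : ℝ) + 1) * u - (Real.log ‖p.eval (pt φ s)‖ - la m)| ≤ η →
      s + (Real.log ‖p.leadingCoeff‖ - la m) / (m + 1) - η ≤ u := by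
    intro u hu
    rw [abs_le] at hu
    have h5 : ((m : ℝ) + 1) * s + Real.log ‖p.leadingCoeff‖ - la m - 2 * η ≤ ((m : ℝ) + 1) * u := by
      linarith [hu.1, h3.1]
    have h6 : ((m : ℝ) + 1) * (s + (Real.log ‖p.leadingCoeff‖ - la m) / (m + 1) - η) ≤ ((m : ℝ) + 1) * u := by
      refine le_trans ?_ h5
      have : ((m : ℝ) + 1) * (s + (Real.log ‖p.leadingCoeff‖ - la m) / (m + 1) - η) =
          ((m : ℝ) + 1) * s + Real.log ‖p.leadingCoeff‖ - la m - ((m : ℝ) + 1) * η := by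
        field_simp
        ring
      rw [this]
      nlinarith
    exact le_of_mul_le_mul_left h6 hm0
  apply goal'
  by_cases hU : pt φ s ∈ D.U
  · rw [uu_of_mem D hU]
    exact hTM (ln (xx m D.E D.ne_E (p.eval (pt φ s))) (Real.log ‖p.eval (pt φ s)‖)) (ln_xx_mem _ _)
      (by simp only [ln]; exact hlog)
  · rw [uu_of_notMem D hU]
    exact hTS ⟨Real.log ‖p.eval (pt φ s)‖, ang (p.eval (pt φ s)) (D.lab (pt φ s))⟩ (la_ang_mem _ _ _) hlog

lemma range_low (D : MainData p m) (h0 : p.eval 0 = 0) {η : ℝ} (hη : 0 < η) :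
    ∃ S : ℝ, ∀ s ≤ -S, ∀ z ∈ D.U, z ≠ 0 → s < Real.log ‖z‖ → s - η < Real.log ‖p.eval z‖ := by
  obtain ⟨δ, hδ, hδ2⟩ := D.small η hη
  refine ⟨-Real.log δ, fun s hs z hz hz0 hsz => ?_⟩
  have hpz : p.eval z ≠ 0 := eval_zero_of D h0 hz hz0
  have hpn : 0 < ‖p.eval z‖ := norm_pos_iff.2 hpz
  have hzn : 0 < ‖z‖ := norm_pos_iff.2 hz0
  by_cases h : ‖p.eval z‖ < δ
  · have h2 := hδ2 z hz h
    have h3 : Real.log ‖z‖ ≤ Real.log (1 + η) + Real.log ‖p.eval z‖ := by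
      rw [← Real.log_mul (by positivity) hpn.ne']
      exact Real.log_le_log hzn h2
    have h4 : Real.log (1 + η) ≤ η := by
      have := Real.log_le_sub_one_of_pos (show 0 < 1 + η by positivity)
      linarith
    linarith
  · push Not at h
    have h5 := Real.log_le_log hδ h
    linarith

lemma range_high (hdeg : p.natDegree = m + 1) {η : ℝ} (hη : 0 < η) :
    ∃ S : ℝ, ∀ s ≥ S, ∀ z : ℂ, ‖z‖ ≤ Real.exp s →
      Real.log ‖p.eval z‖ ≤ (m + 1) * s + Real.log ‖p.leadingCoeff‖ + η := by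
  have hp : p ≠ 0 := by rintro rfl; simp at hdeg
  obtain ⟨R, hR, hR2⟩ := poly_infty hp hη
  have hm0 : (0 : ℝ) < (m : ℝ) + 1 := by positivity
  obtain ⟨C, hC⟩ := (isCompact_closedBall (0 : ℂ) R).exists_bound_of_continuousOn p.continuous.continuousOn
  refine ⟨(Real.log (max C 1) - Real.log ‖p.leadingCoeff‖) / (m + 1), fun s hs z hz => ?_⟩
  rw [ge_iff_le, div_le_iff₀ hm0] at hs
  by_cases h : R ≤ ‖z‖
  · have h2 := (hR2 z h).2
    rw [hdeg, abs_le] at h2
    push_cast at h2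
    have hzn : 0 < ‖z‖ := hR.trans_le h
    have h3 : Real.log ‖z‖ ≤ s := by rwa [Real.log_le_iff_le_exp hzn]
    nlinarith [h2.2]
  · push Not at h
    have h2 := hC z (by rw [Metric.mem_closedBall, dist_zero_right]; exact h.le)
    have h3 : Real.log ‖p.eval z‖ ≤ Real.log (max C 1) := by
      by_cases h4 : p.eval z = 0
      · rw [h4, norm_zero, Real.log_zero]
        exact Real.log_nonneg (le_max_right _ _)
      · exact Real.log_le_log (norm_pos_iff.2 h4) (h2.trans (le_max_left _ _))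
    linarith [mul_comm s ((m : ℝ) + 1)]

end

end Pool.Agent.Hhelper25.Biuni
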