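import Mathlib
import Pool.Agent.Hhelper25.Biuni.Asym

/-!
Circle integrals of functions of the unsigned angle; measurability of the densities.
-/

set_option autoImplicit false

namespace Pool.Agent.Hhelper25.Biuni

open Set Filter Topology MeasureTheory
open scoped ENNReal

noncomputable section

lemma periodic_lintegral {f : ℝ → ℝ≥0∞} (hf : Function.Periodic f (2 * Real.pi)) (a b : ℝ) :
    ∫⁻ x in Ioc a (a + 2 * Real.pi), f x = ∫⁻ x in Ioc b (b + 2 * Real.pi), f x := by
  have : Fact (0 < 2 * Real.pi) := ⟨Real.two_pi_pos⟩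
  have h1 := AddCircle.lintegral_preimage (2 * Real.pi) a hf.lift
  have h2 := AddCircle.lintegral_preimage (2 * Real.pi) b hf.lift
  simp only [Function.Periodic.lift_coe] at h1 h2
  rw [h1, h2]

lemma rot {g : ℂ → ℝ≥0∞} {e : ℂ} (he : ‖e‖ = 1) :
    ∫⁻ θ in Ioc (-Real.pi) Real.pi, g (Complex.exp ((θ : ℝ) * Complex.I) / e) =
      ∫⁻ θ in Ioc (-Real.pi) Real.pi, g (Complex.exp ((θ : ℝ) * Complex.I)) := by
  set α := e.arg with hα
  have he2 : e = Complex.exp (α * Complex.I) := by
    have := Complex.norm_mul_exp_arg_mul_I e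
    rw [he] at this
    simpa using this.symm
  have h1 : ∀ θ : ℝ, Complex.exp (θ * Complex.I) / e = Complex.exp (((θ - α : ℝ) : ℂ) * Complex.I) := by
    intro θ
    rw [he2, ← Complex.exp_sub]
    congr 1
    push_cast; ring
  simp_rw [h1]
  set G : ℝ → ℝ≥0∞ := fun θ => g (Complex.exp ((θ : ℝ) * Complex.I)) with hG
  have hper : Function.Periodic G (2 * Real.pi) := by
    intro x
    simp only [hG]
    congr 1
    rw [Complex.exp_eq_exp_iff_exists_int]
    exact ⟨1, by push_cast; ring⟩
  have h2 : ∫⁻ θ in Ioc (-Real.pi) Real.pi, G (θ - α) = ∫⁻ θ in Ioc (-Real.pi - α) (-Real.pi - α + 2 * Real.pi), G θ := by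
    rw [← lintegral_indicator measurableSet_Ioc, ← lintegral_indicator measurableSet_Ioc,
      ← lintegral_sub_right_eq_self (fun θ => (Ioc (-Real.pi - α) (-Real.pi - α + 2 * Real.pi)).indicator G θ) α]
    congr 1
    funext θ
    by_cases h : θ ∈ Ioc (-Real.pi) Real.pi
    · rw [indicator_of_mem h, indicator_of_mem]
      exact ⟨by linarith [h.1], by linarith [h.2]⟩
    · rw [indicator_of_notMem h, indicator_of_notMem]
      intro h2
      exact h ⟨by linarith [h2.1], by linarith [h2.2]⟩
  have h3 : ∫⁻ θ in Ioc (-Real.pi) Real.pi, G θ = ∫⁻ θ in Ioc (-Real.pi) (-Real.pi + 2 * Real.pi), G θ := by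
    congr 3; ring
  show ∫⁻ θ in Ioc (-Real.pi) Real.pi, G (θ - α) = ∫⁻ θ in Ioc (-Real.pi) Real.pi, G θ
  rw [h2, h3]
  exact periodic_lintegral hper _ _

lemma circ {h : ℝ → ℝ≥0∞} {e : ℂ} (he : ‖e‖ = 1) :
    ∫⁻ θ in Ioc (-Real.pi) Real.pi, h (ang (Complex.exp ((θ : ℝ) * Complex.I)) e) =
      2 * ∫⁻ x in Ioo 0 Real.pi, h x := by
  have h1 := rot (g := fun w => h |w.arg|) he
  unfold ang
  rw [h1]
  have h2 : ∫⁻ θ in Ioc (-Real.pi) Real.pi, h |(Complex.exp ((θ : ℝ) * Complex.I)).arg| =
      ∫⁻ θ in Ioc (-Real.pi) Real.pi, h |θ| := by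
    apply setLIntegral_congr_fun measurableSet_Ioc
    intro θ hθ
    simp only
    rw [Complex.exp_mul_I, Complex.arg_cos_add_sin_mul_I hθ]
  rw [h2]
  have hpi := Real.pi_pos
  have h3 : Ioc (-Real.pi) Real.pi = Ioc (-Real.pi) 0 ∪ Ioc 0 Real.pi :=
    (Ioc_union_Ioc_eq_Ioc (by linarith) hpi.le).symm
  have hdisj : Disjoint (Ioc (-Real.pi) 0) (Ioc 0 Real.pi) := by
    rw [Set.disjoint_left]; intro x h1 h2; linarith [h1.2, h2.1]
  rw [h3, lintegral_union measurableSet_Ioc hdisj]
  have h4 : ∫⁻ θ in Ioc 0 Real.pi, h |θ| = ∫⁻ x in Ioo 0 Real.pi, h x := by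
    rw [setLIntegral_congr (Ioo_ae_eq_Ioc (μ := volume) (a := (0 : ℝ)) (b := Real.pi)).symm]
    apply setLIntegral_congr_fun measurableSet_Ioo
    intro θ hθ
    simp only
    rw [abs_of_pos hθ.1]
  have h5 : ∫⁻ θ in Ioc (-Real.pi) 0, h |θ| = ∫⁻ x in Ioo 0 Real.pi, h x := by
    rw [setLIntegral_congr (Ioo_ae_eq_Ioc (μ := volume) (a := -Real.pi) (b := (0 : ℝ))).symm]
    rw [← lintegral_indicator measurableSet_Ioo, ← lintegral_indicator measurableSet_Ioo,
      ← lintegral_neg_eq_self]
    congr 1
    funext θ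
    by_cases hθ : θ ∈ Ioo 0 Real.pi
    · rw [indicator_of_mem hθ, indicator_of_mem, abs_neg, abs_of_pos hθ.1]
      exact ⟨by linarith [hθ.2], by linarith [hθ.1]⟩
    · rw [indicator_of_notMem hθ, indicator_of_notMem]
      intro h2
      exact hθ ⟨by linarith [h2.2], by linarith [h2.1]⟩
  rw [h4, h5, two_mul]

variable {m : ℕ} {p : Polynomial ℂ}

lemma measurable_FM (hm : 1 ≤ m) : Measurable (FM m) := by
  classical
  have hS : MeasurableSet (Complex.im ⁻¹' Ioo (-(Real.pi / m)) 0) := Complex.measurable_im measurableSet_Ioo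
  have h1 : ContinuousOn (fun ω => ENNReal.ofReal (‖dM m ω‖ ^ 2)) (Complex.im ⁻¹' Ioo (-(Real.pi / m)) 0) := by
    intro ω hω
    have h2 := (continuousAt_dM hm hω.1 hω.2)
    exact (ENNReal.continuous_ofReal.continuousAt.comp ((h2.norm).pow 2)).continuousWithinAt
  have h3 := h1.measurable_piecewise (g := fun _ => (0 : ℝ≥0∞)) continuousOn_const hS
  unfold FM
  rw [← Set.piecewise_eq_indicator]
  exact h3

lemma measurable_FS (hm : 1 ≤ m) : Measurable (FS m) := by
  classical
  have hS : MeasurableSet (Complex.im ⁻¹' Ioo 0 Real.pi) := Complex.measurable_im measurableSet_Ioo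
  have h1 : ContinuousOn (fun ω => ENNReal.ofReal (‖dS m ω‖ ^ 2)) (Complex.im ⁻¹' Ioo 0 Real.pi) := by
    intro ω hω
    have h2 := (continuousAt_dS hm hω.1 hω.2)
    exact (ENNReal.continuous_ofReal.continuousAt.comp ((h2.norm).pow 2)).continuousWithinAt
  have h3 := h1.measurable_piecewise (g := fun _ => (0 : ℝ≥0∞)) continuousOn_const hS
  unfold FS
  rw [← Set.piecewise_eq_indicator]
  exact h3

lemma measurable_mk' {X : Type*} [MeasurableSpace X] {f g : X → ℝ} (hf : Measurable f) (hg : Measurable g) :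
    Measurable (fun x => (⟨f x, g x⟩ : ℂ)) := by
  have : (fun y => (⟨f y, g y⟩ : ℂ)) = fun y => (f y : ℂ) + g y * Complex.I := by
    funext y; apply Complex.ext <;> simp
  rw [this]
  fun_prop

lemma measurable_ang (e : ℂ) : Measurable (fun w => ang w e) := by
  unfold ang
  exact measurable_norm.comp (Complex.measurable_arg.comp (measurable_id.div_const e))

lemma measurable_xx {E : Finset ℂ} (hE : E.Nonempty) : Measurable (xx m E hE) := by
  unfold xx
  refine Measurable.min ?_ measurable_const
  have h : Measurable (E.inf' hE (fun e w => ang w e)) :=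
    Finset.measurable_sup' (α := ℝᵒᵈ) hE fun e _ => measurable_ang e
  have h2 : (fun w => E.inf' hE (ang w)) = E.inf' hE (fun e w => ang w e) := by
    funext w; rw [Finset.inf'_apply]
  rw [h2]; exact h

lemma measurable_lognorm : Measurable (fun w : ℂ => Real.log ‖w‖) :=
  Real.measurable_log.comp measurable_norm

lemma measurable_GM (hm : 1 ≤ m) {E : Finset ℂ} (hE : E.Nonempty) : Measurable (GM m E hE) := by
  unfold GM
  apply Measurable.ite
  · exact (measurable_xx hE) measurableSet_Iio
  · apply (measurable_FM hm).comp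
    unfold ln
    exact measurable_mk' measurable_lognorm (measurable_xx hE).neg
  · exact ENNReal.measurable_ofReal.comp (((continuous_dVV hm).measurable.comp measurable_lognorm).pow_const 2)

lemma measurable_GS (hm : 1 ≤ m) (e : ℂ) : Measurable (GS m e) := by
  unfold GS
  apply (measurable_FS hm).comp
  exact measurable_mk' measurable_lognorm (measurable_ang e)

lemma measurable_K2 (hm : 1 ≤ m) (D : MainData p m) : Measurable (K2 D) := by
  classical
  have h1 : K2 D = fun z => (D.U.indicator (fun z => GM m D.E D.ne_E (p.eval z)) z +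
      ∑ e ∈ D.E, ({z | z ∉ D.U ∧ D.lab z = e}).indicator (fun z => GS m e (p.eval z)) z) *
        ENNReal.ofReal (‖p.derivative.eval z * z / p.eval z‖ ^ 2) := by
    funext z
    by_cases hz : z ∈ D.U
    · rw [K2_of_mem D hz, indicator_of_mem hz]
      congr 1
      rw [Finset.sum_eq_zero, add_zero]
      intro e he
      rw [indicator_of_notMem]
      exact fun h => h.1 hz
    · rw [K2_of_notMem D hz, indicator_of_notMem hz, zero_add]
      congr 1
      rw [Finset.sum_eq_single (D.lab z)]
      · rw [indicator_of_mem]; exact ⟨hz, rfl⟩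
      · intro e he hne
        rw [indicator_of_notMem]
        exact fun h => hne h.2.symm
      · intro h; exact absurd (D.lab_mem z hz) h
  rw [h1]
  have hp : Measurable (fun z => p.eval z) := p.continuous.measurable
  have hp' : Measurable (fun z => p.derivative.eval z) := p.derivative.continuous.measurable
  apply Measurable.mul
  · apply Measurable.add
    · exact ((measurable_GM hm D.ne_E).comp hp).indicator D.isOpen_U.measurableSet
    · apply Finset.measurable_fun_sum
      intro e he
      exact ((measurable_GS hm e).comp hp).indicator (D.lab_closed e he).measurableSet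
  · exact ENNReal.measurable_ofReal.comp ((((hp'.mul measurable_id).div hp).norm).pow_const 2)

end

end Pool.Agent.Hhelper25.Biuni
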