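import Mathlib
import Pool.Agent.Hhelper25.Biuni.Energy1

/-!
Bounds for the energy integrals in logarithmic coordinates.
-/

set_option autoImplicit false

namespace Pool.Agent.Hhelper25.Biuni

open Set Filter Topology MeasureTheory
open scoped ENNReal

noncomputable section

variable {m : ℕ}

lemma log_norm_exp (t θ : ℝ) : Real.log ‖Complex.exp (⟨t, θ⟩ : ℂ)‖ = t := by
  rw [Complex.norm_exp, Real.log_exp]

lemma ang_exp (t θ : ℝ) (e : ℂ) : ang (Complex.exp (⟨t, θ⟩ : ℂ)) e = ang (Complex.exp ((θ : ℝ) * Complex.I)) e := by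
  unfold ang
  have h1 : Complex.exp (⟨t, θ⟩ : ℂ) / e = (Real.exp t : ℂ) * (Complex.exp ((θ : ℝ) * Complex.I) / e) := by
    rw [← mul_div_assoc, Complex.ofReal_exp, ← Complex.exp_add]
    congr 2
    apply Complex.ext <;> simp
  rw [h1, Complex.arg_real_mul _ (Real.exp_pos t)]

lemma xx_exp (t θ : ℝ) {E : Finset ℂ} (hE : E.Nonempty) :
    xx m E hE (Complex.exp (⟨t, θ⟩ : ℂ)) = xx m E hE (Complex.exp ((θ : ℝ) * Complex.I)) := by
  unfold xx
  congr 1
  apply Finset.inf'_congr hE rfl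
  intro e _
  exact ang_exp t θ e

/-- slice energy -/
def exx (m : ℕ) (T₀ T₁ x : ℝ) : ℝ≥0∞ := ∫⁻ t in Ioc T₀ T₁, FM m (ln x t)

lemma exx_eq {T₀ T₁ x : ℝ} (h1 : 0 < x) (h2 : x < Real.pi / m) : exx m T₀ T₁ x = ex m T₀ T₁ x := by
  unfold exx ex
  congr 1
  funext t
  unfold FM
  rw [indicator_of_mem]
  exact ⟨by simp only [ln]; linarith, by simp only [ln]; linarith⟩

lemma exx_zero {T₀ T₁ : ℝ} : exx m T₀ T₁ 0 = 0 := by
  unfold exx
  rw [show (fun t => FM m (ln 0 t)) = fun _ => 0 from ?_]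
  · simp
  · funext t
    unfold FM
    rw [indicator_of_notMem]
    intro h
    have := h.2
    simp [ln] at this

lemma measurable_exx (hm : 1 ≤ m) (T₀ T₁ : ℝ) : Measurable (exx m T₀ T₁) := by
  unfold exx
  have h1 : Measurable (fun q : ℝ × ℝ => FM m (ln q.1 q.2)) := by
    apply (measurable_FM hm).comp
    unfold ln
    exact measurable_mk' measurable_snd measurable_fst.neg
  exact h1.lintegral_prod_right'

/-- the excess of a slice -/
def hh (m : ℕ) (T₀ T₁ η : ℝ) : ℝ → ℝ≥0∞ :=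
  (Ioo 0 (Real.pi / m)).indicator (fun x => exx m T₀ T₁ x + ENNReal.ofReal η - ef m T₀ T₁)

lemma measurable_hh (hm : 1 ≤ m) (T₀ T₁ η : ℝ) : Measurable (hh m T₀ T₁ η) := by
  unfold hh
  apply Measurable.indicator _ measurableSet_Ioo
  exact ((measurable_exx hm T₀ T₁).add_const _).sub_const _

lemma slice_GM {E : Finset ℂ} (hE : E.Nonempty) {T₀ T₁ η : ℝ}
    (hcmp : ∀ x : ℝ, 0 < x → x < Real.pi / m → ef m T₀ T₁ ≤ ex m T₀ T₁ x + ENNReal.ofReal η) (θ : ℝ) :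
    ∫⁻ t in Ioc T₀ T₁, GM m E hE (Complex.exp (⟨t, θ⟩ : ℂ)) ≤
      ef m T₀ T₁ + ∑ e ∈ E, hh m T₀ T₁ η (ang (Complex.exp ((θ : ℝ) * Complex.I)) e) := by
  set w := Complex.exp ((θ : ℝ) * Complex.I) with hw
  have h1 : ∀ t, GM m E hE (Complex.exp (⟨t, θ⟩ : ℂ)) =
      if xx m E hE w < Real.pi / m then FM m (ln (xx m E hE w) t) else ENNReal.ofReal (dVV m t ^ 2) := by
    intro t
    unfold GM
    rw [xx_exp, log_norm_exp]
  simp_rw [h1]
  by_cases hx : xx m E hE w < Real.pi / m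
  · simp only [if_pos hx]
    rcases eq_or_lt_of_le (xx_nonneg (m := m) (hE := hE) w) with h0 | h0
    · rw [← h0]
      have : ∫⁻ t in Ioc T₀ T₁, FM m (ln 0 t) = 0 := exx_zero
      rw [this]; exact zero_le
    · have h2 : ∃ e ∈ E, xx m E hE w = ang w e := by
        obtain ⟨e0, he0, h3⟩ := Finset.exists_mem_eq_inf' hE (ang w)
        refine ⟨e0, he0, ?_⟩
        unfold xx at hx ⊢
        rw [h3] at hx ⊢
        rcases min_lt_iff.1 hx with h4 | h4
        · exact min_eq_left h4.le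
        · exact absurd h4 (lt_irrefl _)
      obtain ⟨e, he, hxe⟩ := h2
      have h5 : hh m T₀ T₁ η (ang w e) ≤ ∑ e ∈ E, hh m T₀ T₁ η (ang w e) :=
        Finset.single_le_sum (f := fun e => hh m T₀ T₁ η (ang w e)) (fun _ _ => zero_le) he
      refine le_trans ?_ (add_le_add_right h5 _)
      have h6 : hh m T₀ T₁ η (ang w e) = exx m T₀ T₁ (ang w e) + ENNReal.ofReal η - ef m T₀ T₁ := by
        unfold hh
        rw [indicator_of_mem]
        rw [← hxe]; exact ⟨h0, hx⟩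
      rw [h6, ← hxe]
      have h7 : ef m T₀ T₁ ≤ exx m T₀ T₁ (xx m E hE w) + ENNReal.ofReal η := by
        rw [exx_eq h0 hx]; exact hcmp _ h0 hx
      rw [add_tsub_cancel_of_le h7]
      exact le_self_add
  · simp only [if_neg hx]
    exact le_self_add

lemma main_energy (hm : 1 ≤ m) {E : Finset ℂ} (hE : E.Nonempty) (hE1 : ∀ e ∈ E, ‖e‖ = 1) (hcard : E.card ≤ m)
    {T₀ T₁ η : ℝ} (hη : 0 ≤ η) (hT : T₀ ≤ T₁)
    (hcmp : ∀ x : ℝ, 0 < x → x < Real.pi / m → ef m T₀ T₁ ≤ ex m T₀ T₁ x + ENNReal.ofReal η) :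
    ∫⁻ ω in {ω : ℂ | ω.re ∈ Ioc T₀ T₁ ∧ ω.im ∈ Ioc (-Real.pi) Real.pi}, GM m E hE (Complex.exp ω) ≤
      2 * m * (∫⁻ ω in AM m T₀ T₁, ENNReal.ofReal (‖dM m ω‖ ^ 2)) + ENNReal.ofReal (2 * Real.pi * η) := by
  have hpi := Real.pi_pos
  have hm0 : (0 : ℝ) < m := by exact_mod_cast hm
  have hm1 : (1 : ℝ) ≤ m := by exact_mod_cast hm
  rw [slice (F := fun ω => GM m E hE (Complex.exp ω)) measurableSet_Ioc measurableSet_Ioc
    ((measurable_GM hm hE).comp Complex.measurable_exp).aemeasurable]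
  have h1 : ∫⁻ θ in Ioc (-Real.pi) Real.pi, ∫⁻ t in Ioc T₀ T₁, GM m E hE (Complex.exp (⟨t, θ⟩ : ℂ)) ≤
      ∫⁻ θ in Ioc (-Real.pi) Real.pi, (ef m T₀ T₁ + ∑ e ∈ E, hh m T₀ T₁ η (ang (Complex.exp ((θ : ℝ) * Complex.I)) e)) :=
    lintegral_mono fun θ => slice_GM hE hcmp θ
  refine h1.trans ?_
  rw [lintegral_add_left measurable_const, lintegral_const, lintegral_finsetSum]
  swap
  · intro e he
    apply (measurable_hh hm T₀ T₁ η).comp
    apply (measurable_ang e).comp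
    fun_prop
  have h2 : ∀ e ∈ E, ∫⁻ θ in Ioc (-Real.pi) Real.pi, hh m T₀ T₁ η (ang (Complex.exp ((θ : ℝ) * Complex.I)) e) =
      2 * ∫⁻ x in Ioo 0 (Real.pi / m), (exx m T₀ T₁ x + ENNReal.ofReal η - ef m T₀ T₁) := by
    intro e he
    rw [circ (hE1 e he)]
    congr 1
    unfold hh
    rw [lintegral_indicator measurableSet_Ioo, Measure.restrict_restrict measurableSet_Ioo]
    congr 2
    apply inter_eq_left.2
    apply Ioo_subset_Ioo_right
    rw [div_le_iff₀ hm0]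
    nlinarith
  rw [Finset.sum_congr rfl h2, Finset.sum_const, nsmul_eq_mul]
  set H := ∫⁻ x in Ioo 0 (Real.pi / m), (exx m T₀ T₁ x + ENNReal.ofReal η - ef m T₀ T₁) with hH
  have h3 : H + ef m T₀ T₁ * ENNReal.ofReal (Real.pi / m) =
      (∫⁻ x in Ioo 0 (Real.pi / m), ex m T₀ T₁ x) + ENNReal.ofReal η * ENNReal.ofReal (Real.pi / m) := by
    have hv : volume (Ioo 0 (Real.pi / m)) = ENNReal.ofReal (Real.pi / m) := by
      rw [Real.volume_Ioo, sub_zero]
    have h4 : H + ef m T₀ T₁ * ENNReal.ofReal (Real.pi / m) =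
        ∫⁻ x in Ioo 0 (Real.pi / m), (exx m T₀ T₁ x + ENNReal.ofReal η - ef m T₀ T₁ + ef m T₀ T₁) := by
      rw [lintegral_add_right _ measurable_const, lintegral_const, Measure.restrict_apply_univ, hv]
    have h5 : (∫⁻ x in Ioo 0 (Real.pi / m), ex m T₀ T₁ x) + ENNReal.ofReal η * ENNReal.ofReal (Real.pi / m) =
        ∫⁻ x in Ioo 0 (Real.pi / m), (ex m T₀ T₁ x + ENNReal.ofReal η) := by
      rw [lintegral_add_right _ measurable_const, lintegral_const, Measure.restrict_apply_univ, hv]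
    rw [h4, h5]
    apply setLIntegral_congr_fun measurableSet_Ioo
    intro x hx
    simp only
    rw [exx_eq hx.1 hx.2, tsub_add_cancel_of_le (hcmp x hx.1 hx.2)]
  rw [← slice_main hm] at h3
  have h6 : (volume.restrict (Ioc (-Real.pi) Real.pi)) univ = ENNReal.ofReal (2 * Real.pi) := by
    rw [Measure.restrict_apply_univ, Real.volume_Ioc]
    congr 1; ring
  rw [h6]
  have h7 : ENNReal.ofReal (2 * Real.pi) = 2 * m * ENNReal.ofReal (Real.pi / m) := by
    rw [show (2 : ℝ≥0∞) = ENNReal.ofReal 2 by simp, ← ENNReal.ofReal_natCast m,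
      ← ENNReal.ofReal_mul (by norm_num), ← ENNReal.ofReal_mul (by positivity)]
    congr 1
    field_simp
  calc ef m T₀ T₁ * ENNReal.ofReal (2 * Real.pi) + (E.card : ℝ≥0∞) * (2 * H)
      ≤ ef m T₀ T₁ * ENNReal.ofReal (2 * Real.pi) + (m : ℝ≥0∞) * (2 * H) := by
        gcongr
    _ = 2 * m * (H + ef m T₀ T₁ * ENNReal.ofReal (Real.pi / m)) := by
        rw [h7]; ring
    _ = 2 * m * (∫⁻ ω in AM m T₀ T₁, ENNReal.ofReal (‖dM m ω‖ ^ 2)) +
          2 * m * (ENNReal.ofReal η * ENNReal.ofReal (Real.pi / m)) := by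
        rw [h3]; ring
    _ = 2 * m * (∫⁻ ω in AM m T₀ T₁, ENNReal.ofReal (‖dM m ω‖ ^ 2)) + ENNReal.ofReal (2 * Real.pi * η) := by
        congr 1
        rw [mul_comm (ENNReal.ofReal η), ← mul_assoc, ← h7, ← ENNReal.ofReal_mul (by positivity)]

lemma side_energy (hm : 1 ≤ m) {e : ℂ} (he : ‖e‖ = 1) (T₁ : ℝ) :
    ∫⁻ ω in {ω : ℂ | ω.re ∈ Iic T₁ ∧ ω.im ∈ Ioc (-Real.pi) Real.pi}, GS m e (Complex.exp ω) =
      2 * ∫⁻ ω in AS T₁, ENNReal.ofReal (‖dS m ω‖ ^ 2) := by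
  rw [slice (F := fun ω => GS m e (Complex.exp ω)) measurableSet_Iic measurableSet_Ioc
    ((measurable_GS hm e).comp Complex.measurable_exp).aemeasurable]
  have h1 : ∀ θ : ℝ, ∫⁻ t in Iic T₁, GS m e (Complex.exp (⟨t, θ⟩ : ℂ)) =
      (fun x => ∫⁻ t in Iic T₁, FS m ⟨t, x⟩) (ang (Complex.exp ((θ : ℝ) * Complex.I)) e) := by
    intro θ
    simp only
    congr 1
    funext t
    unfold GS
    rw [log_norm_exp, ang_exp]
  simp_rw [h1]
  rw [circ (h := fun x => ∫⁻ t in Iic T₁, FS m ⟨t, x⟩) he]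
  congr 1
  have h2 : ∫⁻ ω in AS T₁, ENNReal.ofReal (‖dS m ω‖ ^ 2) = ∫⁻ ω in AS T₁, FS m ω := by
    apply setLIntegral_congr_fun (measurableSet_AS T₁)
    intro ω hω
    simp only
    unfold FS
    rw [indicator_of_mem]
    exact hω.2
  rw [h2]
  unfold AS
  rw [slice measurableSet_Iic measurableSet_Ioo (measurable_FS hm).aemeasurable]

end

end Pool.Agent.Hhelper25.Biuni
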