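import Mathlib
import Pool.Agent.Hhelper25.Biuni.Energy2

/-!
The energy of the test function on an annulus.
-/

set_option autoImplicit false

namespace Pool.Agent.Hhelper25.Biuni

open Set Filter Topology MeasureTheory
open scoped ENNReal

noncomputable section

variable {m : ℕ} {p : Polynomial ℂ}

lemma injOn_exp_rect (I : Set ℝ) : InjOn Complex.exp {ω : ℂ | ω.re ∈ I ∧ ω.im ∈ Ioc (-Real.pi) Real.pi} := by
  intro a ha b hb hab
  have h1 := Complex.log_exp ha.2.1 ha.2.2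
  have h2 := Complex.log_exp hb.2.1 hb.2.2
  rw [← h1, ← h2, hab]

lemma measurableSet_rect {I J : Set ℝ} (hI : MeasurableSet I) (hJ : MeasurableSet J) :
    MeasurableSet {ω : ℂ | ω.re ∈ I ∧ ω.im ∈ J} :=
  (Complex.measurable_re hI).inter (Complex.measurable_im hJ)

lemma piece_energy {A : Set ℂ} (hA : MeasurableSet A) (hinj : InjOn (fun ζ => p.eval (Complex.exp ζ)) A)
    (G : ℂ → ℝ≥0∞) {I : Set ℝ} (hI : MeasurableSet I)
    (hr : ∀ ζ ∈ A, p.eval (Complex.exp ζ) = 0 ∨ Real.log ‖p.eval (Complex.exp ζ)‖ ∈ I) :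
    ∫⁻ ζ in A, G (p.eval (Complex.exp ζ)) *
        ENNReal.ofReal (‖p.derivative.eval (Complex.exp ζ) * Complex.exp ζ / p.eval (Complex.exp ζ)‖ ^ 2) ≤
      ∫⁻ ω in {ω : ℂ | ω.re ∈ I ∧ ω.im ∈ Ioc (-Real.pi) Real.pi}, G (Complex.exp ω) := by
  set R := {ω : ℂ | ω.re ∈ I ∧ ω.im ∈ Ioc (-Real.pi) Real.pi} with hR
  set f : ℂ → ℂ := fun ζ => p.eval (Complex.exp ζ) with hf
  set f' : ℂ → ℂ := fun ζ => p.derivative.eval (Complex.exp ζ) * Complex.exp ζ with hf'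
  set g : ℂ → ℝ≥0∞ := fun w => G w * ENNReal.ofReal (‖w⁻¹‖ ^ 2) with hg
  have hd : ∀ ζ, HasDerivAt f (f' ζ) ζ := fun ζ =>
    (p.hasDerivAt (Complex.exp ζ)).comp ζ (Complex.hasDerivAt_exp ζ)
  have h1 : ∫⁻ ζ in A, G (f ζ) * ENNReal.ofReal (‖f' ζ / f ζ‖ ^ 2) = ∫⁻ w in f '' A, g w := by
    rw [cov hA (fun z _ => hd z) hinj g]
    congr 1
    funext ζ
    simp only [hg]
    rw [mul_left_comm, ← ENNReal.ofReal_mul (by positivity), ← mul_pow, ← norm_mul, div_eq_mul_inv]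
  have h2 : f '' A ⊆ {0} ∪ Complex.exp '' R := by
    rintro _ ⟨ζ, hζ, rfl⟩
    by_cases h0 : f ζ = 0
    · exact Or.inl h0
    · right
      refine ⟨Complex.log (f ζ), ⟨?_, ?_⟩, Complex.exp_log h0⟩
      · rw [Complex.log_re]
        exact (hr ζ hζ).resolve_left h0
      · rw [Complex.log_im]
        exact ⟨Complex.neg_pi_lt_arg _, Complex.arg_le_pi _⟩
  show ∫⁻ ζ in A, G (f ζ) * ENNReal.ofReal (‖f' ζ / f ζ‖ ^ 2) ≤ _
  rw [h1]
  refine (lintegral_mono_set h2).trans ?_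
  refine (lintegral_union_le _ _ _).trans ?_
  have h3 : ∫⁻ w in ({0} : Set ℂ), g w = 0 := setLIntegral_measure_zero _ _ (by simp)
  rw [h3, zero_add, cov (f' := Complex.exp) (measurableSet_rect hI measurableSet_Ioc) (fun z _ => Complex.hasDerivAt_exp z)
    (injOn_exp_rect I) g]
  apply le_of_eq
  congr 1
  funext ω
  simp only [hg]
  rw [mul_left_comm, ← ENNReal.ofReal_mul (by positivity), ← mul_pow, ← norm_mul,
    mul_inv_cancel₀ (Complex.exp_ne_zero ω)]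
  simp

lemma lintegral_biUnion_finset_le' {ι : Type*} (S : Finset ι) (A : ι → Set ℂ) (f : ℂ → ℝ≥0∞) :
    ∫⁻ z in ⋃ r ∈ S, A r, f z ≤ ∑ r ∈ S, ∫⁻ z in A r, f z := by
  classical
  induction S using Finset.induction_on with
  | empty => simp
  | insert a s ha ih =>
    rw [Finset.set_biUnion_insert, Finset.sum_insert ha]
    exact (lintegral_union_le _ _ _).trans (add_le_add_right ih _)

lemma null_lines (h1 : p.derivative.eval 0 = 1) {e : ℂ} (he : e ≠ 0) {I J : Set ℝ} (hI : MeasurableSet I)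
    (hJ : MeasurableSet J) :
    volume ({ζ : ℂ | (p.eval (Complex.exp ζ) * (starRingEnd ℂ) e).im = 0} ∩ {ω : ℂ | ω.re ∈ I ∧ ω.im ∈ J}) = 0 := by
  set N := {ζ : ℂ | (p.eval (Complex.exp ζ) * (starRingEnd ℂ) e).im = 0} with hN
  have hNm : MeasurableSet N := by
    apply IsClosed.measurableSet
    apply isClosed_eq _ continuous_const
    exact Complex.continuous_im.comp ((p.continuous.comp Complex.continuous_exp).mul continuous_const)
  have h2 : volume (N ∩ {ω : ℂ | ω.re ∈ I ∧ ω.im ∈ J}) =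
      ∫⁻ ω in {ω : ℂ | ω.re ∈ I ∧ ω.im ∈ J}, N.indicator (fun _ => (1 : ℝ≥0∞)) ω := by
    rw [lintegral_indicator hNm]
    simp only [lintegral_const, one_mul]
    rw [Measure.restrict_restrict hNm, Measure.restrict_apply_univ]
  rw [h2, slice hI hJ (measurable_const.indicator hNm).aemeasurable]
  rw [lintegral_eq_zero_iff']
  · have h3 : ∀ᵐ φ ∂(volume.restrict J), φ ∉ {φ : ℝ | (Complex.exp (φ * Complex.I) * (starRingEnd ℂ) e).im = 0} :=
      ae_restrict_of_ae ((countable_dir he).ae_notMem volume)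
    filter_upwards [h3] with φ hφ
    have hfin := finite_bad h1 (d := e) (φ := φ) hφ
    rw [Pi.zero_apply]
    have h4 : ∀ᵐ t ∂(volume.restrict I), t ∉ {s : ℝ | (p.eval (pt φ s) * (starRingEnd ℂ) e).im = 0} :=
      ae_restrict_of_ae (hfin.countable.ae_notMem volume)
    rw [← lintegral_zero (μ := volume.restrict I)]
    apply lintegral_congr_ae
    filter_upwards [h4] with t ht
    rw [indicator_of_notMem]
    exact ht
  · have h5 : Measurable (fun q : ℝ × ℝ => N.indicator (fun _ => (1 : ℝ≥0∞)) (⟨q.2, q.1⟩ : ℂ)) :=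
      (measurable_const.indicator hNm).comp (measurable_mk' measurable_snd measurable_fst)
    exact h5.lintegral_prod_right'.aemeasurable

/-- the energy of the test function -/
theorem energy_bound (hm : 1 ≤ m) (D : MainData p m) (h0 : p.eval 0 = 0) (h1 : p.derivative.eval 0 = 1)
    {s₀ s₁ T₀ T₁ η : ℝ} (hη : 0 ≤ η) (hT : T₀ ≤ T₁)
    (hlow : ∀ z ∈ D.U, z ≠ 0 → s₀ < Real.log ‖z‖ → T₀ < Real.log ‖p.eval z‖)
    (hhigh : ∀ z : ℂ, ‖z‖ ≤ Real.exp s₁ → Real.log ‖p.eval z‖ ≤ T₁)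
    (hcmp : ∀ x : ℝ, 0 < x → x < Real.pi / m → ef m T₀ T₁ ≤ ex m T₀ T₁ x + ENNReal.ofReal η) :
    ∫⁻ ζ in {ζ : ℂ | ζ.re ∈ Ioc s₀ s₁ ∧ ζ.im ∈ Ioc (-Real.pi) Real.pi}, K2 D (Complex.exp ζ) ≤
      2 * m * ((∫⁻ ω in AM m T₀ T₁, ENNReal.ofReal (‖dM m ω‖ ^ 2)) +
        ∫⁻ ω in AS T₁, ENNReal.ofReal (‖dS m ω‖ ^ 2)) + ENNReal.ofReal (2 * Real.pi * η) := by
  set R := {ζ : ℂ | ζ.re ∈ Ioc s₀ s₁ ∧ ζ.im ∈ Ioc (-Real.pi) Real.pi} with hR
  have hRm : MeasurableSet R := measurableSet_rect measurableSet_Ioc measurableSet_Ioc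
  have hexp : Measurable Complex.exp := Complex.measurable_exp
  set AU := R ∩ Complex.exp ⁻¹' D.U with hAU
  set AQ : ℂ → Set ℂ := fun r => R ∩ Complex.exp ⁻¹' (D.Q r) with hAQ
  set N : Set ℂ := ⋃ e ∈ D.E, ({ζ : ℂ | (p.eval (Complex.exp ζ) * (starRingEnd ℂ) e).im = 0} ∩ R) with hN
  have hcov : R ⊆ AU ∪ ((⋃ r ∈ D.S, AQ r) ∪ N) := by
    intro ζ hζ
    by_cases hn : ∃ e ∈ D.E, (p.eval (Complex.exp ζ) * (starRingEnd ℂ) e).im = 0
    · obtain ⟨e, he, h⟩ := hn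
      right; right
      rw [hN, mem_iUnion₂]
      exact ⟨e, he, h, hζ⟩
    · push Not at hn
      rcases D.cover (Complex.exp ζ) (fun e he ⟨t, _, ht⟩ => hn e he (by
        rw [ht, mul_assoc, Complex.mul_conj, ← Complex.ofReal_mul]; exact Complex.ofReal_im _)) with h | ⟨r, hr, h⟩
      · exact Or.inl ⟨hζ, h⟩
      · right; left
        rw [mem_iUnion₂]
        exact ⟨r, hr, hζ, h⟩
  have hre : ∀ ζ : ℂ, Real.log ‖Complex.exp ζ‖ = ζ.re := by
    intro ζ; rw [Complex.norm_exp, Real.log_exp]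
  have hhi : ∀ ζ ∈ R, Real.log ‖p.eval (Complex.exp ζ)‖ ≤ T₁ := by
    intro ζ hζ
    apply hhigh
    rw [Complex.norm_exp]
    exact Real.exp_le_exp.2 hζ.1.2
  have hinjR := injOn_exp_rect (Ioc s₀ s₁)
  have hUpart : ∫⁻ ζ in AU, K2 D (Complex.exp ζ) ≤
      2 * m * (∫⁻ ω in AM m T₀ T₁, ENNReal.ofReal (‖dM m ω‖ ^ 2)) + ENNReal.ofReal (2 * Real.pi * η) := by
    have hAUm : MeasurableSet AU := hRm.inter (hexp D.isOpen_U.measurableSet)
    have h2 : ∫⁻ ζ in AU, K2 D (Complex.exp ζ) = ∫⁻ ζ in AU, GM m D.E D.ne_E (p.eval (Complex.exp ζ)) *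
        ENNReal.ofReal (‖p.derivative.eval (Complex.exp ζ) * Complex.exp ζ / p.eval (Complex.exp ζ)‖ ^ 2) := by
      apply setLIntegral_congr_fun hAUm
      intro ζ hζ
      exact K2_of_mem D hζ.2
    rw [h2]
    refine (piece_energy hAUm ?_ (GM m D.E D.ne_E) (I := Ioc T₀ T₁) measurableSet_Ioc ?_).trans
      (main_energy hm D.ne_E D.norm_E D.card_E hη hT hcmp)
    · intro a ha b hb hab
      exact hinjR ha.1 hb.1 (D.inj ha.2 hb.2 hab)
    · intro ζ hζ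
      right
      refine ⟨?_, hhi ζ hζ.1⟩
      apply hlow _ hζ.2 (Complex.exp_ne_zero _)
      rw [hre]; exact hζ.1.1.1
  have hQpart : ∀ r ∈ D.S, ∫⁻ ζ in AQ r, K2 D (Complex.exp ζ) ≤ 2 * ∫⁻ ω in AS T₁, ENNReal.ofReal (‖dS m ω‖ ^ 2) := by
    intro r hr
    obtain ⟨e, he, hlab⟩ := D.Q_lab r hr
    have hAm : MeasurableSet (AQ r) := hRm.inter (hexp (D.Q_meas r hr))
    have h2 : ∫⁻ ζ in AQ r, K2 D (Complex.exp ζ) = ∫⁻ ζ in AQ r, GS m e (p.eval (Complex.exp ζ)) *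
        ENNReal.ofReal (‖p.derivative.eval (Complex.exp ζ) * Complex.exp ζ / p.eval (Complex.exp ζ)‖ ^ 2) := by
      apply setLIntegral_congr_fun hAm
      intro ζ hζ
      simp only
      rw [K2_of_notMem D (hlab _ hζ.2).1, (hlab _ hζ.2).2]
    rw [h2, ← side_energy hm (D.norm_E e he) T₁]
    refine piece_energy hAm ?_ (GS m e) (I := Iic T₁) measurableSet_Iic ?_
    · intro a ha b hb hab
      exact hinjR ha.1 hb.1 (D.Q_inj r hr ha.2 hb.2 hab)
    · intro ζ hζ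
      exact Or.inr (hhi ζ hζ.1)
  have hNpart : ∫⁻ ζ in N, K2 D (Complex.exp ζ) = 0 := by
    apply setLIntegral_measure_zero
    have h3 : volume (⋃ e ∈ (D.E : Set ℂ),
        ({ζ : ℂ | (p.eval (Complex.exp ζ) * (starRingEnd ℂ) e).im = 0} ∩ R)) = 0 := by
      rw [measure_biUnion_null_iff D.E.countable_toSet]
      intro e he
      apply null_lines h1 _ measurableSet_Ioc measurableSet_Ioc
      intro h; have := D.norm_E e he; rw [h] at this; simp at this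
    simp only [Finset.mem_coe] at h3
    exact h3
  calc ∫⁻ ζ in R, K2 D (Complex.exp ζ) ≤ ∫⁻ ζ in AU ∪ ((⋃ r ∈ D.S, AQ r) ∪ N), K2 D (Complex.exp ζ) :=
        lintegral_mono_set hcov
    _ ≤ (∫⁻ ζ in AU, K2 D (Complex.exp ζ)) + ((∫⁻ ζ in ⋃ r ∈ D.S, AQ r, K2 D (Complex.exp ζ)) + ∫⁻ ζ in N, K2 D (Complex.exp ζ)) :=
        (lintegral_union_le _ _ _).trans (add_le_add_right (lintegral_union_le _ _ _) _)
    _ ≤ (2 * m * (∫⁻ ω in AM m T₀ T₁, ENNReal.ofReal (‖dM m ω‖ ^ 2)) + ENNReal.ofReal (2 * Real.pi * η)) +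
          ((∑ r ∈ D.S, 2 * ∫⁻ ω in AS T₁, ENNReal.ofReal (‖dS m ω‖ ^ 2)) + 0) := by
        apply add_le_add hUpart
        apply add_le_add _ hNpart.le
        exact (lintegral_biUnion_finset_le' _ _ _).trans (Finset.sum_le_sum hQpart)
    _ ≤ (2 * m * (∫⁻ ω in AM m T₀ T₁, ENNReal.ofReal (‖dM m ω‖ ^ 2)) + ENNReal.ofReal (2 * Real.pi * η)) +
          (m * (2 * ∫⁻ ω in AS T₁, ENNReal.ofReal (‖dS m ω‖ ^ 2))) := by
        rw [Finset.sum_const, nsmul_eq_mul, add_zero]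
        gcongr
        exact_mod_cast D.card_S
    _ = _ := by ring

end

end Pool.Agent.Hhelper25.Biuni
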