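import Mathlib
import Pool.Agent.Hhelper25.Biuni.Energy3

/-!
The coefficient bound when `0` is not a critical value.
-/

set_option autoImplicit false

namespace Pool.Agent.Hhelper25.Biuni

open Set Filter Topology MeasureTheory
open scoped ENNReal

noncomputable section

variable {m : ℕ} {p : Polynomial ℂ}

theorem log_lead_le (hm : 1 ≤ m) (D : MainData p m) (h0 : p.eval 0 = 0) (h1 : p.derivative.eval 0 = 1)
    (hdeg : p.natDegree = m + 1) : Real.log ‖p.leadingCoeff‖ ≤ la m := by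
  have hp : p ≠ 0 := by rintro rfl; simp at hdeg
  have hpi := Real.pi_pos
  have hm0 : (0 : ℝ) < m := by exact_mod_cast hm
  have hm1 : (0 : ℝ) < (m : ℝ) + 1 := by positivity
  by_contra hcon
  push Not at hcon
  set δ := (Real.log ‖p.leadingCoeff‖ - la m) / (m + 1) with hδ
  have hδ0 : 0 < δ := by
    apply div_pos _ hm1
    linarith
  set η := δ / 11 with hηd
  have hη : 0 < η := by positivity
  have h11 : δ = 11 * η := by rw [hηd]; ring
  obtain ⟨Ta, hTa⟩ := area_bound hm hη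
  obtain ⟨Tb, hTb⟩ := energy_cmp hm hη
  obtain ⟨S1, hS1⟩ := uu_small hm D h0 h1 hη
  obtain ⟨S2, hS2⟩ := uu_large hm D hdeg hη
  obtain ⟨S3, hS3⟩ := range_low D h0 hη
  obtain ⟨S4, hS4⟩ := range_high hdeg hη
  -- choice of s₀, s₁
  obtain ⟨s₀, hs0a, hs0b, hs0c, hs0d, hs0e⟩ : ∃ s₀ : ℝ, s₀ ≤ -S1 ∧ s₀ ≤ -S3 ∧ s₀ - η ≤ -Ta ∧ s₀ - η ≤ -Tb ∧ s₀ ≤ 0 := by
    refine ⟨min (min (-S1) (-S3)) (min (min (-Ta) (-Tb)) 0), ?_, ?_, ?_, ?_, ?_⟩
    · exact (min_le_left _ _).trans (min_le_left _ _)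
    · exact (min_le_left _ _).trans (min_le_right _ _)
    · have := (min_le_right (min (-S1) (-S3)) (min (min (-Ta) (-Tb)) 0)).trans
        ((min_le_left _ _).trans (min_le_left _ _))
      linarith
    · have := (min_le_right (min (-S1) (-S3)) (min (min (-Ta) (-Tb)) 0)).trans
        ((min_le_left _ _).trans (min_le_right _ _))
      linarith
    · exact (min_le_right _ _).trans (min_le_right _ _)
  obtain ⟨s₁, hs1a, hs1b, hs1c⟩ : ∃ s₁ : ℝ, s₁ ≥ S2 ∧ s₁ ≥ S4 ∧
      (max (max Ta Tb) 0 - Real.log ‖p.leadingCoeff‖ - η) / (m + 1) ≤ s₁ ∧ 0 ≤ s₁ := by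
    refine ⟨max (max S2 S4) (max ((max (max Ta Tb) 0 - Real.log ‖p.leadingCoeff‖ - η) / (m + 1)) 0), ?_, ?_, ?_, ?_⟩
    · exact (le_max_left _ _).trans (le_max_left _ _)
    · exact (le_max_right _ _).trans (le_max_left _ _)
    · exact (le_max_left _ _).trans (le_max_right _ _)
    · exact (le_max_right _ _).trans (le_max_right _ _)
  obtain ⟨hs1c, hs1d⟩ := hs1c
  have hs01 : s₀ ≤ s₁ := hs0e.trans hs1d
  set T₀ := s₀ - η with hT0
  set T₁ := (m + 1) * s₁ + Real.log ‖p.leadingCoeff‖ + η with hT1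
  rw [div_le_iff₀ hm1] at hs1c
  have hT1a : max (max Ta Tb) 0 ≤ T₁ := by rw [hT1]; linarith [mul_comm s₁ ((m : ℝ) + 1)]
  have hT1b : T₁ ≥ Ta := (le_max_left _ _).trans ((le_max_left _ _).trans hT1a)
  have hT1c : T₁ ≥ Tb := (le_max_right _ _).trans ((le_max_left _ _).trans hT1a)
  have hT1d : 0 ≤ T₁ := (le_max_right _ _).trans hT1a
  have hT01 : T₀ ≤ T₁ := by rw [hT0]; linarith
  have hA := hTa T₀ hs0c T₁ hT1b
  have hcmp := hTb T₀ hs0d T₁ hT1c hT01
  -- energy
  have hE := energy_bound hm D h0 h1 (s₀ := s₀) (s₁ := s₁) (T₀ := T₀) (T₁ := T₁) hη.le hT01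
    (fun z hz hz0 hzs => by
      have h2 := hS3 s₀ hs0b z hz hz0 hzs
      exact h2)
    (fun z hz => hS4 s₁ hs1b z hz) hcmp
  -- rays
  set R := {ζ : ℂ | ζ.re ∈ Ioc s₀ s₁ ∧ ζ.im ∈ Ioc (-Real.pi) Real.pi} with hR
  have hRm : MeasurableSet R := measurableSet_rect measurableSet_Ioc measurableSet_Ioc
  have hmeas : Measurable (fun ζ => K2 D (Complex.exp ζ)) := (measurable_K2 hm D).comp Complex.measurable_exp
  have hray : ∀ᵐ φ ∂(volume.restrict (Ioc (-Real.pi) Real.pi)),
      2 * ENNReal.ofReal (s₁ - s₀ + δ - 3 * η) ≤ ∫⁻ s in Ioc s₀ s₁, (K2 D (Complex.exp ⟨s, φ⟩) + 1) := by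
    have h2 := ae_restrict_of_ae (s := Ioc (-Real.pi) Real.pi) ((countable_badφ hp D).ae_notMem volume)
    filter_upwards [h2] with φ hφ
    rw [not_not] at hφ
    refine le_trans ?_ (ray_le hm h1 D hφ.1 hφ.2 hs01)
    have h3 := hS1 s₀ hs0a φ
    have h4 := hS2 s₁ hs1a φ
    have h5 : ENNReal.ofReal (s₁ - s₀ + δ - 3 * η) ≤ ENNReal.ofReal (uu D (pt φ s₁) - uu D (pt φ s₀)) :=
      ENNReal.ofReal_le_ofReal (by linarith)
    exact mul_le_mul' le_rfl h5
  have hint : ∫⁻ φ in Ioc (-Real.pi) Real.pi, (2 * ENNReal.ofReal (s₁ - s₀ + δ - 3 * η)) ≤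
      ∫⁻ ζ in R, (K2 D (Complex.exp ζ) + 1) := by
    rw [slice (F := fun ζ => K2 D (Complex.exp ζ) + 1) measurableSet_Ioc measurableSet_Ioc
      (hmeas.add_const 1).aemeasurable]
    exact lintegral_mono_ae hray
  rw [lintegral_const, Measure.restrict_apply_univ, Real.volume_Ioc, lintegral_add_right _ measurable_const,
    lintegral_const, Measure.restrict_apply_univ, one_mul,
    volume_rect _ _ measurableSet_Ioc measurableSet_Ioc, Real.volume_Ioc, Real.volume_Ioc] at hint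
  have hL : 0 ≤ s₁ - s₀ := by linarith
  have hfin : ENNReal.ofReal (2 * (2 * Real.pi) * (s₁ - s₀ + δ - 3 * η)) ≤
      ENNReal.ofReal (2 * Real.pi * (2 * (s₁ - s₀) + δ + 4 * η)) := by
    calc ENNReal.ofReal (2 * (2 * Real.pi) * (s₁ - s₀ + δ - 3 * η))
        = 2 * ENNReal.ofReal (s₁ - s₀ + δ - 3 * η) * ENNReal.ofReal (Real.pi - -Real.pi) := by
          rw [show (2 : ℝ≥0∞) = ENNReal.ofReal 2 by simp, ← ENNReal.ofReal_mul (by norm_num),
            ← ENNReal.ofReal_mul (by nlinarith)]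
          congr 1; ring
      _ ≤ _ := hint
      _ ≤ (2 * m * ENNReal.ofReal (Real.pi / m * ((T₁ - la m + η) / (m + 1) - (T₀ - η))) +
            ENNReal.ofReal (2 * Real.pi * η)) + ENNReal.ofReal (Real.pi - -Real.pi) * ENNReal.ofReal (s₁ - s₀) := by
          gcongr
          refine hE.trans ?_
          gcongr
      _ ≤ _ := by
          have h5 : (T₁ - la m + η) / (m + 1) - (T₀ - η) ≤ (s₁ - s₀) + δ + 3 * η := by
            have h6 : (T₁ - la m + η) / (m + 1) = s₁ + δ + 2 * η / (m + 1) := by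
              rw [hT1, hδ]; field_simp; ring
            have h7 : 2 * η / (m + 1) ≤ η := by
              rw [div_le_iff₀ hm1]
              have : (1 : ℝ) ≤ m := by exact_mod_cast hm
              nlinarith
            rw [h6, hT0]; linarith
          calc (2 * m * ENNReal.ofReal (Real.pi / m * ((T₁ - la m + η) / (m + 1) - (T₀ - η))) +
            ENNReal.ofReal (2 * Real.pi * η)) + ENNReal.ofReal (Real.pi - -Real.pi) * ENNReal.ofReal (s₁ - s₀)
              ≤ (2 * m * ENNReal.ofReal (Real.pi / m * ((s₁ - s₀) + δ + 3 * η)) +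
            ENNReal.ofReal (2 * Real.pi * η)) + ENNReal.ofReal (Real.pi - -Real.pi) * ENNReal.ofReal (s₁ - s₀) := by
                gcongr
            _ = _ := by
                rw [show (2 : ℝ≥0∞) = ENNReal.ofReal 2 by simp, ← ENNReal.ofReal_natCast m,
                  ← ENNReal.ofReal_mul (by norm_num), ← ENNReal.ofReal_mul (by positivity),
                  ← ENNReal.ofReal_mul (by linarith), ← ENNReal.ofReal_add (by positivity) (by positivity),
                  ← ENNReal.ofReal_add (by positivity) (mul_nonneg (by linarith) hL)]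
                congr 1
                field_simp
                ring
  rw [ENNReal.ofReal_le_ofReal_iff (by positivity)] at hfin
  have h8 : 2 * (s₁ - s₀ + δ - 3 * η) ≤ 2 * (s₁ - s₀) + δ + 4 * η := by
    have h9 : (2 * Real.pi) * (2 * (s₁ - s₀ + δ - 3 * η)) ≤ (2 * Real.pi) * (2 * (s₁ - s₀) + δ + 4 * η) := by
      linarith
    exact le_of_mul_le_mul_left h9 (by positivity)
  linarith

end

end Pool.Agent.Hhelper25.Biuni
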