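import Mathlib
import Pool.Agent.Hhelper25.Biuni.Bound

/-!
The coefficient bound for all polynomials whose inverse germ extends to the unit disc.
-/

set_option autoImplicit false

namespace Pool.Agent.Hhelper25.Biuni

open Set Filter Topology

noncomputable section

lemma lead_le_of_not_cv (p : Polynomial ℂ) (m : ℕ) (hm : 1 ≤ m) (hdeg : p.natDegree = m + 1)
    (h0 : p.eval 0 = 0) (h1 : p.derivative.eval 0 = 1)
    (hcv : (0 : ℂ) ∉ CV p) (g : ℂ → ℂ) (hg : DifferentiableOn ℂ g (Metric.ball 0 1))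
    (hg0 : g 0 = 0) (hpg : ∀ w ∈ Metric.ball (0 : ℂ) 1, p.eval (g w) = w) :
    ‖p.leadingCoeff‖ ≤ Real.exp (la m) := by
  have hp0 : p ≠ 0 := by rintro rfl; simp at hdeg
  obtain ⟨D⟩ := exists_mainData p m hm hdeg h0 h1 hcv g hg hg0 hpg
  have h2 := log_lead_le hm D h0 h1 hdeg
  rwa [Real.log_le_iff_le_exp (norm_pos_iff.2 (Polynomial.leadingCoeff_ne_zero.2 hp0))] at h2

lemma lead_le_shift (p : Polynomial ℂ) (m : ℕ) (hm : 1 ≤ m) (hdeg : p.natDegree = m + 1)
    (g : ℂ → ℂ) (hg : DifferentiableOn ℂ g (Metric.ball 0 1))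
    (hpg : ∀ w ∈ Metric.ball (0 : ℂ) 1, p.eval (g w) = w)
    {w₀ : ℂ} (hw₀ : ‖w₀‖ < 1) (hcv : w₀ ∉ CV p) :
    ‖p.leadingCoeff‖ * ((1 - ‖w₀‖) / ‖p.derivative.eval (g w₀)‖) ^ m / ‖p.derivative.eval (g w₀)‖ ≤ Real.exp (la m) := by
  set b := g w₀ with hb
  set d := p.derivative.eval b with hd
  have hpb : p.eval b = w₀ := hpg w₀ (by simpa using hw₀)
  have hd0 : d ≠ 0 := fun h => hcv ⟨b, h, hpb⟩
  have hdn : 0 < ‖d‖ := norm_pos_iff.2 hd0
  set ρ : ℝ := (1 - ‖w₀‖) / ‖d‖ with hρ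
  have hρ0 : 0 < ρ := div_pos (by linarith) hdn
  have hρc : (ρ : ℂ) ≠ 0 := by exact_mod_cast hρ0.ne'
  set L : Polynomial ℂ := Polynomial.C (ρ : ℂ) * Polynomial.X + Polynomial.C b with hL
  set q : Polynomial ℂ := Polynomial.C ((d * ρ)⁻¹) * (p.comp L - Polynomial.C w₀) with hq
  have hc0 : (d * ρ)⁻¹ ≠ 0 := inv_ne_zero (mul_ne_zero hd0 hρc)
  have hLd : L.natDegree = 1 := Polynomial.natDegree_linear hρc
  have hLl : L.leadingCoeff = (ρ : ℂ) := Polynomial.leadingCoeff_linear hρc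
  have hcd : (p.comp L).natDegree = m + 1 := by
    rw [Polynomial.natDegree_comp, hLd, hdeg, mul_one]
  have hqd : q.natDegree = m + 1 := by
    rw [hq, Polynomial.natDegree_C_mul hc0, Polynomial.natDegree_sub_C, hcd]
  have hev : ∀ z, q.eval z = (d * ρ)⁻¹ * (p.eval (ρ * z + b) - w₀) := by
    intro z
    simp [hq, hL]
  have hdev : ∀ z, q.derivative.eval z = (d * ρ)⁻¹ * (p.derivative.eval (ρ * z + b) * ρ) := by
    intro z
    have h2 : q.derivative = Polynomial.C ((d * ρ)⁻¹) * (Polynomial.C (ρ : ℂ) * (p.derivative.comp L)) := by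
      rw [hq, Polynomial.derivative_C_mul, Polynomial.derivative_sub, Polynomial.derivative_C, sub_zero,
        Polynomial.derivative_comp]
      congr 2
      simp [hL]
    rw [h2]
    simp only [Polynomial.eval_mul, Polynomial.eval_C, Polynomial.eval_comp, hL, Polynomial.eval_add,
      Polynomial.eval_X]
    rw [mul_comm (ρ : ℂ) (p.derivative.eval _)]
  have hlead : q.leadingCoeff = (d * ρ)⁻¹ * (p.leadingCoeff * (ρ : ℂ) ^ (m + 1)) := by
    rw [Polynomial.leadingCoeff, hqd, hq, Polynomial.coeff_C_mul, Polynomial.coeff_sub, Polynomial.coeff_C,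
      if_neg (by omega), sub_zero]
    congr 1
    rw [← hcd, ← Polynomial.leadingCoeff, Polynomial.leadingCoeff_comp (by rw [hLd]; exact one_ne_zero), hLl, hdeg, hcd]
  have hmem : ∀ w ∈ Metric.ball (0 : ℂ) 1, w₀ + d * ρ * w ∈ Metric.ball (0 : ℂ) 1 := by
    intro w hw
    rw [mem_ball_zero_iff] at hw ⊢
    have h2 : ‖d * ρ * w‖ = (1 - ‖w₀‖) * ‖w‖ := by
      rw [norm_mul, norm_mul, Complex.norm_real, Real.norm_eq_abs, abs_of_pos hρ0, hρ]
      field_simp
    calc ‖w₀ + d * ρ * w‖ ≤ ‖w₀‖ + ‖d * ρ * w‖ := norm_add_le _ _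
      _ = ‖w₀‖ + (1 - ‖w₀‖) * ‖w‖ := by rw [h2]
      _ < ‖w₀‖ + (1 - ‖w₀‖) * 1 := by
          have : 0 < 1 - ‖w₀‖ := by linarith
          gcongr
      _ = 1 := by ring
  set G : ℂ → ℂ := fun w => (g (w₀ + d * ρ * w) - b) / ρ with hG
  have key := lead_le_of_not_cv q m hm hqd ?_ ?_ ?_ G ?_ ?_ ?_
  · rw [hlead, norm_mul, norm_inv, norm_mul, norm_mul, norm_pow, Complex.norm_real, Real.norm_eq_abs,
      abs_of_pos hρ0] at key
    refine le_trans (le_of_eq ?_) key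
    rw [pow_succ]
    field_simp
  · rw [hev]; simp [hpb]
  · rw [hdev]
    simp only [mul_zero, zero_add, ← hd]
    exact inv_mul_cancel₀ (mul_ne_zero hd0 hρc)
  · rintro ⟨k, hk1, hk2⟩
    apply hcv
    refine ⟨ρ * k + b, ?_, ?_⟩
    · have h3 : q.derivative.eval k = 0 := hk1
      rw [hdev] at h3
      have h4 := (mul_eq_zero.1 h3).resolve_left hc0
      exact (mul_eq_zero.1 h4).resolve_right hρc
    · have h3 : q.eval k = 0 := hk2
      rw [hev] at h3
      exact sub_eq_zero.1 ((mul_eq_zero.1 h3).resolve_left hc0)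
  · apply DifferentiableOn.div_const
    apply DifferentiableOn.sub_const
    apply hg.comp (t := Metric.ball 0 1)
    · fun_prop
    · exact hmem
  · simp [hG, ← hb]
  · intro w hw
    rw [hev]
    simp only [hG]
    rw [mul_div_cancel₀ _ hρc, sub_add_cancel, hpg _ (hmem w hw), add_sub_cancel_left, inv_mul_cancel_left₀]
    exact mul_ne_zero hd0 hρc

lemma finite_CV {p : Polynomial ℂ} (hp : p.derivative ≠ 0) : (CV p).Finite := by
  apply Set.Finite.image
  exact Polynomial.finite_setOfPred_isRoot hp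

/-- the coefficient bound -/
theorem lead_le (p : Polynomial ℂ) (m : ℕ) (hm : 1 ≤ m) (hdeg : p.natDegree = m + 1)
    (h1 : p.derivative.eval 0 = 1)
    (g : ℂ → ℂ) (hg : DifferentiableOn ℂ g (Metric.ball 0 1))
    (hg0 : g 0 = 0) (hpg : ∀ w ∈ Metric.ball (0 : ℂ) 1, p.eval (g w) = w) :
    ‖p.leadingCoeff‖ ≤ Real.exp (la m) := by
  have hd0 : p.derivative ≠ 0 := by intro h; rw [h] at h1; simp at h1
  have hgc : ContinuousAt g 0 := (hg.differentiableAt (Metric.ball_mem_nhds 0 one_pos)).continuousAt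
  set F : ℂ → ℝ := fun w₀ => ‖p.leadingCoeff‖ * ((1 - ‖w₀‖) / ‖p.derivative.eval (g w₀)‖) ^ m / ‖p.derivative.eval (g w₀)‖ with hF
  have hdc : ContinuousAt (fun w => ‖p.derivative.eval (g w)‖) 0 :=
    (ContinuousAt.comp (g := fun z => p.derivative.eval z) (f := g) p.derivative.continuous.continuousAt hgc).norm
  have hne : ‖p.derivative.eval (g 0)‖ ≠ 0 := by rw [hg0, h1]; simp
  have hFc : ContinuousAt F 0 := by
    apply ContinuousAt.div _ hdc hne
    apply ContinuousAt.mul continuousAt_const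
    apply ContinuousAt.pow
    apply ContinuousAt.div _ hdc hne
    fun_prop
  have hF0 : F 0 = ‖p.leadingCoeff‖ := by simp [hF, hg0, h1]
  have ht : Tendsto F (𝓝[≠] 0) (𝓝 ‖p.leadingCoeff‖) := by
    rw [← hF0]; exact hFc.tendsto.mono_left nhdsWithin_le_nhds
  apply le_of_tendsto ht
  have h2 : ∀ᶠ w in 𝓝[≠] (0 : ℂ), w ∉ CV p := by
    have h3 : (CV p \ {0}).Finite := (finite_CV hd0).sdiff
    have h4 : ∀ᶠ w in 𝓝 (0 : ℂ), w ∉ CV p \ {0} := h3.isClosed.isOpen_compl.mem_nhds (fun h => h.2 rfl)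
    filter_upwards [nhdsWithin_le_nhds h4, self_mem_nhdsWithin] with w hw1 hw2 hw3
    exact hw1 ⟨hw3, hw2⟩
  have h5 : ∀ᶠ w in 𝓝[≠] (0 : ℂ), w ∈ Metric.ball (0 : ℂ) 1 := nhdsWithin_le_nhds (Metric.ball_mem_nhds 0 one_pos)
  filter_upwards [h2, h5] with w hw1 hw2
  exact lead_le_shift p m hm hdeg g hg hpg (by simpa using hw2) hw1

end

end Pool.Agent.Hhelper25.Biuni
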